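import Pool.Agent.H27.Ind.Defs

set_option autoImplicit false

/-!
# The alternating group of degree five
-/

namespace Pool.Agent.H27.Ind

open Pool.Agent.H83.Ord

namespace A5

theorem derived_top {G : Type*} [Group G] (hp : ⁅(⊤ : Subgroup G), (⊤ : Subgroup G)⁆ = ⊤) (n : ℕ) :
    derivedSeries G n = ⊤ := by
  induction n with
  | zero => rfl
  | succ n ih => rw [derivedSeries_succ, ih, hp]

/-- A perfect group has no nontrivial homomorphism to a solvable group. -/
theorem hom_trivial {G Q : Type*} [Group G] [Group Q] [Group.IsSolvable Q]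
    (hp : ⁅(⊤ : Subgroup G), (⊤ : Subgroup G)⁆ = ⊤) (f : G →* Q) (g : G) : f g = 1 := by
  obtain ⟨n, hn⟩ := Group.IsSolvable.solvable (G := Q)
  have h1 : f g ∈ derivedSeries Q n :=
    map_derivedSeries_le_derivedSeries f n ⟨g, by rw [derived_top hp]; trivial, rfl⟩
  rw [hn] at h1
  exact h1

theorem subsingleton_of_solvable {G : Type*} [Group G] [Group.IsSolvable G]
    (hp : ⁅(⊤ : Subgroup G), (⊤ : Subgroup G)⁆ = ⊤) (g : G) : g = 1 :=
  hom_trivial hp (MonoidHom.id G) g

theorem no_index_three {G : Type*} [Group G]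
    (hp : ⁅(⊤ : Subgroup G), (⊤ : Subgroup G)⁆ = ⊤) (H : Subgroup G) (hi : H.index = 3) : False := by
  classical
  have hfi : Finite (G ⧸ H) := by
    have : Nat.card (G ⧸ H) = 3 := hi
    exact Nat.finite_of_card_ne_zero (by omega)
  have hcard : Nat.card (Equiv.Perm (G ⧸ H)) = 6 := by
    rw [Nat.card_perm, show Nat.card (G ⧸ H) = 3 from hi]
    rfl
  have hz : IsZGroup (Equiv.Perm (G ⧸ H)) := IsZGroup.of_squarefree (by
    rw [hcard]
    decide +kernel)
  have hs : Group.IsSolvable (Equiv.Perm (G ⧸ H)) := inferInstance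
  have h1 : ∀ g : G, g ∈ H := by
    intro g
    have h2 := hom_trivial hp (MulAction.toPermHom G (G ⧸ H)) g
    have h3 := congrArg (fun e : Equiv.Perm (G ⧸ H) => e ((1 : G) : G ⧸ H)) h2
    have h4 : ((g * 1 : G) : G ⧸ H) = ((1 : G) : G ⧸ H) := h3
    rw [mul_one, eq_comm, QuotientGroup.eq, inv_one, one_mul] at h4
    exact h4
  have h2 : H = ⊤ := (Subgroup.eq_top_iff' H).2 h1
  rw [h2, Subgroup.index_top] at hi
  omega

theorem pow_cases : ∀ g : Equiv.Perm (Fin 5), Equiv.Perm.sign g = 1 →
    g ^ 2 = 1 ∨ g ^ 3 = 1 ∨ g ^ 5 = 1 := by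
  decide +kernel

theorem simple5 : IsSimpleGroup (alternatingGroup (Fin 5)) :=
  alternatingGroup.isSimpleGroup (by simp)

theorem perfect : ⁅(⊤ : Subgroup (alternatingGroup (Fin 5))), (⊤ : Subgroup (alternatingGroup (Fin 5)))⁆ =
    ⊤ := by
  have := simple5
  rcases IsSimpleGroup.eq_bot_or_eq_top_of_normal
    ⁅(⊤ : Subgroup (alternatingGroup (Fin 5))), (⊤ : Subgroup (alternatingGroup (Fin 5)))⁆
    inferInstance with h | h
  · exfalso
    rw [Subgroup.commutator_eq_bot_iff_le_centralizer] at h
    let a : alternatingGroup (Fin 5) := ⟨Equiv.swap 0 1 * Equiv.swap 1 2,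
      Equiv.Perm.mem_alternatingGroup.2 (by decide +kernel)⟩
    let b : alternatingGroup (Fin 5) := ⟨Equiv.swap 2 3 * Equiv.swap 3 4,
      Equiv.Perm.mem_alternatingGroup.2 (by decide +kernel)⟩
    have h1 := h (Subgroup.mem_top a)
    rw [Subgroup.mem_centralizer_iff] at h1
    have h2 := congrArg Subtype.val (h1 b (Subgroup.mem_top b))
    revert h2
    change ¬ (Equiv.swap 2 3 * Equiv.swap 3 4 : Equiv.Perm (Fin 5)) * (Equiv.swap 0 1 * Equiv.swap 1 2) =
      (Equiv.swap 0 1 * Equiv.swap 1 2) * (Equiv.swap 2 3 * Equiv.swap 3 4)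
    decide +kernel
  · exact h

theorem card_eq : Nat.card (alternatingGroup (Fin 5)) = 60 := by
  rw [Nat.card_eq_fintype_card, card_alternatingGroup]
  rfl

end A5

open A5

theorem good_A5 : Good (alternatingGroup (Fin 5)) where
  fin := inferInstance
  nontriv := simple5.toNontrivial
  simple := fun N hN =>
    simple5.eq_bot_or_eq_top_of_normal N hN
  perfect := perfect
  prime := by
    intro s hs
    have h1 := pow_cases s.1 (Equiv.Perm.mem_alternatingGroup.1 s.2)
    have h2 : s ^ 2 = 1 ∨ s ^ 3 = 1 ∨ s ^ 5 = 1 := by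
      rcases h1 with h | h | h
      · exact Or.inl (Subtype.ext h)
      · exact Or.inr (Or.inl (Subtype.ext h))
      · exact Or.inr (Or.inr (Subtype.ext h))
    rcases h2 with h | h | h
    · have : Fact (Nat.Prime 2) := ⟨by norm_num⟩
      rw [orderOf_eq_prime h hs]; norm_num
    · have : Fact (Nat.Prime 3) := ⟨by norm_num⟩
      rw [orderOf_eq_prime h hs]; norm_num
    · have : Fact (Nat.Prime 5) := ⟨by norm_num⟩
      rw [orderOf_eq_prime h hs]; norm_num
  sub := by
    intro D hD
    have hp : ⁅(⊤ : Subgroup D), (⊤ : Subgroup D)⁆ = ⊤ := by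
      have h1 : (commutator D).map D.subtype = D := by
        rw [Subgroup.map_subtype_commutator]
        exact le_antisymm D.commutator_le_self hD
      rw [eq_top_iff]
      intro x _
      have h2 : (x : alternatingGroup (Fin 5)) ∈ (commutator D).map D.subtype := by
        rw [h1]; exact x.2
      obtain ⟨y, hy, hyx⟩ := h2
      have : y = x := Subtype.ext hyx
      rw [← this]
      exact hy
    have hbot : Group.IsSolvable D → D = ⊥ := by
      intro hs
      rw [Subgroup.eq_bot_iff_forall]
      intro x hx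
      exact congrArg Subtype.val (subsingleton_of_solvable hp ⟨x, hx⟩)
    have hdvd : Nat.card D ∣ 60 := by
      rw [← card_eq]
      exact Subgroup.card_subgroup_dvd_card D
    by_cases hsq : Squarefree (Nat.card D)
    · left
      have : IsZGroup D := IsZGroup.of_squarefree hsq
      exact hbot inferInstance
    · have hmem : Nat.card D ∈ Nat.divisors 60 := Nat.mem_divisors.2 ⟨hdvd, by norm_num⟩
      have hcases : ∀ d ∈ Nat.divisors 60, ¬ Squarefree d → d = 4 ∨ d = 12 ∨ d = 20 ∨ d = 60 := by
        decide +kernel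
      rcases hcases _ hmem hsq with h | h | h | h
      · left
        apply hbot
        have : Fact (Nat.Prime 2) := ⟨by norm_num⟩
        have hpg : IsPGroup 2 D := IsPGroup.of_card (n := 2) (by rw [h]; norm_num)
        have := hpg.isNilpotent
        infer_instance
      · exfalso
        have : Fact (Nat.Prime 2) := ⟨by norm_num⟩
        obtain ⟨K, hK⟩ := Sylow.exists_subgroup_card_pow_prime (G := D) 2 (n := 2)
          (by rw [h]; norm_num)
        apply no_index_three hp K
        have h2 := K.card_mul_index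
        rw [hK, h] at h2
        omega
      · exfalso
        apply no_index_three perfect D
        have h2 := D.card_mul_index
        rw [h, card_eq] at h2
        omega
      · right
        apply Subgroup.eq_top_of_card_eq
        rw [h, card_eq]

end Pool.Agent.H27.Ind
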