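import Pool.Agent.H27.Ind.LemY

set_option autoImplicit false

/-!
# The action on the spaces of additive functions
-/

namespace Pool.Agent.H27.Ind

open Module

lemma exists_descend {G Q M : Type*} [Group G] [Group Q] [Monoid M] (π : G →* Q)
    (hπ : Function.Surjective π) (a : G →* M) (ha : ∀ g, π g = 1 → a g = 1) :
    ∃ ρ : Q →* M, ∀ g, ρ (π g) = a g := by
  choose σ hσ using hπ
  have key : ∀ g g', π g = π g' → a g = a g' := by
    intro g g' hgg
    have h1 : g = g' * (g'⁻¹ * g) := by group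
    have h2 : a (g'⁻¹ * g) = 1 := by
      apply ha
      rw [map_mul, map_inv, hgg, inv_mul_cancel]
    rw [h1, map_mul, h2, mul_one]
  refine ⟨{ toFun := fun s => a (σ s), map_one' := ?_, map_mul' := ?_ }, fun g => ?_⟩
  · exact ha _ (hσ 1)
  · intro s t
    rw [← map_mul]
    apply key
    rw [hσ, map_mul, hσ, hσ]
  · exact key _ _ (hσ _)

section

variable {F : Type*} [Group F] {H X T : Subgroup F}

/-- The action by conjugation. -/
def act (hX : H ≤ Subgroup.normalizer (X : Set F)) (hT : H ≤ Subgroup.normalizer (T : Set F)) :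
    H →* Module.End ℚ (Res ℚ X T) where
  toFun := fun h =>
    { toFun := fun f => ⟨fun x => (f : X → ℚ) (cj (hX (H.inv_mem h.2)) x), by
        obtain ⟨g, hg, hf⟩ := f.2
        refine ⟨fun z => g ((h : F)⁻¹ * z * ((h : F)⁻¹)⁻¹), fun x hx y hy => ?_, fun x => ?_⟩
        · show g ((h : F)⁻¹ * (x * y) * ((h : F)⁻¹)⁻¹) = g ((h : F)⁻¹ * x * ((h : F)⁻¹)⁻¹) +
            g ((h : F)⁻¹ * y * ((h : F)⁻¹)⁻¹)
          rw [← hg _ (norm_conj (hT (H.inv_mem h.2)) hx) _ (norm_conj (hT (H.inv_mem h.2)) hy)]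
          congr 1
          group
        · show (f : X → ℚ) (cj (hX (H.inv_mem h.2)) x) = _
          rw [hf, coe_cj]⟩
      map_add' := fun _ _ => rfl
      map_smul' := fun _ _ => rfl }
  map_one' := by
    apply LinearMap.ext
    intro f
    apply Subtype.ext
    funext x
    show (f : X → ℚ) (cj (hX (H.inv_mem (1 : H).2)) x) = (f : X → ℚ) x
    refine congrArg (f : X → ℚ) (Subtype.ext ?_)
    rw [coe_cj, Subgroup.coe_one]
    group
  map_mul' := by
    intro h h'
    apply LinearMap.ext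
    intro f
    apply Subtype.ext
    funext x
    show (f : X → ℚ) (cj (hX (H.inv_mem (h * h').2)) x) =
      (f : X → ℚ) (cj (hX (H.inv_mem h'.2)) (cj (hX (H.inv_mem h.2)) x))
    refine congrArg (f : X → ℚ) (Subtype.ext ?_)
    rw [coe_cj, coe_cj, coe_cj, Subgroup.coe_mul]
    group

lemma act_apply (hX : H ≤ Subgroup.normalizer (X : Set F))
    (hT : H ≤ Subgroup.normalizer (T : Set F)) (h : H) (f : Res ℚ X T) (x : X) :
    ((act hX hT h f : Res ℚ X T) : X → ℚ) x = (f : X → ℚ) (cj (hX (H.inv_mem h.2)) x) := rfl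

lemma act_eq_one (hX : H ≤ Subgroup.normalizer (X : Set F))
    (hT : H ≤ Subgroup.normalizer (T : Set F)) (hXT : X ≤ T) (h : H) (hh : (h : F) ∈ T) :
    act hX hT h = 1 := by
  apply LinearMap.ext
  intro f
  apply Subtype.ext
  funext x
  rw [act_apply]
  obtain ⟨g, hg, hf⟩ := f.2
  rw [hf, coe_cj, hg.conj (hXT x.2) (T.inv_mem hh)]
  exact (hf x).symm

/-- the fixed functions are fixed by the action -/
lemma finrank_inv_le (hX : H ≤ Subgroup.normalizer (X : Set F))
    (hT : H ≤ Subgroup.normalizer (T : Set F)) (hXT : X ≤ T) (h : H)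
    {d : ℕ} (w : Fin d → X) (hw : Subgroup.closure (Set.range w) = ⊤) :
    finrank ℚ ((Res ℚ X T ⊓ Inv ℚ X h : Submodule ℚ (X → ℚ))) ≤
      finrank ℚ (LinearMap.ker (act hX hT h - 1)) := by
  have := finite_of_le_AF w hw (Res ℚ X T) (Res_le_AF hXT)
  have hk : ∀ f : (Res ℚ X T ⊓ Inv ℚ X h : Submodule ℚ (X → ℚ)),
      (⟨(f : X → ℚ), f.2.1⟩ : Res ℚ X T) ∈ LinearMap.ker (act hX hT h - 1) := by
    intro f
    rw [LinearMap.mem_ker, LinearMap.sub_apply, sub_eq_zero]
    apply Subtype.ext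
    funext x
    rw [act_apply]
    show (f : X → ℚ) (cj (hX (H.inv_mem h.2)) x) = (f : X → ℚ) x
    have h1 := f.2.2 (cj (hX (H.inv_mem h.2)) x) x (by
      rw [coe_cj]
      group)
    exact h1.symm
  let ι : (Res ℚ X T ⊓ Inv ℚ X h : Submodule ℚ (X → ℚ)) →ₗ[ℚ] LinearMap.ker (act hX hT h - 1) :=
    { toFun := fun f => ⟨⟨(f : X → ℚ), f.2.1⟩, hk f⟩
      map_add' := fun _ _ => rfl
      map_smul' := fun _ _ => rfl }
  apply LinearMap.finrank_le_finrank_of_injective (f := ι)
  intro x y hxy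
  apply Subtype.ext
  exact congrArg (fun z : LinearMap.ker (act hX hT h - 1) => ((z : Res ℚ X T) : X → ℚ)) hxy

end

lemma finrank_ker_of_zpowers {G : Type*} [Group G] [Finite G] {V : Type*} [AddCommGroup V]
    [Module ℚ V] (ρ : G →* Module.End ℚ V) (s t : G)
    (hst : Subgroup.zpowers s = Subgroup.zpowers t) :
    finrank ℚ (LinearMap.ker (ρ s - 1)) = finrank ℚ (LinearMap.ker (ρ t - 1)) := by
  have key : ∀ s t : G, t ∈ Subgroup.zpowers s →
      LinearMap.ker (ρ s - 1) ≤ LinearMap.ker (ρ t - 1) := by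
    intro s t ht v hv
    rw [LinearMap.mem_ker, LinearMap.sub_apply, sub_eq_zero] at hv ⊢
    rw [← mem_powers_iff_mem_zpowers] at ht
    obtain ⟨n, rfl⟩ := ht
    have h1 : ∀ n : ℕ, (ρ (s ^ n)) v = v := by
      intro n
      induction n with
      | zero => rw [pow_zero, map_one]; rfl
      | succ n ih =>
        rw [pow_succ, map_mul, Module.End.mul_apply, hv]
        exact ih
    exact h1 n
  have : LinearMap.ker (ρ s - 1) = LinearMap.ker (ρ t - 1) := le_antisymm
    (key s t (by rw [hst]; exact Subgroup.mem_zpowers t))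
    (key t s (by rw [← hst]; exact Subgroup.mem_zpowers s))
  rw [this]

end Pool.Agent.H27.Ind
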