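import Mathlib

set_option autoImplicit false

/-!
# Additive functions on groups
-/

namespace Pool.Agent.H27.Ind

open Module

/-- A function which is additive on a subgroup. -/
def AddOn {F : Type*} [Group F] {A : Type*} [Add A] (T : Subgroup F) (g : F → A) : Prop :=
  ∀ x ∈ T, ∀ y ∈ T, g (x * y) = g x + g y

section AddOn

variable {F : Type*} [Group F] {A : Type*} [AddCommGroup A] {T : Subgroup F} {g : F → A}

lemma AddOn.one (h : AddOn T g) : g 1 = 0 := by
  have := h 1 T.one_mem 1 T.one_mem
  rw [one_mul] at this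
  simpa using this

lemma AddOn.inv (h : AddOn T g) {x : F} (hx : x ∈ T) : g x⁻¹ = - g x := by
  have := h x hx x⁻¹ (T.inv_mem hx)
  rw [mul_inv_cancel, h.one] at this
  exact (neg_eq_of_add_eq_zero_right this.symm).symm

lemma AddOn.conj (h : AddOn T g) {x y : F} (hx : x ∈ T) (hy : y ∈ T) :
    g (y * x * y⁻¹) = g x := by
  rw [h _ (T.mul_mem hy hx) _ (T.inv_mem hy), h _ hy _ hx, h.inv hy]
  abel

lemma AddOn.pow (h : AddOn T g) {x : F} (hx : x ∈ T) (n : ℕ) : g (x ^ n) = n • g x := by
  induction n with
  | zero => rw [pow_zero, h.one, zero_smul]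
  | succ n ih => rw [pow_succ, h _ (T.pow_mem hx n) _ hx, ih, succ_nsmul]

lemma AddOn.mono {T' : Subgroup F} (h : AddOn T g) (hT : T' ≤ T) : AddOn T' g :=
  fun x hx y hy => h x (hT hx) y (hT hy)

lemma AddOn.commutator (h : AddOn T g) {x : F} (hx : x ∈ ⁅T, T⁆) : g x = 0 := by
  have hle : ⁅T, T⁆ ≤ T := Subgroup.commutator_le_self T
  rw [Subgroup.commutator_def] at hx
  have : x ∈ T ∧ g x = 0 := by
    induction hx using Subgroup.closure_induction with
    | mem z hz =>
      obtain ⟨a, ha, b, hb, rfl⟩ := hz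
      have hm : a * b * a⁻¹ * b⁻¹ ∈ T :=
        T.mul_mem (T.mul_mem (T.mul_mem ha hb) (T.inv_mem ha)) (T.inv_mem hb)
      rw [commutatorElement_def]
      refine ⟨hm, ?_⟩
      rw [h _ (T.mul_mem (T.mul_mem ha hb) (T.inv_mem ha)) _ (T.inv_mem hb), h.conj hb ha,
        h.inv hb, add_neg_cancel]
    | one => exact ⟨T.one_mem, h.one⟩
    | mul a b _ _ iha ihb =>
      exact ⟨T.mul_mem iha.1 ihb.1, by rw [h _ iha.1 _ ihb.1, iha.2, ihb.2, add_zero]⟩
    | inv a _ iha => exact ⟨T.inv_mem iha.1, by rw [h.inv iha.1, iha.2, neg_zero]⟩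
  exact this.2

end AddOn

/-- The additive functions on a group vanishing on a set. -/
def AF (k : Type*) [CommRing k] {G : Type*} [Group G] (Z : Set G) : Submodule k (G → k) where
  carrier := {f | (∀ x y, f (x * y) = f x + f y) ∧ ∀ x ∈ Z, f x = 0}
  add_mem' := by
    rintro f g ⟨hf, hf'⟩ ⟨hg, hg'⟩
    refine ⟨fun x y => ?_, fun x hx => ?_⟩
    · simp only [Pi.add_apply, hf, hg]; abel
    · simp only [Pi.add_apply, hf' x hx, hg' x hx, add_zero]
  zero_mem' := ⟨fun x y => by simp, fun x hx => rfl⟩
  smul_mem' := by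
    rintro c f ⟨hf, hf'⟩
    refine ⟨fun x y => ?_, fun x hx => ?_⟩
    · simp only [Pi.smul_apply, hf, smul_add]
    · simp only [Pi.smul_apply, hf' x hx, smul_zero]

lemma mem_AF {k : Type*} [CommRing k] {G : Type*} [Group G] {Z : Set G} {f : G → k} :
    f ∈ AF k Z ↔ (∀ x y, f (x * y) = f x + f y) ∧ ∀ x ∈ Z, f x = 0 := Iff.rfl

/-- Additive functions are determined on generators. -/
lemma AF_ext {A : Type*} [AddCommGroup A] {G : Type*} [Group G] {d : ℕ} (w : Fin d → G)
    (hw : Subgroup.closure (Set.range w) = ⊤) {f : G → A}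
    (hf : ∀ x y, f (x * y) = f x + f y) (h0 : ∀ i, f (w i) = 0) : f = 0 := by
  have hA : AddOn (⊤ : Subgroup G) f := fun x _ y _ => hf x y
  funext x
  have hx : x ∈ Subgroup.closure (Set.range w) := by rw [hw]; exact Subgroup.mem_top x
  induction hx using Subgroup.closure_induction with
  | mem z hz => obtain ⟨i, rfl⟩ := hz; exact h0 i
  | one => exact hA.one
  | mul a b _ _ iha ihb => rw [hf, iha, ihb]; simp
  | inv a _ iha => rw [hA.inv (Subgroup.mem_top a), iha]; simp

/-- evaluation on generators -/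
def evalGen (k : Type*) [CommRing k] {G : Type*} [Group G] {d : ℕ} (w : Fin d → G)
    (V : Submodule k (G → k)) : V →ₗ[k] (Fin d → k) where
  toFun := fun f i => (f : G → k) (w i)
  map_add' := fun f g => rfl
  map_smul' := fun c f => rfl

lemma evalGen_injective {k : Type*} [CommRing k] {G : Type*} [Group G] {d : ℕ} (w : Fin d → G)
    (hw : Subgroup.closure (Set.range w) = ⊤) (V : Submodule k (G → k)) (hV : V ≤ AF k ∅) :
    Function.Injective (evalGen k w V) := by
  intro f g hfg
  apply Subtype.ext
  have hf := hV f.2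
  have hg := hV g.2
  have : (f : G → k) - (g : G → k) = 0 := by
    apply AF_ext w hw
    · exact ((AF k ∅).sub_mem hf hg).1
    · intro i
      have := congrFun hfg i
      show (f : G → k) (w i) - (g : G → k) (w i) = 0
      rw [sub_eq_zero]
      exact this
  exact sub_eq_zero.1 this

lemma finite_of_le_AF {k : Type*} [Field k] {G : Type*} [Group G] {d : ℕ} (w : Fin d → G)
    (hw : Subgroup.closure (Set.range w) = ⊤) (V : Submodule k (G → k)) (hV : V ≤ AF k ∅) :
    FiniteDimensional k V :=
  Module.Finite.of_injective _ (evalGen_injective w hw V hV)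

lemma finrank_le_of_le_AF {k : Type*} [Field k] {G : Type*} [Group G] {d : ℕ} (w : Fin d → G)
    (hw : Subgroup.closure (Set.range w) = ⊤) (V : Submodule k (G → k)) (hV : V ≤ AF k ∅) :
    finrank k V ≤ d := by
  have := LinearMap.finrank_le_finrank_of_injective (evalGen_injective w hw V hV)
  simpa using this

lemma AF_le {k : Type*} [CommRing k] {G : Type*} [Group G] (Z : Set G) : AF k Z ≤ AF k ∅ :=
  fun _ hf => ⟨hf.1, fun _ hx => absurd hx (Set.notMem_empty _)⟩

/-- Passing to prime characteristic does not decrease the dimension. -/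
lemma finrank_AF_le {G : Type*} [Group G] {d : ℕ} (w : Fin d → G)
    (hw : Subgroup.closure (Set.range w) = ⊤) (Z : Set G) (l : ℕ) [hl : Fact l.Prime] :
    finrank ℚ (AF ℚ Z) ≤ finrank (ZMod l) (AF (ZMod l) Z) := by
  have hinj := evalGen_injective w hw (AF ℤ Z) (AF_le Z)
  have hfin : Module.Finite ℤ (AF ℤ Z) := Module.Finite.of_injective _ hinj
  have : Module.IsTorsionFree ℤ (AF ℤ Z) := hinj.moduleIsTorsionFree _ (fun c x => map_smul _ c x)
  have hfree : Module.Free ℤ (AF ℤ Z) := Module.free_of_finite_type_torsion_free'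
  let b := Module.finBasis ℤ (AF ℤ Z)
  set n := finrank ℤ (AF ℤ Z) with hn
  have h1 : n ≤ finrank (ZMod l) (AF (ZMod l) Z) := by
    have := finite_of_le_AF w hw (AF (ZMod l) Z) (AF_le Z)
    let c : Fin n → AF (ZMod l) Z := fun i =>
      ⟨fun x => ((b i : G → ℤ) x : ZMod l), fun x y => by
        show (((b i : G → ℤ) (x * y) : ℤ) : ZMod l) = _
        rw [(b i).2.1 x y]; push_cast; rfl, fun x hx => by
        show (((b i : G → ℤ) x : ℤ) : ZMod l) = _
        rw [(b i).2.2 x hx]; simp⟩
    have hc : LinearIndependent (ZMod l) c := by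
      rw [Fintype.linearIndependent_iff]
      intro a ha i
      -- lift the coefficients
      let a' : Fin n → ℤ := fun i => (a i).cast
      have ha' : ∀ i, ((a' i : ℤ) : ZMod l) = a i := fun i => ZMod.intCast_zmod_cast (a i)
      let f : AF ℤ Z := ∑ i, a' i • b i
      have hfx : ∀ x, ((f : G → ℤ) x : ZMod l) = 0 := by
        intro x
        have h2 : (f : G → ℤ) x = ∑ i, a' i * (b i : G → ℤ) x := by
          simp only [f, Submodule.coe_sum, Finset.sum_apply, Submodule.coe_smul, Pi.smul_apply,
            smul_eq_mul]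
        rw [h2]
        push_cast
        have h3 := congrArg (fun z : AF (ZMod l) Z => (z : G → ZMod l) x) ha
        simp only [Submodule.coe_sum, Finset.sum_apply, Submodule.coe_smul, Pi.smul_apply,
          smul_eq_mul, Submodule.coe_zero, Pi.zero_apply] at h3
        rw [← h3]
        apply Finset.sum_congr rfl
        intro i _
        rw [ha' i]
      have hdiv : ∀ x, ∃ z : ℤ, (f : G → ℤ) x = l * z := by
        intro x
        exact (ZMod.intCast_zmod_eq_zero_iff_dvd _ l).1 (hfx x)
      choose g hg using hdiv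
      have hl0 : (l : ℤ) ≠ 0 := by exact_mod_cast hl.out.ne_zero
      have hgmem : g ∈ AF ℤ Z := by
        constructor
        · intro x y
          have h2 := f.2.1 x y
          rw [hg, hg x, hg y, ← mul_add] at h2
          exact mul_left_cancel₀ hl0 h2
        · intro x hx
          have h2 := f.2.2 x hx
          rw [hg] at h2
          exact (mul_eq_zero.1 h2).resolve_left hl0
      have h4 : f = (l : ℤ) • (⟨g, hgmem⟩ : AF ℤ Z) := by
        apply Subtype.ext
        funext x
        rw [hg x]
        rfl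
      have h5 := congrArg (fun z => b.repr z i) h4
      have h6 : b.repr f i = a' i := by
        simp only [f]
        exact congrFun (b.repr_sum_self a') i
      simp only [map_smul, Finsupp.smul_apply, smul_eq_mul] at h5
      rw [h6] at h5
      rw [← ha' i, h5]
      push_cast
      rw [ZMod.natCast_self, zero_mul]
    have := hc.fintype_card_le_finrank
    simpa using this
  refine le_trans ?_ h1
  -- every rational function is a multiple of an integral one
  have := finite_of_le_AF w hw (AF ℚ Z) (AF_le Z)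
  let c : Fin n → AF ℚ Z := fun i =>
      ⟨fun x => ((b i : G → ℤ) x : ℚ), fun x y => by
        show (((b i : G → ℤ) (x * y) : ℤ) : ℚ) = _
        rw [(b i).2.1 x y]; push_cast; rfl, fun x hx => by
        show (((b i : G → ℤ) x : ℤ) : ℚ) = _
        rw [(b i).2.2 x hx]; simp⟩
  have hspan : (⊤ : Submodule ℚ (AF ℚ Z)) ≤ Submodule.span ℚ (Set.range c) := by
    intro f _
    let N : ℕ := ∏ i, ((f : G → ℚ) (w i)).den
    have hN : (N : ℚ) ≠ 0 := by
      have : N ≠ 0 := Finset.prod_ne_zero_iff.2 (fun i _ => Rat.den_ne_zero _)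
      exact_mod_cast this
    have hAf : AddOn (⊤ : Subgroup G) (f : G → ℚ) := fun x _ y _ => f.2.1 x y
    have hint : ∀ x : G, ∃ z : ℤ, (z : ℚ) = N * (f : G → ℚ) x := by
      intro x
      have hx : x ∈ Subgroup.closure (Set.range w) := by rw [hw]; exact Subgroup.mem_top x
      induction hx using Subgroup.closure_induction with
      | mem z hz =>
        obtain ⟨i, rfl⟩ := hz
        obtain ⟨M, hM⟩ : ((f : G → ℚ) (w i)).den ∣ N :=
          Finset.dvd_prod_of_mem _ (Finset.mem_univ i)
        refine ⟨((f : G → ℚ) (w i)).num * M, ?_⟩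
        rw [hM]
        push_cast
        have := Rat.mul_den_eq_num ((f : G → ℚ) (w i))
        rw [mul_assoc, mul_comm (M : ℚ), ← mul_assoc, mul_comm _ ((f : G → ℚ) (w i)), this]
      | one => exact ⟨0, by rw [hAf.one]; simp⟩
      | mul a b _ _ iha ihb =>
        obtain ⟨z1, h1⟩ := iha
        obtain ⟨z2, h2⟩ := ihb
        refine ⟨z1 + z2, ?_⟩
        push_cast
        rw [h1, h2, f.2.1, mul_add]
      | inv a _ iha =>
        obtain ⟨z1, h1⟩ := iha
        refine ⟨-z1, ?_⟩
        push_cast
        rw [h1, hAf.inv (Subgroup.mem_top a)]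
        ring
    choose g hg using hint
    have hgmem : g ∈ AF ℤ Z := by
      constructor
      · intro x y
        have h2 := hg (x * y)
        rw [f.2.1, mul_add, ← hg, ← hg] at h2
        exact_mod_cast h2
      · intro x hx
        have h2 := hg x
        rw [f.2.2 x hx, mul_zero] at h2
        exact_mod_cast h2
    have hsum : (⟨g, hgmem⟩ : AF ℤ Z) = ∑ i, b.repr ⟨g, hgmem⟩ i • b i :=
      (b.sum_repr ⟨g, hgmem⟩).symm
    have hf : f = ∑ i, ((b.repr ⟨g, hgmem⟩ i : ℚ) / N) • c i := by
      apply Subtype.ext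
      funext x
      have h3 := congrArg (fun z : AF ℤ Z => (z : G → ℤ) x) hsum
      simp only [Submodule.coe_sum, Finset.sum_apply, Submodule.coe_smul, Pi.smul_apply,
        smul_eq_mul] at h3
      have h4 : ((g x : ℤ) : ℚ) = ∑ i, (b.repr ⟨g, hgmem⟩ i : ℚ) * ((b i : G → ℤ) x : ℚ) := by
        rw [h3]; push_cast; rfl
      simp only [Submodule.coe_sum, Finset.sum_apply, Submodule.coe_smul, Pi.smul_apply,
        smul_eq_mul, c]
      have h5 : (f : G → ℚ) x = (g x : ℚ) / N := by
        rw [hg x]; field_simp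
      rw [h5, h4, Finset.sum_div]
      apply Finset.sum_congr rfl
      intro i _
      ring
    rw [hf]
    exact Submodule.sum_mem _ (fun i _ => Submodule.smul_mem _ _
      (Submodule.subset_span (Set.mem_range_self i)))
  have h2 : finrank ℚ (AF ℚ Z) = finrank ℚ (⊤ : Submodule ℚ (AF ℚ Z)) := (finrank_top ℚ _).symm
  have h3 : finrank ℚ (Submodule.span ℚ (Set.range c)) ≤ n := by
    have := finrank_range_le_card (R := ℚ) c
    simpa [Set.finrank] using this
  rw [h2]
  exact (Submodule.finrank_mono hspan).trans h3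

end Pool.Agent.H27.Ind
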