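import Mathlib

set_option autoImplicit false

/-!
# A count with characters of rational representations
-/

namespace Pool.Agent.H27.Ind

open Module

/-- The sum of the traces is the order of the group times the dimension of the invariants. -/
lemma sum_trace {G : Type} [Group G] [Fintype G] {V : Type} [AddCommGroup V]
    [Module ℚ V] [FiniteDimensional ℚ V] (ρ : Representation ℚ G V) :
    ∑ g : G, ρ.character g = (Nat.card G : ℚ) * finrank ℚ ρ.invariants := by
  have h0 : (Nat.card G : ℚ) ≠ 0 := by
    have : 0 < Nat.card G := Nat.card_pos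
    exact_mod_cast this.ne'
  let _ : Invertible (Nat.card G : ℚ) := invertibleOfNonzero h0
  rw [← ρ.card_inv_mul_sum_char_eq_finrank, ← mul_assoc, mul_inv_cancel₀ h0, one_mul]

lemma ker_le {G : Type} [Group G] {V : Type} [AddCommGroup V] [Module ℚ V]
    (ρ : Representation ℚ G V) {s t : G} (h : t ∈ Subgroup.zpowers s) :
    LinearMap.ker (ρ s - 1) ≤ LinearMap.ker (ρ t - 1) := by
  intro v hv
  have hv' : ρ s v = v := by
    simpa [LinearMap.mem_ker, LinearMap.sub_apply, sub_eq_zero] using hv
  have hst : s ∈ ({ carrier := {g | ρ g v = v}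
                    mul_mem' := by
                      intro a b ha hb
                      simp only [Set.mem_ofPred_eq] at ha hb ⊢
                      rw [map_mul, Module.End.mul_apply, hb, ha]
                    one_mem' := by simp
                    inv_mem' := by
                      intro a ha
                      simp only [Set.mem_ofPred_eq] at ha ⊢
                      conv_lhs => rw [← ha]
                      rw [← Module.End.mul_apply, ← map_mul]
                      simp } : Subgroup G) := hv'
  have ht := (Subgroup.zpowers_le.2 hst) h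
  have ht' : ρ t v = v := ht
  simp [LinearMap.mem_ker, LinearMap.sub_apply, ht']

lemma ker_eq {G : Type} [Group G] {V : Type} [AddCommGroup V] [Module ℚ V]
    (ρ : Representation ℚ G V) {s t : G} (h : Subgroup.zpowers s = Subgroup.zpowers t) :
    LinearMap.ker (ρ s - 1) = LinearMap.ker (ρ t - 1) := by
  apply le_antisymm
  · exact ker_le ρ (h ▸ Subgroup.mem_zpowers t)
  · exact ker_le ρ (h ▸ Subgroup.mem_zpowers s)

lemma sum_trace_zpowers {G : Type} [Group G] [Fintype G] [DecidableEq G] {V : Type}
    [AddCommGroup V] [Module ℚ V] [FiniteDimensional ℚ V] (ρ : Representation ℚ G V) (s : G) :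
    ∑ t ∈ Finset.univ.filter (fun t : G => t ∈ Subgroup.zpowers s), ρ.character t =
      (orderOf s : ℚ) * finrank ℚ (LinearMap.ker (ρ s - 1)) := by
  classical
  have h := sum_trace (G := Subgroup.zpowers s) (ρ.comp (Subgroup.zpowers s).subtype)
  rw [Nat.card_zpowers] at h
  have hinv : Representation.invariants (ρ.comp (Subgroup.zpowers s).subtype) =
      LinearMap.ker (ρ s - 1) := by
    ext v
    rw [Representation.mem_invariants]
    constructor
    · intro hv
      have := hv ⟨s, Subgroup.mem_zpowers s⟩
      have h2 : ρ s v = v := this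
      simp [LinearMap.mem_ker, LinearMap.sub_apply, h2]
    · intro hv g
      have := ker_le ρ g.2 hv
      have h2 : ρ (g : G) v = v := by
        simpa [LinearMap.mem_ker, LinearMap.sub_apply, sub_eq_zero] using this
      exact h2
  rw [hinv] at h
  rw [← h]
  rw [Finset.sum_filter]
  rw [← Finset.sum_filter, Finset.sum_subtype (p := fun t => t ∈ Subgroup.zpowers s) _
    (fun x => by simp)]
  rfl

lemma mem_fiber {G : Type} [Group G] (hprime : ∀ s : G, s ≠ 1 → (orderOf s).Prime) {s t : G}
    (hs : s ≠ 1) : (t ≠ 1 ∧ Subgroup.zpowers t = Subgroup.zpowers s) ↔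
      (t ≠ 1 ∧ t ∈ Subgroup.zpowers s) := by
  refine and_congr_right fun ht => ⟨fun h => h ▸ Subgroup.mem_zpowers t, fun h => ?_⟩
  have hp := hprime s hs
  have hle : Subgroup.zpowers t ≤ Subgroup.zpowers s := Subgroup.zpowers_le.2 h
  have hcard : Nat.card (Subgroup.zpowers t) = Nat.card (Subgroup.zpowers s) := by
    rw [Nat.card_zpowers, Nat.card_zpowers]
    have hd : orderOf t ∣ orderOf s := orderOf_dvd_of_mem_zpowers h
    rcases (Nat.dvd_prime hp).1 hd with h1 | h1
    · exact absurd (orderOf_eq_one_iff.1 h1) ht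
    · exact h1
  have hfin : Finite (Subgroup.zpowers s) := by
    apply Nat.finite_of_card_ne_zero
    rw [Nat.card_zpowers]
    exact hp.ne_zero
  exact Subgroup.eq_of_le_of_card_ge hle hcard.ge

theorem char_sum {G : Type} [Group G] [Fintype G] [DecidableEq G] {V : Type} [AddCommGroup V]
    [Module ℚ V] [FiniteDimensional ℚ V] (ρ : Representation ℚ G V)
    (hprime : ∀ s : G, s ≠ 1 → (orderOf s).Prime)
    (hinv : ∀ v : V, (∀ g, ρ g v = v) → v = 0)
    (β : G → ℕ) (hβ : ∀ s t : G, Subgroup.zpowers s = Subgroup.zpowers t → β s = β t)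
    (hβ1 : ∀ s : G, s ≠ 1 → finrank ℚ V + (orderOf s - 1) ≤
      finrank ℚ (LinearMap.ker (ρ s - 1)) + (orderOf s - 1) * β s) :
    ∑ s ∈ Finset.univ.erase (1 : G), finrank ℚ (LinearMap.ker (ρ s - 1)) + finrank ℚ V +
      (Fintype.card G - 1) ≤ ∑ s ∈ Finset.univ.erase (1 : G), β s := by
  classical
  -- the total trace
  have h0 : ∑ g : G, ρ.character g = 0 := by
    rw [sum_trace ρ]
    have : ρ.invariants = ⊥ := by
      rw [Submodule.eq_bot_iff]
      intro v hv
      exact hinv v ((Representation.mem_invariants ρ v).1 hv)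
    rw [this]
    simp
  have h1 : ∑ g ∈ Finset.univ.erase (1 : G), ρ.character g = -(finrank ℚ V : ℚ) := by
    have := Finset.add_sum_erase Finset.univ (fun g => ρ.character g) (Finset.mem_univ (1 : G))
    rw [h0, Representation.char_one] at this
    linarith
  -- the inequality on each fibre
  have key : 0 ≤ ∑ s ∈ Finset.univ.erase (1 : G), ((β s : ℚ) - 1 -
      finrank ℚ (LinearMap.ker (ρ s - 1)) + ρ.character s) := by
    rw [← Finset.sum_fiberwise_of_maps_to (s := Finset.univ.erase (1 : G))
      (t := (Finset.univ.erase (1 : G)).image Subgroup.zpowers) (g := Subgroup.zpowers)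
      (fun x hx => Finset.mem_image_of_mem _ hx)]
    refine Finset.sum_nonneg fun C hC => ?_
    obtain ⟨s, hs, rfl⟩ := Finset.mem_image.1 hC
    have hs1 : s ≠ 1 := (Finset.mem_erase.1 hs).1
    have hp := hprime s hs1
    have hfib : (Finset.univ.erase (1 : G)).filter
        (fun t => Subgroup.zpowers t = Subgroup.zpowers s) =
        (Finset.univ.filter (fun t : G => t ∈ Subgroup.zpowers s)).erase 1 := by
      ext t
      simp only [Finset.mem_filter, Finset.mem_erase, Finset.mem_univ, and_true, true_and]
      exact mem_fiber hprime hs1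
    have hcongr : ∑ t ∈ (Finset.univ.erase (1 : G)).filter
        (fun t => Subgroup.zpowers t = Subgroup.zpowers s), ((β t : ℚ) - 1 -
          finrank ℚ (LinearMap.ker (ρ t - 1)) + ρ.character t) =
        ∑ t ∈ (Finset.univ.erase (1 : G)).filter
        (fun t => Subgroup.zpowers t = Subgroup.zpowers s), (((β s : ℚ) - 1 -
          finrank ℚ (LinearMap.ker (ρ s - 1))) + ρ.character t) := by
      refine Finset.sum_congr rfl fun t ht => ?_
      have ht' := (Finset.mem_filter.1 ht).2
      rw [hβ t s ht', ker_eq ρ ht']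
    rw [hcongr, hfib, Finset.sum_add_distrib, Finset.sum_const, nsmul_eq_mul]
    have hmem : (1 : G) ∈ Finset.univ.filter (fun t : G => t ∈ Subgroup.zpowers s) := by
      simp [one_mem]
    have hcard : (Finset.univ.filter (fun t : G => t ∈ Subgroup.zpowers s)).card = orderOf s := by
      rw [← Nat.card_zpowers, ← Fintype.card_eq_nat_card, Fintype.card_subtype]
    have hcard2 : ((((Finset.univ.filter (fun t : G => t ∈ Subgroup.zpowers s)).erase 1).card : ℕ)
        : ℚ) = (orderOf s : ℚ) - 1 := by
      rw [Finset.card_erase_of_mem hmem, hcard, Nat.cast_sub hp.one_le, Nat.cast_one]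
    have htr : ∑ t ∈ (Finset.univ.filter (fun t : G => t ∈ Subgroup.zpowers s)).erase 1,
        ρ.character t = (orderOf s : ℚ) * finrank ℚ (LinearMap.ker (ρ s - 1)) - finrank ℚ V := by
      have := Finset.add_sum_erase _ (fun g => ρ.character g) hmem
      rw [sum_trace_zpowers, Representation.char_one] at this
      linarith
    rw [hcard2, htr]
    have hb := hβ1 s hs1
    have hb' : (finrank ℚ V : ℚ) + ((orderOf s : ℚ) - 1) ≤
        finrank ℚ (LinearMap.ker (ρ s - 1)) + ((orderOf s : ℚ) - 1) * β s := by
      have h2 : ((orderOf s - 1 : ℕ) : ℚ) = (orderOf s : ℚ) - 1 := by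
        rw [Nat.cast_sub hp.one_le, Nat.cast_one]
      rw [← h2]
      exact_mod_cast hb
    nlinarith [hb']
  rw [Finset.sum_add_distrib, Finset.sum_sub_distrib, Finset.sum_sub_distrib, h1,
    Finset.sum_const, nsmul_eq_mul, mul_one] at key
  have hc : ((Finset.univ.erase (1 : G)).card) = Fintype.card G - 1 := by
    rw [Finset.card_erase_of_mem (Finset.mem_univ _), Finset.card_univ]
  rw [hc] at key
  have : ((∑ s ∈ Finset.univ.erase (1 : G), finrank ℚ (LinearMap.ker (ρ s - 1)) + finrank ℚ V +
      (Fintype.card G - 1) : ℕ) : ℚ) ≤ ((∑ s ∈ Finset.univ.erase (1 : G), β s : ℕ) : ℚ) := by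
    push_cast
    linarith
  exact_mod_cast this

end Pool.Agent.H27.Ind
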