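import Pool.Agent.H27.Ind.Defs

set_option autoImplicit false

/-!
# Quotients of free groups by the terms of a derived series
-/

namespace Pool.Agent.H27.Ind

open Pool.Agent.H83.Ord
open scoped commutatorElement

/-- The abelianization of a free group is torsion-free. -/
lemma abelianization_torsionFree {W : Type} [Group W] [IsFreeGroup W] (b : Abelianization W)
    (n : ℕ) (hn : 1 ≤ n) (hb : b ^ n = 1) : b = 1 := by
  let e : Abelianization W ≃* Abelianization (FreeGroup (IsFreeGroup.Generators W)) :=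
    (IsFreeGroup.toFreeGroup W).abelianizationCongr
  let e' : FreeAbelianGroup (IsFreeGroup.Generators W) ≃+ (IsFreeGroup.Generators W →₀ ℤ) :=
    FreeAbelianGroup.equivFinsupp _
  have h1 : (e b) ^ n = 1 := by rw [← map_pow, hb, map_one]
  obtain ⟨c, hc⟩ : ∃ c : FreeAbelianGroup (IsFreeGroup.Generators W), c = Additive.ofMul (e b) :=
    ⟨_, rfl⟩
  have h2 : n • c = 0 := by
    rw [hc]
    exact h1
  have h3 : n • e' c = 0 := by
    rw [← map_nsmul, h2, map_zero]
  have h4 : e' c = 0 := by
    rcases smul_eq_zero.1 h3 with h | h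
    · omega
    · exact h
  have h5 : c = 0 := e'.injective (h4.trans (map_zero e').symm)
  have h6 : e b = 1 := by
    rw [hc] at h5
    exact h5
  exact e.injective (h6.trans (map_one e).symm)

/-- The commutator subgroup of a subgroup of a free group is isolated in it. -/
lemma mem_commutator_of_pow {F : Type} [Group F] [IsFreeGroup F] (W : Subgroup F) {g : F}
    (hg : g ∈ W) {n : ℕ} (hn : 1 ≤ n) (h : g ^ n ∈ ⁅W, W⁆) : g ∈ ⁅W, W⁆ := by
  rw [← Subgroup.map_subtype_commutator] at h ⊢
  obtain ⟨x, hx, hx'⟩ := h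
  have hx2 : x = (⟨g, hg⟩ : W) ^ n := by
    apply Subtype.ext
    rw [Subgroup.coe_pow]
    exact hx'
  have h1 : (Abelianization.of (⟨g, hg⟩ : W)) ^ n = 1 := by
    rw [← map_pow, ← hx2]
    exact (QuotientGroup.eq_one_iff x).2 hx
  have h2 := abelianization_torsionFree _ n hn h1
  exact ⟨⟨g, hg⟩, (QuotientGroup.eq_one_iff _).1 h2, rfl⟩

theorem quot_torsionFree {F : Type} [Group F] [IsFreeGroup F] (R : Subgroup F) [R.Normal] (k : ℕ) :
    TorsionFree (F ⧸ Dser R (k + 1)) := by
  intro x n hn hx
  induction x using QuotientGroup.induction_on with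
  | H g =>
    rw [← QuotientGroup.mk_pow, QuotientGroup.eq_one_iff] at hx
    rw [QuotientGroup.eq_one_iff]
    rw [Dser_succ] at hx ⊢
    have hT : (Dser R k).Normal := inferInstance
    generalize Dser R k = T at *
    -- `g` is in `T`
    have hgT : g ∈ T := by
      have h1 : ⁅Subgroup.zpowers g ⊔ T, Subgroup.zpowers g ⊔ T⁆ ≤ T := by
        rw [Subgroup.commutator_le]
        have key : ∀ a ∈ Subgroup.zpowers g ⊔ T,
            ∃ m : ℤ, QuotientGroup.mk' T a = (QuotientGroup.mk' T g) ^ m := by
          intro a ha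
          obtain ⟨y, hy, z, hz, rfl⟩ := Subgroup.mem_sup_of_normal_right.1 ha
          obtain ⟨m, rfl⟩ := Subgroup.mem_zpowers_iff.1 hy
          refine ⟨m, ?_⟩
          rw [map_mul, map_zpow]
          have : QuotientGroup.mk' T z = 1 := (QuotientGroup.eq_one_iff z).2 hz
          rw [this, mul_one]
        intro a ha b hb
        obtain ⟨m, hm⟩ := key a ha
        obtain ⟨l, hl⟩ := key b hb
        rw [← QuotientGroup.eq_one_iff]
        show QuotientGroup.mk' T ⁅a, b⁆ = 1
        rw [map_commutatorElement, hm, hl, commutatorElement_eq_one_iff_mul_comm]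
        exact (Commute.refl _).zpow_zpow m l
      exact h1 (mem_commutator_of_pow _ (Subgroup.mem_sup_left (Subgroup.mem_zpowers g)) hn
        (Subgroup.commutator_mono le_sup_right le_sup_right hx))
    exact mem_commutator_of_pow T hgT hn hx

/-- Subgroups without homomorphisms onto the integers. -/
lemma le_commutator_of_noZ {F : Type} [Group F] [IsFreeGroup F] (N : Subgroup F) [N.Normal]
    (V W : Subgroup F) (hV : V.FG) (hVW : V ≤ W) (hNW : N ≤ ⁅W, W⁆)
    (hZ : NoZ (V.map (QuotientGroup.mk' N))) : V ≤ ⁅W, W⁆ := by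
  let f : V →* V.map (QuotientGroup.mk' N) := (QuotientGroup.mk' N).subgroupMap V
  have hf : Function.Surjective f := (QuotientGroup.mk' N).subgroupMap_surjective V
  let g : V →* Abelianization W := Abelianization.of.comp (Subgroup.inclusion hVW)
  have hmem : ∀ v : W, Abelianization.of v = 1 ↔ (v : F) ∈ ⁅W, W⁆ := by
    intro v
    rw [← Subgroup.map_subtype_commutator]
    constructor
    · intro h
      exact ⟨v, (QuotientGroup.eq_one_iff _).1 h, rfl⟩
    · rintro ⟨w, hw, hw'⟩
      have : w = v := Subtype.ext hw'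
      subst this
      exact (QuotientGroup.eq_one_iff _).2 hw
  have hker : f.ker ≤ g.ker := by
    intro v hv
    have h1 : QuotientGroup.mk' N (v : F) = 1 := congrArg Subtype.val hv
    have h2 : (v : F) ∈ N := (QuotientGroup.eq_one_iff _).1 h1
    exact (hmem _).2 (hNW h2)
  have hfg : Group.FG (V.map (QuotientGroup.mk' N)) := by
    have : Group.FG V := (Group.fg_iff_subgroup_fg V).2 hV
    exact Group.fg_of_surjective hf
  intro v hv
  have h1 := NoZ.hom_eq_one hfg hZ (B := Abelianization W)
    (fun b n hn hb => abelianization_torsionFree b n hn hb)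
    (f.liftOfSurjective hf ⟨g, hker⟩) (f ⟨v, hv⟩)
  have h2 : (f.liftOfSurjective hf ⟨g, hker⟩) (f ⟨v, hv⟩) = g ⟨v, hv⟩ :=
    MonoidHom.liftOfRightInverse_comp_apply f _ _ ⟨g, hker⟩ ⟨v, hv⟩
  rw [h2] at h1
  exact (hmem _).1 h1

theorem map_eq_top {F S : Type} [Group F] [IsFreeGroup F] [Group S] (hS : Good S) (q : F →* S)
    (hq : Function.Surjective q) (k : ℕ) (V : Subgroup F) (hV : V.FG)
    (hN : NoZ (V.map (QuotientGroup.mk' (Dser q.ker (k + 1)))))
    (hne : ¬ V ≤ Dser q.ker (k + 1)) : V.map q = ⊤ := by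
  have hT : (Dser q.ker k).Normal := inferInstance
  -- a subgroup of the last term but one
  have hcase : ¬ V ≤ Dser q.ker k := by
    intro h
    exact hne (le_commutator_of_noZ (Dser q.ker (k + 1)) V (Dser q.ker k) hV h le_rfl hN)
  -- perfect modulo `T`
  have hperf : V ≤ ⁅V, V⁆ ⊔ Dser q.ker k := by
    have h1 : V ≤ ⁅V ⊔ Dser q.ker k, V ⊔ Dser q.ker k⁆ :=
      le_commutator_of_noZ (Dser q.ker (k + 1)) V (V ⊔ Dser q.ker k) hV le_sup_left
        (by rw [Dser_succ]; exact Subgroup.commutator_mono le_sup_right le_sup_right) hN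
    refine h1.trans ?_
    have h2 : (⁅V ⊔ Dser q.ker k, V ⊔ Dser q.ker k⁆).map (QuotientGroup.mk' (Dser q.ker k)) =
        (⁅V, V⁆).map (QuotientGroup.mk' (Dser q.ker k)) := by
      rw [Subgroup.map_commutator, Subgroup.map_commutator, Subgroup.map_sup]
      have h3 : (Dser q.ker k).map (QuotientGroup.mk' (Dser q.ker k)) = ⊥ := by
        rw [Subgroup.map_eq_bot_iff, QuotientGroup.ker_mk']
      rw [h3, sup_bot_eq]
    have h4 := Subgroup.le_comap_map (QuotientGroup.mk' (Dser q.ker k))
      ⁅V ⊔ Dser q.ker k, V ⊔ Dser q.ker k⁆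
    rw [h2, Subgroup.comap_map_eq, QuotientGroup.ker_mk'] at h4
    exact h4
  have hD : V.map q ≤ ⁅V.map q, V.map q⁆ := by
    have h1 := Subgroup.map_mono (f := q) hperf
    have h2 : (Dser q.ker k).map q = ⊥ := by
      rw [Subgroup.map_eq_bot_iff]
      exact Dser_le _ k
    rwa [Subgroup.map_sup, h2, sup_bot_eq, Subgroup.map_commutator] at h1
  rcases hS.sub _ hD with h | h
  · exfalso
    have h0 : V ≤ q.ker := (Subgroup.map_eq_bot_iff _).1 h
    have hind : ∀ j, j ≤ k → V ≤ Dser q.ker j := by
      intro j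
      induction j with
      | zero => intro _; exact h0
      | succ j ih =>
        intro hj
        have h1 := ih (by omega)
        refine hperf.trans (sup_le ?_ (Dser_anti _ hj))
        rw [Dser_succ]
        exact Subgroup.commutator_mono h1 h1
    exact hcase (hind k le_rfl)
  · exact h

end Pool.Agent.H27.Ind
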