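import Pool.Agent.H27.Ind.Act
import Pool.Agent.H27.Ind.CharSum
import Pool.Agent.H27.Ind.Quot
import Pool.Agent.H27.Ord.Transfer

set_option autoImplicit false

/-!
# The key theorem
-/

namespace Pool.Agent.H27.Ind

open Module Pool.Agent.H83.Ord Pool.Agent.H27.Ord

section

variable {F S : Type} [Group F] [Group S] (q : F →* S) (H : Subgroup F)

lemma normX : H ≤ Subgroup.normalizer ((H ⊓ q.ker : Subgroup F) : Set F) := by
  intro h hh
  rw [Subgroup.mem_normalizer_iff]
  intro x
  have h1 : x ∈ H ↔ h * x * h⁻¹ ∈ H :=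
    Subgroup.mem_normalizer_iff.1 (normalizer_self_le H hh) x
  have h2 : x ∈ q.ker ↔ h * x * h⁻¹ ∈ q.ker := by
    rw [MonoidHom.mem_ker, MonoidHom.mem_ker, map_mul, map_mul, map_inv]
    constructor
    · intro h3
      rw [h3, mul_one, mul_inv_cancel]
    · intro h3
      have h4 : q x = (q h)⁻¹ * (q h * q x * (q h)⁻¹) * q h := by group
      rw [h4, h3]
      group
  rw [Subgroup.mem_inf, Subgroup.mem_inf, h1, h2]

lemma normT (g : ℕ) :
    H ≤ Subgroup.normalizer ((H ⊓ q.ker ⊔ Dser q.ker g : Subgroup F) : Set F) := by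
  intro h hh
  have h1 := normX q H hh
  have h2 : h ∈ Subgroup.normalizer ((Dser q.ker g : Subgroup F) : Set F) := by
    rw [Subgroup.normalizer_eq_top]
    exact Subgroup.mem_top h
  rw [Subgroup.mem_normalizer_iff_map_conj_eq] at h1 h2 ⊢
  have h3 : (H ⊓ q.ker).map (MulAut.conj h).toMonoidHom = H ⊓ q.ker := h1
  have h4 : (Dser q.ker g).map (MulAut.conj h).toMonoidHom = Dser q.ker g := h2
  have h5 : (H ⊓ q.ker ⊔ Dser q.ker g).map (MulAut.conj h).toMonoidHom =
      H ⊓ q.ker ⊔ Dser q.ker g := by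
    rw [Subgroup.map_sup, h3, h4]
  exact h5

/-- Invariant functions vanish. -/
lemma inv_zero [Finite S] (hFG : H.FG) (k g : ℕ) (hg : g < k)
    (hN : NoZ (H.map (QuotientGroup.mk' (Dser q.ker k))))
    (v : (H ⊓ q.ker : Subgroup F) → ℚ)
    (hv : v ∈ Res ℚ (H ⊓ q.ker) (H ⊓ q.ker ⊔ Dser q.ker g))
    (hinv : ∀ h ∈ H, ∀ x x' : (H ⊓ q.ker : Subgroup F), (x' : F) = h⁻¹ * x * h → v x' = v x) :
    v = 0 := by
  classical
  obtain ⟨a, ha, hva⟩ := hv
  let M : Subgroup H := (q.comp H.subtype).ker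
  have hM : ∀ m : M, ((m : H) : F) ∈ H ⊓ q.ker := fun m => ⟨(m : H).2, m.2⟩
  let φ : M →* Multiplicative ℚ :=
    { toFun := fun m => Multiplicative.ofAdd (v ⟨((m : H) : F), hM m⟩)
      map_one' := by
        rw [hva]
        exact congrArg Multiplicative.ofAdd ha.one
      map_mul' := fun m m' => by
        rw [hva, hva, hva]
        exact congrArg Multiplicative.ofAdd
          (ha _ (Subgroup.mem_sup_left (hM m)) _ (Subgroup.mem_sup_left (hM m'))) }
  have htr : ∀ m : M, φ.transfer (m : H) = φ m ^ M.index := by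
    intro m
    apply transfer_eq_pow M φ m
    intro z
    exact congrArg Multiplicative.ofAdd (hinv z z.2 ⟨((m : H) : F), hM m⟩ _ rfl)
  let p : H →* H.map (QuotientGroup.mk' (Dser q.ker k)) :=
    (QuotientGroup.mk' (Dser q.ker k)).subgroupMap H
  have hp : Function.Surjective p := MonoidHom.subgroupMap_surjective _ _
  obtain ⟨τ, hτ⟩ := exists_descend p hp φ.transfer (by
    intro z hz
    have h1 : (z : F) ∈ Dser q.ker k := by
      have h2 := congrArg Subtype.val hz
      exact (QuotientGroup.eq_one_iff _).1 h2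
    have h3 : z ∈ M := Dser_le q.ker k h1
    have h4 := htr ⟨z, h3⟩
    have h5 : φ ⟨z, h3⟩ = 1 := by
      show Multiplicative.ofAdd (v ⟨(z : F), hM ⟨z, h3⟩⟩) = 1
      rw [hva]
      have h6 : (z : F) ∈ (⁅H ⊓ q.ker ⊔ Dser q.ker g, H ⊓ q.ker ⊔ Dser q.ker g⁆ : Subgroup F) := by
        have h7 : Dser q.ker k ≤ Dser q.ker (g + 1) := Dser_anti q.ker hg
        exact Subgroup.commutator_mono le_sup_right le_sup_right (h7 h1)
      exact congrArg Multiplicative.ofAdd (ha.commutator h6)
    rw [h5, one_pow] at h4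
    exact h4)
  have hfg : Group.FG (H.map (QuotientGroup.mk' (Dser q.ker k))) := by
    have : Group.FG H := (Group.fg_iff_subgroup_fg H).2 hFG
    exact Group.fg_of_surjective hp
  have h0 : ∀ z : H, φ.transfer z = 1 := by
    intro z
    rw [← hτ z]
    refine NoZ.hom_eq_one hfg hN (B := Multiplicative ℚ) ?_ τ (p z)
    intro b n hn hb
    have h1 : n • (Multiplicative.toAdd b) = 0 := congrArg Multiplicative.toAdd hb
    have h2 : Multiplicative.toAdd b = 0 := by
      rcases smul_eq_zero.1 h1 with h | h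
      · omega
      · exact h
    exact h2
  funext x
  have h1 := htr ⟨⟨(x : F), x.2.1⟩, x.2.2⟩
  rw [h0] at h1
  have h2 : M.index • v x = 0 := (congrArg Multiplicative.toAdd h1).symm
  have h3 : M.index ≠ 0 := Subgroup.FiniteIndex.index_ne_zero
  rcases smul_eq_zero.1 h2 with h | h
  · exact absurd h h3
  · exact h

lemma Res_le (g : ℕ) {h : F} :
    Res ℚ (H ⊓ q.ker) (H ⊓ q.ker ⊔ Subgroup.zpowers h ⊔
      ⁅H ⊓ q.ker ⊔ Dser q.ker g, H ⊓ q.ker ⊔ Dser q.ker g⁆) ≤
    (Res ℚ (H ⊓ q.ker) (H ⊓ q.ker ⊔ Dser q.ker (g + 1)) ⊓ Inv ℚ (H ⊓ q.ker) h :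
      Submodule ℚ ((H ⊓ q.ker : Subgroup F) → ℚ)) := by
  refine le_inf (Res_anti ?_) ?_
  · refine sup_le (le_sup_left.trans le_sup_left) (le_trans ?_ le_sup_right)
    rw [Dser_succ]
    exact Subgroup.commutator_mono le_sup_right le_sup_right
  · rintro f ⟨a, ha, hf⟩ x x' hx
    have h1 : h ∈ H ⊓ q.ker ⊔ Subgroup.zpowers h ⊔
      ⁅H ⊓ q.ker ⊔ Dser q.ker g, H ⊓ q.ker ⊔ Dser q.ker g⁆ :=
      (le_sup_right.trans le_sup_left : Subgroup.zpowers h ≤ _) (Subgroup.mem_zpowers h)
    rw [hf, hf, hx]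
    exact ha.conj ((le_sup_left.trans le_sup_left : H ⊓ q.ker ≤ _) x.2) h1

/-- The count. -/
lemma count [IsFreeGroup F] (hS : Good S) (hFG : H.FG) (htop : H.map q = ⊤) (k : ℕ)
    (hN : NoZ (H.map (QuotientGroup.mk' (Dser q.ker k)))) {n : ℕ}
    (w : Fin n → (H ⊓ q.ker : Subgroup F)) (hw : Subgroup.closure (Set.range w) = ⊤) :
    k ≤ n := by
  classical
  have := hS.fin
  have := hS.nontriv
  have : Fintype S := Fintype.ofFinite S
  let T : ℕ → Subgroup F := fun g => H ⊓ q.ker ⊔ Dser q.ker g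
  have hXT : ∀ g, H ⊓ q.ker ≤ T g := fun g => le_sup_left
  have hTR : ∀ g, T g ≤ q.ker := fun g => sup_le inf_le_right (Dser_le _ _)
  have hsurj : Function.Surjective (q.comp H.subtype) := by
    intro s
    have h1 : s ∈ H.map q := by rw [htop]; exact Subgroup.mem_top s
    obtain ⟨h, hh, rfl⟩ := h1
    exact ⟨⟨h, hh⟩, rfl⟩
  have hrep : ∀ g, ∃ ρ : S →* Module.End ℚ (Res ℚ (H ⊓ q.ker) (T g)), ∀ h : H,
      ρ (q h) = act (normX q H) (normT q H g) h := by
    intro g
    obtain ⟨ρ, hρ⟩ := exists_descend (q.comp H.subtype) hsurj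
      (act (normX q H) (normT q H g) : H →* Module.End ℚ (Res ℚ (H ⊓ q.ker) (T g))) (by
        intro h hh
        apply act_eq_one _ _ (hXT g)
        exact hXT g ⟨h.2, hh⟩)
    exact ⟨ρ, hρ⟩
  choose ρ hρ using hrep
  have hfd : ∀ g, FiniteDimensional ℚ (Res ℚ (H ⊓ q.ker) (T g)) := fun g =>
    finite_of_le_AF w hw _ (Res_le_AF (hXT g))
  let α : ℕ → S → ℕ := fun g s => finrank ℚ (LinearMap.ker (ρ g s - 1))
  have hα : ∀ g s, α g s ≤ n := by
    intro g s
    calc α g s ≤ finrank ℚ (Res ℚ (H ⊓ q.ker) (T g)) := Submodule.finrank_le _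
      _ ≤ n := finrank_le_of_le_AF w hw _ (Res_le_AF (hXT g))
  let Φ : ℕ → ℕ := fun g => ∑ s ∈ Finset.univ.erase (1 : S), α g s
  have hstep : ∀ g, g < k → Φ g + (Fintype.card S - 1) ≤ Φ (g + 1) := by
    intro g hg
    have h1 := char_sum (G := S) (V := Res ℚ (H ⊓ q.ker) (T g)) (ρ g) hS.prime
      (by
        intro v hv
        apply Subtype.ext
        apply inv_zero q H hFG k g hg hN _ v.2
        intro h hh x x' hx
        have h2 := hv (q h)
        have h3 := hρ g ⟨h, hh⟩
        have h4 : act (normX q H) (normT q H g) ⟨h, hh⟩ v = v := by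
          rw [← h3]
          exact h2
        have h5 := congrArg (fun z : Res ℚ (H ⊓ q.ker) (T g) =>
          (z : (H ⊓ q.ker : Subgroup F) → ℚ) x) h4
        simp only [act_apply] at h5
        rw [← h5]
        refine congrArg (v : (H ⊓ q.ker : Subgroup F) → ℚ) (Subtype.ext ?_)
        rw [hx, coe_cj, inv_inv])
      (α (g + 1))
      (fun s t hst => finrank_ker_of_zpowers (ρ (g + 1)) s t hst)
      (by
        intro s hs
        obtain ⟨h, rfl⟩ := hsurj s
        have h2 := lemX (X := H ⊓ q.ker) (U := T g) (h := (h : F)) (hXT g) (normX q H h.2)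
          (normT q H g h.2) (hS.prime _ hs)
          (by
            refine ⟨H.pow_mem h.2 _, ?_⟩
            show q ((h : F) ^ orderOf (q (h : F))) = 1
            rw [map_pow, pow_orderOf_eq_one])
          (by
            intro i hi
            have h3 : q ((h : F) ^ i) = 1 := hTR g hi
            rw [map_zpow] at h3
            exact orderOf_dvd_iff_zpow_eq_one.2 h3) w hw
        have h3 := finrank_inv_le (normX q H) (normT q H g) (hXT g) h w hw
        have h4 := finrank_inv_le (normX q H) (normT q H (g + 1)) (hXT (g + 1)) h w hw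
        have h5 : finrank ℚ (Res ℚ (H ⊓ q.ker) (H ⊓ q.ker ⊔ Subgroup.zpowers (h : F) ⊔
            ⁅T g, T g⁆)) ≤ finrank ℚ ((Res ℚ (H ⊓ q.ker) (T (g + 1)) ⊓
            Inv ℚ (H ⊓ q.ker) (h : F) : Submodule ℚ ((H ⊓ q.ker : Subgroup F) → ℚ))) := by
          have := finite_of_le_AF w hw (Res ℚ (H ⊓ q.ker) (T (g + 1)) ⊓
            Inv ℚ (H ⊓ q.ker) (h : F) : Submodule ℚ ((H ⊓ q.ker : Subgroup F) → ℚ))
            (inf_le_left.trans (Res_le_AF (hXT (g + 1))))
          exact Submodule.finrank_mono (Res_le q H g)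
        have h6 : finrank ℚ (LinearMap.ker (act (normX q H) (normT q H g) h - 1)) =
            finrank ℚ (LinearMap.ker (ρ g (q h) - 1)) := by rw [hρ g h]
        have h7 : finrank ℚ (LinearMap.ker (act (normX q H) (normT q H (g + 1)) h - 1)) =
            α (g + 1) (q h) := by
          show _ = finrank ℚ (LinearMap.ker (ρ (g + 1) (q h) - 1))
          rw [hρ (g + 1) h]
        have h8 := Nat.mul_le_mul_left (orderOf (q (h : F)) - 1) (h5.trans (h4.trans h7.le))
        calc _ ≤ _ := h2
          _ ≤ finrank ℚ (LinearMap.ker (ρ g (q h) - 1)) +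
              (orderOf (q (h : F)) - 1) * α (g + 1) (q h) :=
            add_le_add (h3.trans h6.le) h8)
    have h2 : Φ g + finrank ℚ (Res ℚ (H ⊓ q.ker) (T g)) + (Fintype.card S - 1) ≤ Φ (g + 1) := h1
    omega
  have hsum : ∀ g, g ≤ k → g * (Fintype.card S - 1) ≤ Φ g := by
    intro g
    induction g with
    | zero => intro _; simp
    | succ g ih =>
      intro hg
      have h1 := ih (by omega)
      have h2 := hstep g (by omega)
      rw [add_mul, one_mul]
      omega
  have hup : Φ k ≤ n * (Fintype.card S - 1) := by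
    have h1 : Φ k ≤ ∑ s ∈ Finset.univ.erase (1 : S), n := Finset.sum_le_sum (fun s _ => hα k s)
    rw [Finset.sum_const, Finset.card_erase_of_mem (Finset.mem_univ _), Finset.card_univ,
      smul_eq_mul, mul_comm] at h1
    exact h1
  have h1 := (hsum k le_rfl).trans hup
  have h2 : 0 < Fintype.card S - 1 := by
    have := Fintype.one_lt_card (α := S)
    omega
  exact Nat.le_of_mul_le_mul_right h1 h2

/-- The number of generators of the subgroup of finite index. -/
lemma exists_gen [Finite S] {r : ℕ} (w : Fin r → F) (hH : H = Subgroup.closure (Set.range w)) :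
    ∃ (n : ℕ) (v : Fin n → (H ⊓ q.ker : Subgroup F)), n ≤ Nat.card S * r ∧
      Subgroup.closure (Set.range v) = ⊤ := by
  classical
  have hFG : H.FG := ⟨(Set.finite_range w).toFinset, by simp [hH]⟩
  have hG : Group.FG H := (Group.fg_iff_subgroup_fg H).2 hFG
  have hrank : Group.rank H ≤ r := by
    have h1 : ∃ T : Finset H, T.card ≤ r ∧ Subgroup.closure (T : Set H) = ⊤ := by
      have hmem : ∀ i, w i ∈ H := fun i => by
        rw [hH]; exact Subgroup.subset_closure ⟨i, rfl⟩
      refine ⟨Finset.univ.image (fun i : Fin r => (⟨w i, hmem i⟩ : H)), ?_, ?_⟩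
      · exact Finset.card_image_le.trans (by simp)
      · apply Subgroup.map_injective H.subtype_injective
        rw [MonoidHom.map_closure, ← MonoidHom.range_eq_map, Subgroup.range_subtype]
        conv_rhs => rw [hH]
        congr 1
        ext x
        simp only [Finset.coe_image, Finset.coe_univ, Set.image_univ, Set.mem_image,
          Set.mem_range, exists_exists_eq_and, Subgroup.coe_subtype]
    obtain ⟨T, hT, hT'⟩ := h1
    exact (Group.rank_le hT').trans hT
  let M : Subgroup H := (q.comp H.subtype).ker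
  have hidx : M.index ≤ Nat.card S := by
    rw [Subgroup.index_ker]
    exact Nat.card_le_card_of_injective _ Subtype.val_injective
  have hMfg : Group.FG M := inferInstance
  have h2 : Group.rank M ≤ M.index * Group.rank H := Subgroup.rank_le_index_mul_rank M
  obtain ⟨T, hT, hT'⟩ := Group.rank_spec M
  have hle : T.card ≤ Nat.card S * r := by
    rw [hT]
    exact h2.trans (Nat.mul_le_mul hidx hrank)
  let f : M →* (H ⊓ q.ker : Subgroup F) :=
    { toFun := fun m => ⟨((m : H) : F), (m : H).2, m.2⟩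
      map_one' := rfl
      map_mul' := fun _ _ => rfl }
  have hf : Function.Surjective f := by
    intro x
    exact ⟨⟨⟨(x : F), x.2.1⟩, x.2.2⟩, rfl⟩
  let e := T.equivFin.symm
  refine ⟨T.card, fun i => f (e i : M), hle, ?_⟩
  have h3 : Set.range (fun i => f (e i : M)) = f '' (T : Set M) := by
    ext x
    constructor
    · rintro ⟨i, rfl⟩
      exact ⟨_, (e i).2, rfl⟩
    · rintro ⟨y, hy, rfl⟩
      exact ⟨e.symm ⟨y, hy⟩, by simp⟩
  rw [h3, ← MonoidHom.map_closure, hT', ← MonoidHom.range_eq_map]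
  exact MonoidHom.range_eq_top.2 hf

end

/-- The key theorem: subgroups generated by few elements and without homomorphisms onto `ℤ` are
trivial far down the derived series. -/
theorem key {F S : Type} [Group F] [IsFreeGroup F] [Group S] (hS : Good S) (q : F →* S)
    (hq : Function.Surjective q) (r : ℕ) : ∃ k₀ : ℕ, ∀ k, k₀ ≤ k → ∀ w : Fin r → F,
      NoZ ((Subgroup.closure (Set.range w)).map (QuotientGroup.mk' (Dser q.ker k))) →
      ∀ i, w i ∈ Dser q.ker k := by
  have := hS.fin
  refine ⟨Nat.card S * r + 1, fun k hk w hN => ?_⟩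
  by_contra hne
  have hne' : ¬ Subgroup.closure (Set.range w) ≤ Dser q.ker k := by
    intro h
    exact hne fun i => h (Subgroup.subset_closure ⟨i, rfl⟩)
  have hFG : (Subgroup.closure (Set.range w)).FG := ⟨(Set.finite_range w).toFinset, by simp⟩
  obtain ⟨k', rfl⟩ : ∃ k', k = k' + 1 := ⟨k - 1, by omega⟩
  have htop := map_eq_top hS q hq k' _ hFG hN hne'
  obtain ⟨n, v, hn, hv⟩ := exists_gen q (Subgroup.closure (Set.range w)) w rfl
  have := count q (Subgroup.closure (Set.range w)) hS hFG htop (k' + 1) hN v hv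
  omega

end Pool.Agent.H27.Ind
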