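import Pool.Agent.H83.Ord.Main

set_option autoImplicit false

/-!
# Definitions for the independent basis
-/

namespace Pool.Agent.H27.Ind

open Pool.Agent.H83.Ord

/-- The derived series of a subgroup, formed in the ambient group. -/
def Dser {F : Type*} [Group F] (R : Subgroup F) : ℕ → Subgroup F
  | 0 => R
  | k + 1 => ⁅Dser R k, Dser R k⁆

lemma Dser_zero {F : Type*} [Group F] (R : Subgroup F) : Dser R 0 = R := rfl

lemma Dser_succ {F : Type*} [Group F] (R : Subgroup F) (k : ℕ) :
    Dser R (k + 1) = ⁅Dser R k, Dser R k⁆ := rfl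

instance Dser_normal {F : Type*} [Group F] (R : Subgroup F) [hR : R.Normal] (k : ℕ) :
    (Dser R k).Normal := by
  induction k with
  | zero => exact hR
  | succ k ih => exact Subgroup.commutator_normal _ _

lemma Dser_succ_le {F : Type*} [Group F] (R : Subgroup F) [R.Normal] (k : ℕ) :
    Dser R (k + 1) ≤ Dser R k := Subgroup.commutator_le_left _ _

lemma Dser_anti {F : Type*} [Group F] (R : Subgroup F) [R.Normal] {k l : ℕ} (h : k ≤ l) :
    Dser R l ≤ Dser R k := by
  induction l, h using Nat.le_induction with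
  | base => exact le_rfl
  | succ n _ ih => exact (Dser_succ_le R n).trans ih

lemma Dser_le {F : Type*} [Group F] (R : Subgroup F) [R.Normal] (k : ℕ) : Dser R k ≤ R :=
  Dser_anti R (Nat.zero_le k)

lemma map_Dser_le {F G : Type*} [Group F] [Group G] (f : F →* G) (R : Subgroup F) (k : ℕ) :
    (Dser R k).map f = Dser (R.map f) k := by
  induction k with
  | zero => rfl
  | succ k ih => rw [Dser_succ, Dser_succ, Subgroup.map_commutator, ih]

lemma Dser_mono {F : Type*} [Group F] {R R' : Subgroup F} (h : R ≤ R') (k : ℕ) :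
    Dser R k ≤ Dser R' k := by
  induction k with
  | zero => exact h
  | succ k ih => exact Subgroup.commutator_mono ih ih

/-- The finite simple group used for the construction: it is simple and perfect, its elements have
prime order and its perfect subgroups are trivial. -/
structure Good (S : Type) [Group S] : Prop where
  fin : Finite S
  nontriv : Nontrivial S
  simple : ∀ N : Subgroup S, N.Normal → N = ⊥ ∨ N = ⊤
  perfect : ⁅(⊤ : Subgroup S), (⊤ : Subgroup S)⁆ = ⊤
  prime : ∀ s : S, s ≠ 1 → (orderOf s).Prime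
  sub : ∀ D : Subgroup S, D ≤ ⁅D, D⁆ → D = ⊥ ∨ D = ⊤

/-- Every group outside `K` has a finitely presented witness without homomorphisms onto `ℤ`. -/
def Star (K : GroupClass) : Prop :=
  ∀ (G : Type) [Group G], ¬ K G →
    ∃ (s r : ℕ) (g : Fin s → G) (u : Fin r → FreeGroup (Fin s)) (E : Finset (FreeGroup (Fin s))),
      (∀ e ∈ E, FreeGroup.lift g e = 1) ∧
      (∀ (X : Type) [Group X] (f : FreeGroup (Fin s) →* X), (∀ e ∈ E, f e = 1) →
        NoZ (Subgroup.closure (Set.range fun i => f (u i)))) ∧
      (∀ (X : Type) [Group X] (f : FreeGroup (Fin s) →* X), K X → (∀ e ∈ E, f e = 1) →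
        ∀ i, f (u i) = 1) ∧
      ∃ i, FreeGroup.lift g (u i) ≠ 1

/-- Finitely many relators from the derived series of `R` kill a subgroup which is perfect modulo
this term, in the groups of `K`. -/
def Kills (K : GroupClass) {F : Type*} [Group F] (R : Subgroup F) : Prop :=
  ∀ (k : ℕ) (V : Subgroup F), V.FG → V ≤ ⁅V, V⁆ ⊔ Dser R k →
    ∃ E : Finset F, (∀ e ∈ E, e ∈ Dser R k) ∧
      ∀ (X : Type) [Group X] (f : F →* X), K X → (∀ e ∈ E, f e = 1) → ∀ v ∈ V, f v = 1

end Pool.Agent.H27.Ind
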