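import Pool.Agent.H27.Ind.Perfect
import Pool.Agent.H27.Ind.Defs

set_option autoImplicit false

/-!
# The locally indicable part
-/

namespace Pool.Agent.H27.Ind

open Pool.Agent.H83.Ord

/-- A homomorphism from a subgroup to a commutative group kills the elements which lie in the
commutator subgroup of the subgroup. -/
lemma hom_eq_one_of_mem_commutator {G : Type*} [Group G] {B : Type*} [CommGroup B]
    (H : Subgroup G) (φ : H →* B) (x : H) (hx : (x : G) ∈ ⁅H, H⁆) : φ x = 1 := by
  rw [← Subgroup.map_subtype_commutator] at hx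
  obtain ⟨y, hy, hyx⟩ := hx
  have h1 : y = x := Subtype.ext hyx
  have h2 := Abelianization.commutator_subset_ker φ hy
  rw [h1] at h2
  exact h2

/-- A homomorphism from the closure of a set is trivial if it is trivial on the set. -/
lemma hom_eq_one_of_closure {G : Type*} [Group G] {B : Type*} [Group B] (S : Set G)
    (φ : Subgroup.closure S →* B)
    (h : ∀ x (hx : x ∈ S), φ ⟨x, Subgroup.subset_closure hx⟩ = 1) (y : Subgroup.closure S) :
    φ y = 1 := by
  have hle : Subgroup.closure S ≤ φ.ker.map (Subgroup.closure S).subtype := by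
    rw [Subgroup.closure_le]
    intro x hx
    exact ⟨⟨x, Subgroup.subset_closure hx⟩, h x hx, rfl⟩
  obtain ⟨z, hz, hzy⟩ := hle y.2
  have h1 : z = y := Subtype.ext hzy
  rw [h1] at hz
  exact hz

/-- finitely many relations witness the absence of homomorphisms onto the integers -/
theorem noZ_relators {s r : ℕ} {G : Type} [Group G] (p : FreeGroup (Fin s) →* G)
    (u : Fin r → FreeGroup (Fin s)) (h : NoZ (Subgroup.closure (Set.range fun i => p (u i)))) :
    ∃ E : Finset (FreeGroup (Fin s)), (∀ e ∈ E, p e = 1) ∧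
      ∀ (X : Type) [Group X] (f : FreeGroup (Fin s) →* X), (∀ e ∈ E, f e = 1) →
        NoZ (Subgroup.closure (Set.range fun i => f (u i))) := by
  classical
  have hmap : ∀ {X : Type} [Group X] (f : FreeGroup (Fin s) →* X),
      (Subgroup.closure (Set.range u)).map f = Subgroup.closure (Set.range fun i => f (u i)) := by
    intro X _ f
    rw [MonoidHom.map_closure]
    congr 1
    ext y
    constructor
    · rintro ⟨_, ⟨i, rfl⟩, rfl⟩
      exact ⟨i, rfl⟩
    · rintro ⟨i, rfl⟩
      exact ⟨u i, ⟨i, rfl⟩, rfl⟩
  have hfgH : Group.FG (Subgroup.closure (Set.range fun i => p (u i))) :=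
    Group.closure_finite_fg _
  have hab : NoZ (Abelianization (Subgroup.closure (Set.range fun i => p (u i)))) :=
    noZ_of_surjective Abelianization.of (QuotientGroup.mk'_surjective _) h
  have hfgab : Group.FG (Abelianization (Subgroup.closure (Set.range fun i => p (u i)))) :=
    Group.fg_of_surjective (hG := hfgH) (QuotientGroup.mk'_surjective _)
  have hfin : Finite (Abelianization (Subgroup.closure (Set.range fun i => p (u i)))) :=
    NoZ.finite_of_comm hfgab hab
  obtain ⟨N, hN1, hN⟩ : ∃ N : ℕ, 1 ≤ N ∧
      ∀ x : Subgroup.closure (Set.range fun i => p (u i)),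
        x ^ N ∈ commutator (Subgroup.closure (Set.range fun i => p (u i))) := by
    refine ⟨Nat.card (Abelianization (Subgroup.closure (Set.range fun i => p (u i)))),
      Nat.card_pos, fun x => ?_⟩
    have h1 : (Abelianization.of x) ^
        Nat.card (Abelianization (Subgroup.closure (Set.range fun i => p (u i)))) = 1 :=
      pow_card_eq_one'
    rw [← map_pow] at h1
    exact (QuotientGroup.eq_one_iff _).1 h1
  have hc : ∀ i, ∃ c ∈ ⁅Subgroup.closure (Set.range u), Subgroup.closure (Set.range u)⁆,
      p c = p (u i) ^ N := by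
    intro i
    have hx : p (u i) ∈ Subgroup.closure (Set.range fun i => p (u i)) :=
      Subgroup.subset_closure ⟨i, rfl⟩
    have h2 : p (u i) ^ N ∈ (commutator (Subgroup.closure (Set.range fun i => p (u i)))).map
        (Subgroup.closure (Set.range fun i => p (u i))).subtype := ⟨_, hN ⟨_, hx⟩, rfl⟩
    rw [Subgroup.map_subtype_commutator, ← hmap p, ← Subgroup.map_commutator] at h2
    exact h2
  choose c hcU hcp using hc
  refine ⟨Finset.univ.image (fun i => u i ^ N * (c i)⁻¹), ?_, ?_⟩
  · intro e he
    obtain ⟨i, -, rfl⟩ := Finset.mem_image.1 he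
    rw [map_mul, map_pow, map_inv, hcp i, mul_inv_cancel]
  · intro X _ f hf φ hφ
    have key : ∀ y, φ y = 1 := by
      apply hom_eq_one_of_closure
      rintro _ ⟨i, rfl⟩
      have h1 : f (u i) ^ N = f (c i) := by
        have h2 := hf (u i ^ N * (c i)⁻¹) (Finset.mem_image.2 ⟨i, Finset.mem_univ _, rfl⟩)
        rw [map_mul, map_pow, map_inv] at h2
        exact mul_inv_eq_one.1 h2
      have hmem : f (u i) ∈ Subgroup.closure (Set.range fun i => f (u i)) :=
        Subgroup.subset_closure ⟨i, rfl⟩
      have h3 : φ ((⟨f (u i), hmem⟩ : Subgroup.closure (Set.range fun i => f (u i))) ^ N) = 1 := by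
        apply hom_eq_one_of_mem_commutator
        show f (u i) ^ N ∈ _
        rw [h1, ← hmap f, ← Subgroup.map_commutator]
        exact ⟨c i, hcU i, rfl⟩
      rw [map_pow] at h3
      have h4 : N • Multiplicative.toAdd (φ ⟨f (u i), hmem⟩) = 0 := by
        rw [← toAdd_pow, h3]; rfl
      have h5 : Multiplicative.toAdd (φ ⟨f (u i), hmem⟩) = 0 := by
        rcases smul_eq_zero.1 h4 with h6 | h6
        · omega
        · exact h6
      exact h5
    obtain ⟨y, hy⟩ := hφ (Multiplicative.ofAdd 1)
    rw [key y] at hy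
    have h6 : (0 : ℤ) = 1 := congrArg Multiplicative.toAdd hy
    exact zero_ne_one h6

/-- A finitely generated subgroup of a locally indicable group without homomorphisms onto the
integers is trivial. -/
lemma eq_one_of_noZ {X : Type} [Group X] (hX : LocallyIndicable X) (H : Subgroup X) (hH : H.FG)
    (hN : NoZ H) : ∀ x ∈ H, x = 1 := by
  intro x hx
  by_contra hne
  have h1 : H ≠ ⊥ := by
    rintro rfl
    exact hne (Subgroup.mem_bot.1 hx)
  obtain ⟨f, hf⟩ := hX H hH h1
  exact hN f hf

/-- The image of a finitely generated subgroup is finitely generated. -/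
lemma fg_map {F X : Type*} [Group F] [Group X] (f : F →* X) (V : Subgroup F) (hV : V.FG) :
    (V.map f).FG := by
  classical
  obtain ⟨T, hT⟩ := hV
  refine ⟨T.image f, ?_⟩
  rw [Finset.coe_image, ← MonoidHom.map_closure, hT]

theorem kills_LI {F : Type} [Group F] (R : Subgroup F) [R.Normal] :
    Kills (fun G _ => LocallyIndicable G) R := by
  intro k V hV hp
  obtain ⟨E, hE, hf⟩ := perfect_relators (Dser R k) V hV hp
  refine ⟨E, fun e he => (hE e he).2, ?_⟩
  intro X _ f hX hfe v hv
  have hperf := hf X f hfe
  have hN : NoZ (V.map f) := by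
    intro φ hφ
    obtain ⟨y, hy⟩ := hφ (Multiplicative.ofAdd 1)
    rw [hom_eq_one_of_mem_commutator (V.map f) φ y (hperf y.2)] at hy
    have h6 : (0 : ℤ) = 1 := congrArg Multiplicative.toAdd hy
    exact zero_ne_one h6
  exact eq_one_of_noZ hX (V.map f) (fg_map f V hV) hN (f v) ⟨v, hv, rfl⟩

theorem star_LI : Star (fun G _ => LocallyIndicable G) := by
  classical
  intro G _ hG
  unfold LocallyIndicable at hG
  push Not at hG
  obtain ⟨H, hHfg, hHne, hHN⟩ := hG
  obtain ⟨T, hT⟩ := hHfg
  let g : Fin T.card → G := fun i => (T.equivFin.symm i : G)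
  have hrange : Set.range g = (T : Set G) := by
    ext x
    constructor
    · rintro ⟨i, rfl⟩
      exact (T.equivFin.symm i).2
    · intro hx
      refine ⟨T.equivFin ⟨x, hx⟩, ?_⟩
      show ((T.equivFin.symm (T.equivFin ⟨x, hx⟩) : T) : G) = x
      rw [Equiv.symm_apply_apply]
  have hcl : Subgroup.closure (Set.range fun i => FreeGroup.lift g (FreeGroup.of i)) = H := by
    have : (fun i => FreeGroup.lift g (FreeGroup.of i)) = g := by
      funext i
      exact FreeGroup.lift_apply_of
    rw [this, hrange, hT]
  have hN : NoZ (Subgroup.closure (Set.range fun i => FreeGroup.lift g (FreeGroup.of i))) := by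
    rw [hcl]
    exact hHN
  obtain ⟨E, hE1, hE2⟩ := noZ_relators (FreeGroup.lift g) FreeGroup.of hN
  refine ⟨T.card, T.card, g, FreeGroup.of, E, hE1, hE2, ?_, ?_⟩
  · intro X _ f hX hf i
    refine eq_one_of_noZ hX (Subgroup.closure (Set.range fun i => f (FreeGroup.of i)))
      ?_ (hE2 X f hf) _ (Subgroup.subset_closure ⟨i, rfl⟩)
    exact (Group.fg_iff_subgroup_fg _).1 (Group.closure_finite_fg _)
  · by_contra hcon
    push Not at hcon
    apply hHne
    rw [← hcl, Subgroup.closure_eq_bot_iff]
    rintro _ ⟨i, rfl⟩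
    exact hcon i

end Pool.Agent.H27.Ind
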