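import Mathlib

set_option autoImplicit false

/-!
# Finitely generated perfect subgroups modulo the derived series (IND3)
-/

namespace Pool.Agent.H27.Ind

open Subgroup
open scoped commutatorElement

/-- Three subgroups, in the form needed: `[[G,G],N] ≤ [G,[G,N]]` for a normal subgroup `N`. -/
private lemma three_sub {G : Type*} [Group G] (N : Subgroup G) [N.Normal] :
    ⁅⁅(⊤ : Subgroup G), (⊤ : Subgroup G)⁆, N⁆ ≤ ⁅(⊤ : Subgroup G), ⁅(⊤ : Subgroup G), N⁆⁆ := by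
  set M : Subgroup G := ⁅(⊤ : Subgroup G), ⁅(⊤ : Subgroup G), N⁆⁆ with hM
  have : M.Normal := Subgroup.commutator_normal _ _
  let π : G →* G ⧸ M := QuotientGroup.mk' M
  have hπ : Function.Surjective π := QuotientGroup.mk'_surjective M
  have htop : (⊤ : Subgroup G).map π = ⊤ := by
    rw [← MonoidHom.range_eq_map, MonoidHom.range_eq_top]
    exact hπ
  have hb : ∀ K : Subgroup G, K ≤ M → K.map π = ⊥ := by
    intro K hK
    rw [Subgroup.map_eq_bot_iff, QuotientGroup.ker_mk']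
    exact hK
  have h0 : ⁅(⊤ : Subgroup (G ⧸ M)), ⁅(⊤ : Subgroup (G ⧸ M)), N.map π⁆⁆ = ⊥ := by
    have h := hb ⁅(⊤ : Subgroup G), ⁅(⊤ : Subgroup G), N⁆⁆ hM.ge
    rw [Subgroup.map_commutator, Subgroup.map_commutator, htop] at h
    exact h
  have h1 : ⁅⁅(⊤ : Subgroup (G ⧸ M)), N.map π⁆, (⊤ : Subgroup (G ⧸ M))⁆ = ⊥ := by
    rw [Subgroup.commutator_comm]
    exact h0
  have h2 : ⁅⁅N.map π, (⊤ : Subgroup (G ⧸ M))⁆, (⊤ : Subgroup (G ⧸ M))⁆ = ⊥ := by
    rw [Subgroup.commutator_comm (N.map π)]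
    exact h1
  have h3 : ⁅⁅(⊤ : Subgroup (G ⧸ M)), (⊤ : Subgroup (G ⧸ M))⁆, N.map π⁆ = ⊥ :=
    Subgroup.commutator_commutator_eq_bot_of_rotate h1 h2
  have h4 : (⁅⁅(⊤ : Subgroup G), (⊤ : Subgroup G)⁆, N⁆).map π = ⊥ := by
    rw [Subgroup.map_commutator, Subgroup.map_commutator, htop]
    exact h3
  rw [Subgroup.map_eq_bot_iff, QuotientGroup.ker_mk'] at h4
  exact h4

/-- The case of an abelian normal subgroup. -/
private lemma lift_abelian {G : Type*} [Group G] (D : Subgroup G) [D.Normal]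
    (hD : ∀ x ∈ D, ∀ y ∈ D, x * y = y * x) (hG : (⊤ : Subgroup G).FG)
    (hp : (⊤ : Subgroup G) ≤ ⁅(⊤ : Subgroup G), (⊤ : Subgroup G)⁆ ⊔ D) :
    ∃ V₁ : Subgroup G, V₁.FG ∧ (⊤ : Subgroup G) ≤ V₁ ⊔ D ∧ V₁ ≤ ⁅V₁, V₁⁆ := by
  classical
  obtain ⟨S, hS⟩ := hG
  have hc : ∀ c : G, ∃ u d : G, u ∈ ⁅(⊤ : Subgroup G), (⊤ : Subgroup G)⁆ ∧ d ∈ D ∧ u * d = c := by
    intro c
    obtain ⟨u, hu, d, hd, h⟩ := Subgroup.mem_sup_of_normal_right.1 (hp (Subgroup.mem_top c))
    exact ⟨u, d, hu, hd, h⟩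
  choose u d hu hd hud using hc
  set D₀ : Subgroup G := Subgroup.normalClosure (d '' (S : Set G)) with hD₀
  have hD₀D : D₀ ≤ D := by
    apply Subgroup.normalClosure_le_normal
    rintro x ⟨c, _, rfl⟩
    exact hd c
  set D₁ : Subgroup G := ⁅(⊤ : Subgroup G), D₀⁆ with hD₁
  have : D₁.Normal := Subgroup.commutator_normal _ _
  have hD₁D₀ : D₁ ≤ D₀ := Subgroup.commutator_le_right _ _
  have hD₁D : D₁ ≤ D := hD₁D₀.trans hD₀D
  set U : Subgroup G := Subgroup.closure (u '' (S : Set G)) with hU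
  -- generators of `V₁`
  set X : Finset G := S.image u ∪ (S ×ˢ S).image (fun p => ⁅p.1, d p.2⁆) with hX
  set V₁ : Subgroup G := Subgroup.closure (X : Set G) with hV₁
  have hUV : U ≤ V₁ := by
    rw [hU, Subgroup.closure_le]
    rintro x ⟨c, hcS, rfl⟩
    apply Subgroup.subset_closure
    rw [hX, Finset.coe_union]
    left
    exact Finset.mem_coe.2 (Finset.mem_image_of_mem _ hcS)
  have heV : ∀ c ∈ S, ∀ c' ∈ S, ⁅c, d c'⁆ ∈ V₁ := by
    intro c hc c' hc'
    apply Subgroup.subset_closure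
    rw [hX, Finset.coe_union]
    right
    exact Finset.mem_coe.2 (Finset.mem_image.2 ⟨(c, c'), Finset.mem_product.2 ⟨hc, hc'⟩, rfl⟩)
  -- `G = U D₀`
  have hUD : (⊤ : Subgroup G) = U ⊔ D₀ := by
    apply le_antisymm _ le_top
    rw [← hS, Subgroup.closure_le]
    intro c hcS
    rw [← hud c]
    apply Subgroup.mul_mem_sup
    · exact Subgroup.subset_closure ⟨c, hcS, rfl⟩
    · exact Subgroup.subset_normalClosure ⟨c, hcS, rfl⟩
  have hdec : ∀ g : G, ∃ x ∈ U, ∃ y ∈ D₀, x * y = g := by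
    intro g
    have : g ∈ U ⊔ D₀ := hUD ▸ Subgroup.mem_top g
    exact Subgroup.mem_sup_of_normal_right.1 this
  -- `D₁ ≤ [G, D₁]`
  have h1 : D₁ ≤ ⁅(⊤ : Subgroup G), D₁⁆ := by
    rw [hD₁, Subgroup.commutator_le]
    intro g _ y hy
    obtain ⟨w, hw, e, he, hwe⟩ := Subgroup.mem_sup_of_normal_right.1 (hp (Subgroup.mem_top g))
    have : ⁅g, y⁆ = ⁅w, y⁆ := by
      rw [← hwe, commutatorElement_def, commutatorElement_def]
      have := hD e he y (hD₀D hy)
      calc w * e * y * (w * e)⁻¹ * y⁻¹ = w * (e * y) * e⁻¹ * w⁻¹ * y⁻¹ := by group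
        _ = w * (y * e) * e⁻¹ * w⁻¹ * y⁻¹ := by rw [this]
        _ = w * y * w⁻¹ * y⁻¹ := by group
    rw [this]
    exact three_sub D₀ (Subgroup.commutator_mem_commutator hw hy)
  -- `D₁ ≤ V₁`
  have h2 : D₁ ≤ V₁ := by
    set E : Subgroup G := Subgroup.normalClosure ((fun p : G × G => ⁅p.1, d p.2⁆) ''
      ((S : Set G) ×ˢ (S : Set G))) with hE
    have hEV : E ≤ V₁ := by
      rw [hE, Subgroup.normalClosure, Subgroup.closure_le]
      intro x hx
      rw [Group.mem_conjugatesOfSet_iff] at hx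
      obtain ⟨a, ⟨⟨c, c'⟩, hcc, rfl⟩, hax⟩ := hx
      obtain ⟨g, rfl⟩ := isConj_iff.1 hax
      obtain ⟨x, hx, y, hy, rfl⟩ := hdec g
      have haD : ⁅c, d c'⁆ ∈ D := by
        have : ⁅c, d c'⁆ ∈ ⁅(⊤ : Subgroup G), D⁆ :=
          Subgroup.commutator_mem_commutator (Subgroup.mem_top _) (hd c')
        exact Subgroup.commutator_le_right _ _ this
      have hcomm := hD y (hD₀D hy) _ haD
      have : x * y * ⁅c, d c'⁆ * (x * y)⁻¹ = x * ⁅c, d c'⁆ * x⁻¹ := by
        calc x * y * ⁅c, d c'⁆ * (x * y)⁻¹ = x * (y * ⁅c, d c'⁆) * y⁻¹ * x⁻¹ := by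
              simp only [mul_inv_rev, mul_assoc]
          _ = x * (⁅c, d c'⁆ * y) * y⁻¹ * x⁻¹ := by rw [hcomm]
          _ = x * ⁅c, d c'⁆ * x⁻¹ := by simp only [mul_assoc, mul_inv_cancel_left]
      show x * y * ⁅c, d c'⁆ * (x * y)⁻¹ ∈ V₁
      rw [this]
      exact V₁.mul_mem (V₁.mul_mem (hUV hx) (heV c hcc.1 c' hcc.2)) (V₁.inv_mem (hUV hx))
    refine le_trans ?_ hEV
    -- modulo `E` the `d c` are central
    let π : G →* G ⧸ E := QuotientGroup.mk' E
    have hπ : Function.Surjective π := QuotientGroup.mk'_surjective E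
    have hcen : ∀ c' ∈ S, π (d c') ∈ Subgroup.center (G ⧸ E) := by
      intro c' hc'
      rw [Subgroup.mem_center_iff]
      intro g
      obtain ⟨g, rfl⟩ := hπ g
      have hg : g ∈ Subgroup.closure (S : Set G) := hS ▸ Subgroup.mem_top g
      induction hg using Subgroup.closure_induction with
      | mem c hc =>
        have : π ⁅c, d c'⁆ = 1 := by
          rw [← MonoidHom.mem_ker, QuotientGroup.ker_mk']
          exact Subgroup.subset_normalClosure ⟨(c, c'), ⟨hc, hc'⟩, rfl⟩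
        rw [map_commutatorElement, commutatorElement_eq_one_iff_mul_comm] at this
        exact this
      | one => simp
      | mul a b _ _ ha hb =>
        rw [map_mul, mul_assoc, hb, ← mul_assoc, ha, mul_assoc]
      | inv a _ ha =>
        rw [map_inv, inv_mul_eq_iff_eq_mul, ← mul_assoc, ha, mul_inv_cancel_right]
    have hD₀c : D₀ ≤ (Subgroup.center (G ⧸ E)).comap π := by
      apply Subgroup.normalClosure_le_normal
      rintro x ⟨c, hc, rfl⟩
      exact hcen c hc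
    rw [hD₁, Subgroup.commutator_le]
    intro g _ y hy
    have hy' : π y ∈ Subgroup.center (G ⧸ E) := hD₀c hy
    have : π ⁅g, y⁆ = 1 := by
      rw [map_commutatorElement, commutatorElement_eq_one_iff_mul_comm]
      exact Subgroup.mem_center_iff.1 hy' _
    rw [← MonoidHom.mem_ker, QuotientGroup.ker_mk'] at this
    exact this
  -- `[G, D₁] ≤ [V₁, V₁]`
  have h3 : D₁ ≤ ⁅V₁, V₁⁆ := by
    refine h1.trans ?_
    rw [Subgroup.commutator_le]
    intro g _ y hy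
    obtain ⟨a, ha, b, hb, rfl⟩ := hdec g
    have hcomm := hD b (hD₀D hb) y (hD₁D hy)
    have : ⁅a * b, y⁆ = ⁅a, y⁆ := by
      rw [commutatorElement_def, commutatorElement_def]
      calc a * b * y * (a * b)⁻¹ * y⁻¹ = a * (b * y) * b⁻¹ * a⁻¹ * y⁻¹ := by group
        _ = a * (y * b) * b⁻¹ * a⁻¹ * y⁻¹ := by rw [hcomm]
        _ = a * y * a⁻¹ * y⁻¹ := by group
    rw [this]
    exact Subgroup.commutator_mem_commutator (hUV ha) (h2 hy)
  -- `[G, G] ≤ [U, U] D₁`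
  have h4 : ⁅(⊤ : Subgroup G), (⊤ : Subgroup G)⁆ ≤ ⁅U, U⁆ ⊔ D₁ := by
    let π : G →* G ⧸ D₁ := QuotientGroup.mk' D₁
    have hk : π.ker = D₁ := QuotientGroup.ker_mk' D₁
    rw [← hk, ← Subgroup.map_le_map_iff, Subgroup.map_commutator, Subgroup.map_commutator,
      Subgroup.commutator_le]
    rintro _ ⟨g, _, rfl⟩ _ ⟨h, _, rfl⟩
    obtain ⟨a, ha, b, hb, rfl⟩ := hdec g
    obtain ⟨a', ha', b', hb', rfl⟩ := hdec h
    have hcen : ∀ y ∈ D₀, ∀ x : G ⧸ D₁, x * π y = π y * x := by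
      intro y hy x
      obtain ⟨x, rfl⟩ := QuotientGroup.mk'_surjective D₁ x
      have : π ⁅x, y⁆ = 1 := by
        rw [← MonoidHom.mem_ker, hk]
        exact Subgroup.commutator_mem_commutator (Subgroup.mem_top _) hy
      rw [map_commutatorElement, commutatorElement_eq_one_iff_mul_comm] at this
      exact this
    have e1 := hcen b hb
    have e2 := hcen b' hb'
    have : ⁅π (a * b), π (a' * b')⁆ = ⁅π a, π a'⁆ := by
      rw [commutatorElement_def, commutatorElement_def, map_mul, map_mul, mul_inv_rev, mul_inv_rev]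
      calc π a * π b * (π a' * π b') * ((π b)⁻¹ * (π a)⁻¹) * ((π b')⁻¹ * (π a')⁻¹)
          = π a * (π b * (π a' * π b')) * (π b)⁻¹ * (π a)⁻¹ * (π b')⁻¹ * (π a')⁻¹ := by group
        _ = π a * ((π a' * π b') * π b) * (π b)⁻¹ * (π a)⁻¹ * (π b')⁻¹ * (π a')⁻¹ := by rw [e1]
        _ = π a * π a' * (π b' * (π a)⁻¹) * (π b')⁻¹ * (π a')⁻¹ := by group
        _ = π a * π a' * ((π a)⁻¹ * π b') * (π b')⁻¹ * (π a')⁻¹ := by rw [e2]
        _ = π a * π a' * (π a)⁻¹ * (π a')⁻¹ := by group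
    show ⁅π (a * b), π (a' * b')⁆ ∈ _
    rw [this]
    exact Subgroup.commutator_mem_commutator ⟨a, ha, rfl⟩ ⟨a', ha', rfl⟩
  refine ⟨V₁, ⟨X, rfl⟩, ?_, ?_⟩
  · rw [hUD]
    exact sup_le_sup hUV hD₀D
  · rw [hV₁, Subgroup.closure_le, ← hV₁]
    intro x hx
    rw [hX, Finset.coe_union] at hx
    rcases hx with hx | hx
    · obtain ⟨c, _, rfl⟩ := Finset.mem_image.1 (Finset.mem_coe.1 hx)
      exact (h4.trans (sup_le (Subgroup.commutator_mono hUV hUV) h3)) (hu c)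
    · obtain ⟨⟨c, c'⟩, hcc, rfl⟩ := Finset.mem_image.1 (Finset.mem_coe.1 hx)
      rw [Finset.mem_product] at hcc
      apply h3
      exact Subgroup.commutator_mem_commutator (Subgroup.mem_top _)
        (Subgroup.subset_normalClosure ⟨c', hcc.2, rfl⟩)

/-- The case `V = F`. -/
private lemma lift_top {G : Type*} [Group G] (T : Subgroup G) [T.Normal]
    (hG : (⊤ : Subgroup G).FG)
    (hp : (⊤ : Subgroup G) ≤ ⁅(⊤ : Subgroup G), (⊤ : Subgroup G)⁆ ⊔ T) :
    ∃ V₁ : Subgroup G, V₁.FG ∧ (⊤ : Subgroup G) ≤ V₁ ⊔ T ∧ V₁ ≤ ⁅V₁, V₁⁆ ⊔ ⁅T, T⁆ := by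
  classical
  have : (⁅T, T⁆ : Subgroup G).Normal := Subgroup.commutator_normal _ _
  let π : G →* G ⧸ ⁅T, T⁆ := QuotientGroup.mk' ⁅T, T⁆
  have hπ : Function.Surjective π := QuotientGroup.mk'_surjective _
  have hk : π.ker = ⁅T, T⁆ := QuotientGroup.ker_mk' _
  have htop : (⊤ : Subgroup G).map π = ⊤ := by
    rw [← MonoidHom.range_eq_map, MonoidHom.range_eq_top]
    exact hπ
  have hDn : (T.map π).Normal := Subgroup.Normal.map inferInstance π hπ
  have hD : ∀ x ∈ T.map π, ∀ y ∈ T.map π, x * y = y * x := by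
    rintro _ ⟨x, hx, rfl⟩ _ ⟨y, hy, rfl⟩
    have : π ⁅x, y⁆ = 1 := by
      rw [← MonoidHom.mem_ker, hk]
      exact Subgroup.commutator_mem_commutator hx hy
    rw [map_commutatorElement, commutatorElement_eq_one_iff_mul_comm] at this
    exact this
  have hG' : (⊤ : Subgroup (G ⧸ ⁅T, T⁆)).FG := by
    obtain ⟨S, hS⟩ := hG
    refine ⟨S.image π, ?_⟩
    rw [Finset.coe_image, ← MonoidHom.map_closure, hS, htop]
  have hp' : (⊤ : Subgroup (G ⧸ ⁅T, T⁆)) ≤ ⁅(⊤ : Subgroup (G ⧸ ⁅T, T⁆)), ⊤⁆ ⊔ T.map π := by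
    have := Subgroup.map_mono (f := π) hp
    rw [Subgroup.map_sup, Subgroup.map_commutator, htop] at this
    exact this
  obtain ⟨W, ⟨Y, hY⟩, hW1, hW2⟩ := lift_abelian (T.map π) hD hG' hp'
  choose s hs using hπ
  refine ⟨Subgroup.closure ((Y.image s : Finset G) : Set G), ⟨_, rfl⟩, ?_, ?_⟩
  all_goals
    have hmap : (Subgroup.closure ((Y.image s : Finset G) : Set G)).map π = W := by
      rw [MonoidHom.map_closure, Finset.coe_image, Set.image_image]
      simp only [hs, Set.image_id', hY]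
  · have h : (⊤ : Subgroup G).map π ≤
        (Subgroup.closure ((Y.image s : Finset G) : Set G) ⊔ T).map π := by
      rw [Subgroup.map_sup, hmap, htop]
      exact hW1
    rw [Subgroup.map_le_map_iff, hk] at h
    refine h.trans (sup_le le_rfl ?_)
    exact le_sup_of_le_right (Subgroup.commutator_le_left _ _)
  · have h : (Subgroup.closure ((Y.image s : Finset G) : Set G)).map π ≤
        (⁅Subgroup.closure ((Y.image s : Finset G) : Set G),
          Subgroup.closure ((Y.image s : Finset G) : Set G)⁆).map π := by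
      rw [Subgroup.map_commutator, hmap]
      exact hW2
    rw [Subgroup.map_le_map_iff, hk] at h
    exact h

theorem perfect_lift {F : Type*} [Group F] (T : Subgroup F) [T.Normal] (V : Subgroup F)
    (hV : V.FG) (hp : V ≤ ⁅V, V⁆ ⊔ T) :
    ∃ V₁ : Subgroup F, V₁.FG ∧ V₁ ≤ V ∧ V ≤ V₁ ⊔ T ∧ V₁ ≤ ⁅V₁, V₁⁆ ⊔ ⁅T, T⁆ := by
  classical
  have hmt : (⊤ : Subgroup V).map V.subtype = V := by
    rw [← MonoidHom.range_eq_map, Subgroup.range_subtype]
  have hTV : (T.subgroupOf V).map V.subtype ≤ T := by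
    rintro _ ⟨x, hx, rfl⟩
    exact hx
  have hG : (⊤ : Subgroup V).FG := by
    rw [← Group.fg_def, Group.fg_iff_subgroup_fg]
    exact hV
  have hp' : (⊤ : Subgroup V) ≤ ⁅(⊤ : Subgroup V), (⊤ : Subgroup V)⁆ ⊔ T.subgroupOf V := by
    intro x _
    obtain ⟨w, hw, t, ht, h⟩ := Subgroup.mem_sup_of_normal_right.1 (hp x.2)
    have hw' : w ∈ (⁅(⊤ : Subgroup V), (⊤ : Subgroup V)⁆).map V.subtype := by
      rw [Subgroup.map_commutator, hmt]
      exact hw
    obtain ⟨w', hw', rfl⟩ := hw'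
    have htV : t ∈ V := by
      have : t = (V.subtype w')⁻¹ * x := by rw [← h, inv_mul_cancel_left]
      rw [this]
      exact V.mul_mem (V.inv_mem w'.2) x.2
    have hx : x = w' * ⟨t, htV⟩ := Subtype.ext h.symm
    rw [hx]
    exact Subgroup.mul_mem_sup hw' ht
  obtain ⟨W, hW, hW1, hW2⟩ := lift_top (T.subgroupOf V) hG hp'
  refine ⟨W.map V.subtype, ?_, Subgroup.map_subtype_le _, ?_, ?_⟩
  · obtain ⟨Y, hY⟩ := hW
    refine ⟨Y.image V.subtype, ?_⟩
    rw [Finset.coe_image, ← MonoidHom.map_closure, hY]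
  · have := Subgroup.map_mono (f := V.subtype) hW1
    rw [hmt, Subgroup.map_sup] at this
    exact this.trans (sup_le_sup le_rfl hTV)
  · have := Subgroup.map_mono (f := V.subtype) hW2
    rw [Subgroup.map_sup, Subgroup.map_commutator, Subgroup.map_commutator] at this
    exact this.trans (sup_le_sup le_rfl (Subgroup.commutator_mono hTV hTV))

theorem perfect_relators {F : Type*} [Group F] (T : Subgroup F) [T.Normal] (V : Subgroup F)
    (hV : V.FG) (hp : V ≤ ⁅V, V⁆ ⊔ T) :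
    ∃ E : Finset F, (∀ e ∈ E, e ∈ V ∧ e ∈ T) ∧ ∀ (X : Type) [Group X] (f : F →* X),
      (∀ e ∈ E, f e = 1) → V.map f ≤ ⁅V.map f, V.map f⁆ := by
  classical
  obtain ⟨S, hS⟩ := hV
  have hc : ∀ c : F, ∃ b y : F, c ∈ S → b ∈ ⁅V, V⁆ ∧ y ∈ T ∧ b * y = c := by
    intro c
    by_cases hcS : c ∈ S
    · have hcV : c ∈ V := hS ▸ Subgroup.subset_closure hcS
      obtain ⟨b, hb, y, hy, h⟩ := Subgroup.mem_sup_of_normal_right.1 (hp hcV)
      exact ⟨b, y, fun _ => ⟨hb, hy, h⟩⟩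
    · exact ⟨1, 1, fun h => absurd h hcS⟩
  choose b y hby using hc
  refine ⟨S.image y, ?_, ?_⟩
  · intro e he
    obtain ⟨c, hcS, rfl⟩ := Finset.mem_image.1 he
    obtain ⟨hb, hy, h⟩ := hby c hcS
    have hcV : c ∈ V := hS ▸ Subgroup.subset_closure hcS
    refine ⟨?_, hy⟩
    have hbV : b c ∈ V := (Subgroup.commutator_le.2 (fun g₁ h₁ g₂ h₂ => by
      rw [commutatorElement_def]
      exact V.mul_mem (V.mul_mem (V.mul_mem h₁ h₂) (V.inv_mem h₁)) (V.inv_mem h₂)) :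
        ⁅V, V⁆ ≤ V) hb
    have : y c = (b c)⁻¹ * c := by rw [eq_inv_mul_iff_mul_eq, h]
    rw [this]
    exact V.mul_mem (V.inv_mem hbV) hcV
  · intro X _ f hf
    have hmap : V.map f = Subgroup.closure (f '' (S : Set F)) := by
      rw [← hS, MonoidHom.map_closure]
    conv_lhs => rw [hmap]
    rw [Subgroup.closure_le]
    rintro _ ⟨c, hcS, rfl⟩
    obtain ⟨hb, hy, h⟩ := hby c hcS
    have : f c = f (b c) := by
      conv_lhs => rw [← h]
      rw [map_mul, hf (y c) (Finset.mem_image_of_mem _ hcS), mul_one]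
    rw [this, ← Subgroup.map_commutator]
    exact Subgroup.mem_map_of_mem f hb

end Pool.Agent.H27.Ind
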