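import Pool.Agent.H27.Ind.Defs
import Pool.Agent.H27.Ind.Quot
import Pool.Agent.H27.Ind.Perfect
import Pool.Agent.H27.Ind.LI
import Pool.Agent.H27.Ind.Key

set_option autoImplicit false

/-!
# The blocks
-/

namespace Pool.Agent.H27.Ind

open Pool.Agent.H83.Ord

/-- a perfect subgroup has no homomorphism onto the integers -/
lemma blk_noZ {G : Type*} [Group G] (H : Subgroup G) (h : H ≤ ⁅H, H⁆) : NoZ H := by
  intro f hf
  obtain ⟨x, hx⟩ := hf (Multiplicative.ofAdd 1)
  rw [hom_eq_one_of_mem_commutator H f x (h x.2)] at hx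
  exact absurd hx (by decide)

/-- the map onto the quotient kills exactly the normal subgroup -/
lemma blk_map_mk_eq_bot {F : Type*} [Group F] (N : Subgroup F) [N.Normal] (V : Subgroup F)
    (h : V.map (QuotientGroup.mk' N) = ⊥) : V ≤ N := by
  intro v hv
  have h1 : QuotientGroup.mk' N v ∈ V.map (QuotientGroup.mk' N) := ⟨v, hv, rfl⟩
  rw [h, Subgroup.mem_bot] at h1
  exact (QuotientGroup.eq_one_iff v).1 h1

/-- the condition given by the key theorem -/
def KeyFor {F S : Type} [Group F] [Group S] (q : F →* S) (V : Subgroup F) (l : ℕ) : Prop :=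
  ∀ f : F →* F, (V.map f).map (QuotientGroup.mk' (Dser q.ker l)) ≤
      ⁅(V.map f).map (QuotientGroup.mk' (Dser q.ker l)),
        (V.map f).map (QuotientGroup.mk' (Dser q.ker l))⁆ → V.map f ≤ Dser q.ker l

lemma exists_keyFor {F S : Type} [Group F] [IsFreeGroup F] [Group S] (hS : Good S) (q : F →* S)
    (hq : Function.Surjective q) (V : Subgroup F) (hV : V.FG) :
    ∃ k₀ : ℕ, ∀ l, k₀ ≤ l → KeyFor q V l := by
  obtain ⟨T, hT⟩ := hV
  obtain ⟨k₀, hk₀⟩ := key hS q hq T.card
  refine ⟨k₀, fun l hl f hf => ?_⟩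
  have hcl : Subgroup.closure (Set.range fun i : Fin T.card => f (T.equivFin.symm i : F)) =
      V.map f := by
    rw [← hT, MonoidHom.map_closure]
    congr 1
    ext y
    constructor
    · rintro ⟨i, rfl⟩
      exact ⟨_, (T.equivFin.symm i).2, rfl⟩
    · rintro ⟨t, ht, rfl⟩
      refine ⟨T.equivFin ⟨t, ht⟩, ?_⟩
      simp
  have h1 := hk₀ l hl (fun i => f (T.equivFin.symm i : F)) (by
    rw [hcl]
    exact blk_noZ _ hf)
  rw [← hcl, Subgroup.closure_le]
  rintro _ ⟨i, rfl⟩
  exact h1 i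

/-- commutators of a subgroup modulo a normal subgroup -/
lemma blk_commutator_sup {F : Type*} [Group F] (V W T : Subgroup F) [T.Normal] (h : V ≤ W ⊔ T) :
    ⁅V, V⁆ ≤ ⁅W, W⁆ ⊔ T := by
  have h1 : V.map (QuotientGroup.mk' T) ≤ W.map (QuotientGroup.mk' T) := by
    calc V.map (QuotientGroup.mk' T) ≤ (W ⊔ T).map (QuotientGroup.mk' T) := Subgroup.map_mono h
      _ = W.map (QuotientGroup.mk' T) ⊔ T.map (QuotientGroup.mk' T) := Subgroup.map_sup _ _ _
      _ = W.map (QuotientGroup.mk' T) := by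
        have h2 : T.map (QuotientGroup.mk' T) = ⊥ := by
          rw [Subgroup.map_eq_bot_iff, QuotientGroup.ker_mk']
        rw [h2, sup_bot_eq]
  have h3 : (⁅V, V⁆).map (QuotientGroup.mk' T) ≤ (⁅W, W⁆).map (QuotientGroup.mk' T) := by
    rw [Subgroup.map_commutator, Subgroup.map_commutator]
    exact Subgroup.commutator_mono h1 h1
  rw [Subgroup.map_le_map_iff, QuotientGroup.ker_mk'] at h3
  exact h3

/-- iteration of the lifting of perfect subgroups -/
lemma blk_iterate {F : Type*} [Group F] (R : Subgroup F) [R.Normal] (k : ℕ) (V : Subgroup F)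
    (hV : V.FG) (hp : V ≤ ⁅V, V⁆ ⊔ Dser R k) (d : ℕ) :
    ∃ V' : Subgroup F, V'.FG ∧ V' ≤ V ∧ V ≤ V' ⊔ Dser R k ∧ V' ≤ ⁅V', V'⁆ ⊔ Dser R (k + d) := by
  induction d with
  | zero => exact ⟨V, hV, le_rfl, le_sup_left, hp⟩
  | succ d ih =>
    obtain ⟨V₁, h1, h2, h3, h4⟩ := ih
    obtain ⟨V₂, g1, g2, g3, g4⟩ := perfect_lift (Dser R (k + d)) V₁ h1 h4
    refine ⟨V₂, g1, g2.trans h2, ?_, ?_⟩
    · refine h3.trans (sup_le (g3.trans ?_) le_sup_right)
      exact sup_le_sup_left (Dser_anti R (Nat.le_add_right k d)) V₂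
    · rw [← add_assoc, Dser_succ]
      exact g4

instance blk_finite_hom {S : Type} [Group S] [Finite S] (m : ℕ) :
    Finite (FreeGroup (Fin m) →* S) :=
  Finite.of_equiv (Fin m → S) FreeGroup.lift

/-- relators which detect the homomorphisms to a finite group killing a subgroup -/
lemma blk_detect {S : Type} [Group S] [Finite S] {m : ℕ} (D : Subgroup (FreeGroup (Fin m))) :
    ∃ E : Finset (FreeGroup (Fin m)), (∀ e ∈ E, e ∈ D) ∧
      ∀ ξ : FreeGroup (Fin m) →* S, (∀ e ∈ E, ξ e = 1) → ∀ x ∈ D, ξ x = 1 := by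
  classical
  have := Fintype.ofFinite (FreeGroup (Fin m) →* S)
  have hc : ∀ ξ : FreeGroup (Fin m) →* S, ∃ e ∈ D, ξ e = 1 → ∀ x ∈ D, ξ x = 1 := by
    intro ξ
    by_cases h : ∀ x ∈ D, ξ x = 1
    · exact ⟨1, D.one_mem, fun _ => h⟩
    · push Not at h
      obtain ⟨x, hx, hx1⟩ := h
      exact ⟨x, hx, fun hx2 => absurd hx2 hx1⟩
  choose e he he' using hc
  refine ⟨Finset.univ.image e, ?_, ?_⟩
  · intro x hx
    obtain ⟨ξ, -, rfl⟩ := Finset.mem_image.1 hx
    exact he ξ
  · intro ξ hξ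
    exact he' ξ (hξ _ (Finset.mem_image_of_mem e (Finset.mem_univ ξ)))

open Pointwise in
/-- the products `b * y` -/
lemma blk_mem_sup {F : Type*} [Group F] (A T : Subgroup F) [T.Normal] {x : F} (h : x ∈ A ⊔ T) :
    ∃ b ∈ A, ∃ y ∈ T, b * y = x := by
  have h1 : (x : F) ∈ ((A : Set F) * (T : Set F)) := by
    rw [← Subgroup.mul_normal]
    exact h
  obtain ⟨b, hb, y, hy, hxy⟩ := Set.mem_mul.1 h1
  exact ⟨b, hb, y, hy, hxy⟩

/-- one step of the recursion -/
lemma blk_step {S : Type} [Group S] (hS : Good S) {m : ℕ} (q : FreeGroup (Fin m) →* S)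
    (hq : Function.Surjective q) (K : GroupClass) (hkills : Kills K q.ker) (k : ℕ)
    (V : Subgroup (FreeGroup (Fin m))) (hV : V.FG) (hp : V ≤ ⁅V, V⁆ ⊔ Dser q.ker k)
    (hVq : V.map q = ⊤) :
    ∃ (k' : ℕ) (V' : Subgroup (FreeGroup (Fin m))) (E Y : Finset (FreeGroup (Fin m))),
      k < k' ∧ V'.FG ∧ V' ≤ ⁅V', V'⁆ ⊔ Dser q.ker k' ∧ V'.map q = ⊤ ∧
      (∀ l, k' ≤ l → KeyFor q V l) ∧
      (∀ e ∈ E, e ∈ Dser q.ker k') ∧
      (∀ y ∈ Y, y ∈ V' ∧ y ∈ Dser q.ker k) ∧
      (∀ (X : Type) [Group X] (f : FreeGroup (Fin m) →* X), K X → (∀ e ∈ E, f e = 1) →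
        ∀ y ∈ Y, f y = 1) ∧
      (∀ (X : Type) [Group X] (f : FreeGroup (Fin m) →* X), (∀ e ∈ E, f e = 1) →
        V'.map f ≤ ⁅V'.map f, V'.map f⁆) ∧
      (∀ ξ : FreeGroup (Fin m) →* S, (∀ e ∈ E, ξ e = 1) → ∀ x ∈ Dser q.ker k', ξ x = 1) ∧
      (∀ (η : FreeGroup (Fin m) →* FreeGroup (Fin m)), (∀ x ∈ q.ker, q (η x) = 1) →
        Function.Surjective (q.comp η) → ¬ ∀ y ∈ Y, η y ∈ Dser q.ker k') := by
  classical
  have hfinS : Finite S := hS.fin
  have hntS : Nontrivial S := hS.nontriv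
  obtain ⟨T, hT⟩ := id hV
  obtain ⟨k₀, hk₀⟩ := exists_keyFor hS q hq V hV
  obtain ⟨k₁, hk₁⟩ := key hS q hq T.card
  obtain ⟨d, hd0, hd1⟩ : ∃ d : ℕ, k < k + d ∧ (k₀ ≤ k + d ∧ k₁ ≤ k + d) :=
    ⟨k₀ + k₁ + 1, by omega, by omega, by omega⟩
  obtain ⟨V', h1, h2, h3, h4⟩ := blk_iterate q.ker k V hV hp d
  generalize hk' : k + d = k' at *
  -- the three sets of relators
  obtain ⟨E₁, hE₁, hE₁'⟩ := hkills k' V' h1 h4
  obtain ⟨E₂, hE₂, hE₂'⟩ := perfect_relators (Dser q.ker k') V' h1 h4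
  obtain ⟨E₃, hE₃, hE₃'⟩ := blk_detect (S := S) (Dser q.ker k')
  -- the conclusions
  have hv : ∀ t : FreeGroup (Fin m), t ∈ T → ∃ v ∈ V', ∃ d ∈ Dser q.ker k, v * d = t := by
    intro t ht
    apply blk_mem_sup
    apply h3
    rw [← hT]
    exact Subgroup.subset_closure ht
  choose! v hv1 z hz1 hvz using hv
  let W : Subgroup (FreeGroup (Fin m)) := Subgroup.closure (T.image v : Finset _)
  have hWV : W ≤ V' := by
    rw [Subgroup.closure_le]
    intro x hx
    rw [Finset.mem_coe, Finset.mem_image] at hx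
    obtain ⟨t, ht, rfl⟩ := hx
    exact hv1 t ht
  have hVW : V ≤ W ⊔ Dser q.ker k := by
    rw [← hT, Subgroup.closure_le]
    intro t ht
    rw [SetLike.mem_coe, ← hvz t ht]
    refine mul_mem (Subgroup.mem_sup_left ?_) (Subgroup.mem_sup_right (hz1 t ht))
    exact Subgroup.subset_closure (Finset.mem_coe.2 (Finset.mem_image_of_mem v ht))
  have hVW' : V ≤ ⁅W, W⁆ ⊔ Dser q.ker k :=
    hp.trans (sup_le (blk_commutator_sup V W (Dser q.ker k) hVW) le_sup_right)
  have hy : ∀ t : FreeGroup (Fin m), t ∈ T → ∃ b ∈ ⁅W, W⁆, ∃ y ∈ Dser q.ker k, b * y = v t := by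
    intro t ht
    apply blk_mem_sup
    have h5 : v t = t * (z t)⁻¹ := by
      rw [eq_mul_inv_iff_mul_eq]
      exact hvz t ht
    rw [h5]
    refine mul_mem (hVW' ?_) (Subgroup.mem_sup_right (inv_mem (hz1 t ht)))
    rw [← hT]
    exact Subgroup.subset_closure ht
  choose! b hb1 y hy1 hby using hy
  refine ⟨k', V', E₁ ∪ E₂ ∪ E₃, T.image y, hd0, h1, h4, ?_, ?_, ?_, ?_, ?_, ?_, ?_, ?_⟩
  · rw [eq_top_iff, ← hVq]
    calc V.map q ≤ (V' ⊔ Dser q.ker k).map q := Subgroup.map_mono h3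
      _ = V'.map q ⊔ (Dser q.ker k).map q := Subgroup.map_sup _ _ _
      _ ≤ V'.map q := by
        refine sup_le le_rfl ?_
        have h6 : (Dser q.ker k).map q = ⊥ := by
          rw [Subgroup.map_eq_bot_iff]
          exact Dser_le _ _
        rw [h6]
        exact bot_le
  · intro l hl
    exact hk₀ l (hd1.1.trans hl)
  · intro e he
    rw [Finset.mem_union, Finset.mem_union] at he
    rcases he with (he | he) | he
    · exact hE₁ e he
    · exact (hE₂ e he).2
    · exact hE₃ e he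
  · intro x hx
    obtain ⟨t, ht, rfl⟩ := Finset.mem_image.1 hx
    refine ⟨?_, hy1 t ht⟩
    have h5 : y t = (b t)⁻¹ * v t := by
      rw [eq_inv_mul_iff_mul_eq]
      exact hby t ht
    rw [h5]
    refine mul_mem (inv_mem (hWV ?_)) (hv1 t ht)
    have h7 : ⁅W, W⁆ ≤ W := by
      rw [Subgroup.commutator_le]
      intro g₁ hg₁ g₂ hg₂
      rw [commutatorElement_def]
      exact mul_mem (mul_mem (mul_mem hg₁ hg₂) (inv_mem hg₁)) (inv_mem hg₂)
    exact h7 (hb1 t ht)
  · intro X _ f hX hf x hx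
    obtain ⟨t, ht, rfl⟩ := Finset.mem_image.1 hx
    have h5 : y t = (b t)⁻¹ * v t := by
      rw [eq_inv_mul_iff_mul_eq]
      exact hby t ht
    have h7 : ⁅W, W⁆ ≤ W := by
      rw [Subgroup.commutator_le]
      intro g₁ hg₁ g₂ hg₂
      rw [commutatorElement_def]
      exact mul_mem (mul_mem (mul_mem hg₁ hg₂) (inv_mem hg₁)) (inv_mem hg₂)
    refine hE₁' X f hX (fun e he => hf e ?_) _ ?_
    · exact Finset.mem_union_left _ (Finset.mem_union_left _ he)
    · rw [h5]
      exact mul_mem (inv_mem (hWV (h7 (hb1 t ht)))) (hv1 t ht)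
  · intro X _ f hf
    exact hE₂' X f (fun e he => hf e (Finset.mem_union_left _ (Finset.mem_union_right _ he)))
  · intro ξ hξ
    exact hE₃' ξ (fun e he => hξ e (Finset.mem_union_right _ he))
  · intro η hη hsurj hall
    -- the images of the generators lie in the term of the derived series
    have hWη : ∀ t : FreeGroup (Fin m), t ∈ T → η (v t) ∈ Dser q.ker k' := by
      have hcl : Subgroup.closure (Set.range fun i : Fin T.card =>
          η (v (T.equivFin.symm i : FreeGroup (Fin m)))) = W.map η := by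
        rw [MonoidHom.map_closure]
        congr 1
        ext x
        constructor
        · rintro ⟨i, rfl⟩
          exact ⟨_, Finset.mem_coe.2 (Finset.mem_image_of_mem v (T.equivFin.symm i).2), rfl⟩
        · rintro ⟨u, hu, rfl⟩
          rw [Finset.mem_coe, Finset.mem_image] at hu
          obtain ⟨t, ht, rfl⟩ := hu
          refine ⟨T.equivFin ⟨t, ht⟩, ?_⟩
          simp
      have hper : (W.map η).map (QuotientGroup.mk' (Dser q.ker k')) ≤
          ⁅(W.map η).map (QuotientGroup.mk' (Dser q.ker k')),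
            (W.map η).map (QuotientGroup.mk' (Dser q.ker k'))⁆ := by
        have hm : (W.map η).map (QuotientGroup.mk' (Dser q.ker k')) =
            W.map ((QuotientGroup.mk' (Dser q.ker k')).comp η) := Subgroup.map_map _ _ _
        rw [hm, ← Subgroup.map_commutator, Subgroup.map_le_iff_le_comap, Subgroup.closure_le]
        intro x hx
        rw [Finset.mem_coe, Finset.mem_image] at hx
        obtain ⟨t, ht, rfl⟩ := hx
        rw [SetLike.mem_coe, Subgroup.mem_comap]
        refine ⟨b t, hb1 t ht, ?_⟩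
        rw [← hby t ht, map_mul]
        have h8 : ((QuotientGroup.mk' (Dser q.ker k')).comp η) (y t) = 1 := by
          rw [MonoidHom.comp_apply]
          exact (QuotientGroup.eq_one_iff _).2 (hall (y t) (Finset.mem_image_of_mem y ht))
        rw [h8, mul_one]
      have h9 := hk₁ k' hd1.2 (fun i => η (v (T.equivFin.symm i : FreeGroup (Fin m)))) (by
        rw [hcl]
        exact blk_noZ _ hper)
      intro t ht
      have h10 := h9 (T.equivFin ⟨t, ht⟩)
      simpa using h10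
    have hker : V ≤ (q.comp η).ker := by
      refine hVW.trans (sup_le ?_ ?_)
      · rw [Subgroup.closure_le]
        intro x hx
        rw [Finset.mem_coe, Finset.mem_image] at hx
        obtain ⟨t, ht, rfl⟩ := hx
        exact (MonoidHom.mem_ker).1 (Dser_le q.ker k' (hWη t ht))
      · intro x hx
        exact hη x (Dser_le q.ker k hx)
    have hR : q.ker ≤ (q.comp η).ker := fun x hx => hη x hx
    have htop : (⊤ : Subgroup (FreeGroup (Fin m))) ≤ (q.comp η).ker := by
      intro x _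
      have h11 : q x ∈ V.map q := by
        rw [hVq]
        exact Subgroup.mem_top _
      obtain ⟨u, hu, hux⟩ := h11
      have h12 : u⁻¹ * x ∈ q.ker := by
        rw [MonoidHom.mem_ker, map_mul, map_inv, hux, inv_mul_cancel]
      have h13 : x = u * (u⁻¹ * x) := by rw [mul_inv_cancel_left]
      rw [h13]
      exact mul_mem (hker hu) (hR h12)
    obtain ⟨s, hs⟩ := exists_ne (1 : S)
    obtain ⟨x, hx⟩ := hsurj s
    apply hs
    rw [← hx]
    exact htop (Subgroup.mem_top x)

/-- the derived series of the whole group -/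
lemma blk_Dser_top {S : Type} [Group S] (hS : Good S) (k : ℕ) : Dser (⊤ : Subgroup S) k = ⊤ := by
  induction k with
  | zero => rfl
  | succ k ih => rw [Dser_succ, ih, hS.perfect]

/-- section (5) of the note -/
theorem exists_blocks {S : Type} [Group S] (hS : Good S) {m : ℕ} (q : FreeGroup (Fin m) →* S)
    (hq : Function.Surjective q) (K : GroupClass) (hkills : Kills K q.ker) :
    ∃ (κ : ℕ → ℕ) (E Y : ℕ → Finset (FreeGroup (Fin m))),
      StrictMono κ ∧ (∀ n, 1 ≤ κ n) ∧
      (∀ n, ∀ e ∈ E n, e ∈ Dser q.ker (κ n)) ∧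
      (∀ n (X : Type) [Group X] (f : FreeGroup (Fin m) →* X), K X → (∀ e ∈ E n, f e = 1) →
        ∀ y ∈ Y n, f y = 1) ∧
      (∀ n (η : FreeGroup (Fin m) →* FreeGroup (Fin m)), (∀ x ∈ q.ker, q (η x) = 1) →
        Function.Surjective (q.comp η) → ¬ ∀ y ∈ Y n, η y ∈ Dser q.ker (κ n)) ∧
      (∀ n l, l ≠ n → ∀ f : FreeGroup (Fin m) →* FreeGroup (Fin m),
        (∀ e ∈ E n, f e ∈ Dser q.ker (κ l)) → ∀ y ∈ Y n, f y ∈ Dser q.ker (κ l)) := by
  classical
  have hfinS : Finite S := hS.fin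
  have hntS : Nontrivial S := hS.nontriv
  let P : ℕ × Subgroup (FreeGroup (Fin m)) → Prop := fun p =>
    p.2.FG ∧ p.2 ≤ ⁅p.2, p.2⁆ ⊔ Dser q.ker p.1 ∧ p.2.map q = ⊤
  have hstep := fun s : {p // P p} =>
    blk_step hS q hq K hkills s.1.1 s.1.2 s.2.1 s.2.2.1 s.2.2.2
  choose k' V' E Y hk hV' hp' hq' hkey hE hY hkl hpf he3 hb using hstep
  have hP0 : P (0, ⊤) := by
    refine ⟨?_, ?_, ?_⟩
    · exact (Group.fg_iff_subgroup_fg ⊤).1 inferInstance |>.elim fun T hT => ⟨T, hT⟩
    · intro x _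
      have h1 : q x ∈ (⁅(⊤ : Subgroup (FreeGroup (Fin m))),
          (⊤ : Subgroup (FreeGroup (Fin m)))⁆ : Subgroup (FreeGroup (Fin m))).map q := by
        rw [Subgroup.map_commutator, Subgroup.map_top_of_surjective q hq, hS.perfect]
        exact Subgroup.mem_top _
      obtain ⟨u, hu, hux⟩ := h1
      have h12 : u⁻¹ * x ∈ q.ker := by
        rw [MonoidHom.mem_ker, map_mul, map_inv, hux, inv_mul_cancel]
      have h13 : x = u * (u⁻¹ * x) := by rw [mul_inv_cancel_left]
      rw [h13]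
      exact mul_mem (Subgroup.mem_sup_left hu) (Subgroup.mem_sup_right h12)
    · exact Subgroup.map_top_of_surjective q hq
  let st : ℕ → {p // P p} := fun n => Nat.rec ⟨(0, ⊤), hP0⟩
    (fun _ s => ⟨(k' s, V' s), hV' s, hp' s, hq' s⟩) n
  have hst1 : ∀ n, (st (n + 1)).1.1 = k' (st n) := fun n => rfl
  have hst2 : ∀ n, (st (n + 1)).1.2 = V' (st n) := fun n => rfl
  have hmono : StrictMono fun n => k' (st n) := by
    apply strictMono_nat_of_lt_succ
    intro n
    have := hk (st (n + 1))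
    rw [hst1] at this
    exact this
  have hpos : ∀ n, 1 ≤ k' (st n) := fun n => lt_of_le_of_lt (Nat.zero_le _) (hk (st n))
  refine ⟨fun n => k' (st n), fun n => E (st n), fun n => Y (st n), hmono, hpos,
    fun n => hE (st n), fun n => hkl (st n), fun n => hb (st n), ?_⟩
  intro n l hln f hf y hy
  -- the image of the next subgroup is perfect
  have hmk : ∀ e ∈ E (st n), ((QuotientGroup.mk' (Dser q.ker (k' (st l)))).comp f) e = 1 := by
    intro e he
    rw [MonoidHom.comp_apply]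
    exact (QuotientGroup.eq_one_iff _).2 (hf e he)
  have hperf := hpf (st n) _ ((QuotientGroup.mk' (Dser q.ker (k' (st l)))).comp f) hmk
  rw [← Subgroup.map_map] at hperf
  have hyV : y ∈ V' (st n) := (hY (st n) y hy).1
  rcases lt_or_gt_of_ne hln with hlt | hgt
  · -- the index is smaller
    by_cases hle : (V' (st n)).map f ≤ Dser q.ker (k' (st l))
    · exact hle ⟨y, hyV, rfl⟩
    obtain ⟨j, hj⟩ : ∃ j, k' (st l) = j + 1 := ⟨k' (st l) - 1, by have := hpos l; omega⟩
    have htop : ((V' (st n)).map f).map q = ⊤ := by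
      refine map_eq_top hS q hq j ((V' (st n)).map f) ?_ ?_ ?_
      · exact fg_map f (V' (st n)) (hV' (st n))
      · rw [← hj]
        exact blk_noZ _ hperf
      · rw [← hj]
        exact hle
    have hξs : Function.Surjective (q.comp f) := by
      intro s
      have h1 : s ∈ ((V' (st n)).map f).map q := by
        rw [htop]
        exact Subgroup.mem_top _
      obtain ⟨_, ⟨v, hv, rfl⟩, hvs⟩ := h1
      exact ⟨v, hvs⟩
    have hξ : ∀ x ∈ Dser q.ker (k' (st n)), (q.comp f) x = 1 :=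
      he3 (st n) (q.comp f) (fun e he => (MonoidHom.mem_ker).1 (Dser_le q.ker _ (hf e he)))
    have hbot : (Dser q.ker (k' (st n))).map (q.comp f) = ⊥ := by
      rw [Subgroup.map_eq_bot_iff]
      exact fun x hx => hξ x hx
    rw [map_Dser_le] at hbot
    have hnorm : (q.ker.map (q.comp f)).Normal := Subgroup.Normal.map inferInstance _ hξs
    have hRbot : q.ker.map (q.comp f) = ⊥ := by
      rcases hS.simple _ hnorm with h | h
      · exact h
      · exfalso
        rw [h, blk_Dser_top hS] at hbot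
        exact top_ne_bot hbot
    have hRR : q.ker.map f ≤ q.ker := by
      rintro _ ⟨x, hx, rfl⟩
      have h2 : (q.comp f) x ∈ q.ker.map (q.comp f) := ⟨x, hx, rfl⟩
      rw [hRbot, Subgroup.mem_bot] at h2
      exact h2
    have hDD : (Dser q.ker (st n).1.1).map f ≤ Dser q.ker (st n).1.1 := by
      rw [map_Dser_le]
      exact Dser_mono hRR _
    have hle2 : k' (st l) ≤ (st n).1.1 := by
      obtain ⟨n', rfl⟩ : ∃ n', n = n' + 1 := ⟨n - 1, by omega⟩
      rw [hst1]
      exact hmono.monotone (by omega : l ≤ n')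
    exact Dser_anti q.ker hle2 (hDD ⟨y, (hY (st n) y hy).2, rfl⟩)
  · -- the index is larger
    have hle3 : k' (st (n + 1)) ≤ k' (st l) := hmono.monotone (by omega : n + 1 ≤ l)
    have h5 := hkey (st (n + 1)) (k' (st l)) hle3
    rw [hst2] at h5
    exact h5 f hperf ⟨y, hyV, rfl⟩

end Pool.Agent.H27.Ind
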