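import Pool.Agent.H27.Ind.Claim
import Pool.Agent.H27.Ind.Blocks

set_option autoImplicit false

/-!
# The independent basis
-/

namespace Pool.Agent.H27.Ind

open Pool.Agent.H83.Ord

/-- A homomorphism from a free group to a quotient of a free group lifts. -/
lemma exists_lift {m l : ℕ} (N : Subgroup (FreeGroup (Fin m))) [N.Normal]
    (f : FreeGroup (Fin l) →* FreeGroup (Fin m) ⧸ N) :
    ∃ f' : FreeGroup (Fin l) →* FreeGroup (Fin m), ∀ x, f x = QuotientGroup.mk' N (f' x) := by
  choose a ha using fun j : Fin l => QuotientGroup.mk'_surjective N (f (FreeGroup.of j))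
  refine ⟨FreeGroup.lift a, fun x => ?_⟩
  have : f = (QuotientGroup.mk' N).comp (FreeGroup.lift a) := by
    apply FreeGroup.ext_hom
    intro j
    rw [MonoidHom.comp_apply, FreeGroup.lift_apply_of, ha j]
  exact DFunLike.congr_fun this x

/-- The general theorem. -/
theorem main {S : Type} [Group S] (hS : Good S) {m : ℕ} (q : FreeGroup (Fin m) →* S)
    (hq : Function.Surjective q) (K : GroupClass) (hstar : Star K) (hkills : Kills K q.ker) :
    ∃ S : Set QuasiIdentity, Defines S K (fun G _ => TorsionFree G) ∧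
      IndependentIn S (fun G _ => TorsionFree G) := by
  obtain ⟨κ, E, Y, hmono, h1, hE, hKK, hb, hc⟩ := exists_blocks hS q hq K hkills
  choose φ hφ using fun n => exists_quasi (E n) (Y n)
  have hmk : ∀ (n : ℕ) (x : FreeGroup (Fin m)),
      QuotientGroup.mk' (Dser q.ker (κ n)) x = 1 ↔ x ∈ Dser q.ker (κ n) := fun n x =>
    QuotientGroup.eq_one_iff x
  refine independent_of_blocks K (fun G _ => TorsionFree G)
    (fun n => FreeGroup (Fin m) ⧸ Dser q.ker (κ n)) ?_ φ ?_ ?_ ?_ ?_
  · intro n
    obtain ⟨k, hk⟩ : ∃ k, κ n = k + 1 := ⟨κ n - 1, by have := h1 n; omega⟩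
    show TorsionFree _
    rw [hk]
    exact quot_torsionFree q.ker k
  · intro n G _ hG
    rw [hφ]
    intro f hf
    exact hKK n G f hG hf
  · intro n h
    rw [hφ] at h
    refine hb n (MonoidHom.id _) (fun x hx => hx) hq (fun y hy => ?_)
    rw [← hmk]
    exact h (QuotientGroup.mk' (Dser q.ker (κ n))) (fun e he => (hmk n e).2 (hE n e he)) y hy
  · intro n l hl
    rw [hφ]
    intro f hf y hy
    obtain ⟨f', hf'⟩ := exists_lift _ f
    rw [hf', hmk]
    refine hc n l hl f' (fun e he => ?_) y hy
    rw [← hmk, ← hf']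
    exact hf e he
  · intro G _ _ hTh hG
    exact main_claim hS q hq K hstar κ E Y hmono h1 hE hb G hTh (fun n x hx y hy =>
      (hφ n G).1 (hG n) x hx y hy)

end Pool.Agent.H27.Ind
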