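import Pool.Agent.H27.Ind.Defs

set_option autoImplicit false

/-!
# Conjunctions of quasi-identities and the block construction
-/

namespace Pool.Agent.H27.Ind

open Pool.Agent.H83.Ord

lemma blk_lift_map {α β G : Type} [Group G] (f : α → β) (v : β → G) (w : FreeGroup α) :
    FreeGroup.lift v (FreeGroup.map f w) = FreeGroup.lift (fun a => v (f a)) w := by
  have h : (FreeGroup.lift v).comp (FreeGroup.map f) = FreeGroup.lift (fun a => v (f a)) := by
    apply FreeGroup.ext_hom
    intro a
    simp
  rw [← h]; rfl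

lemma blk_lift_one {α G : Type} [Group G] (w : FreeGroup α) :
    FreeGroup.lift (fun _ : α => (1 : G)) w = 1 := by
  have h : FreeGroup.lift (fun _ : α => (1 : G)) = (1 : FreeGroup α →* G) := by
    apply FreeGroup.ext_hom
    intro a
    simp
  rw [h]; rfl

theorem exists_conj (σ τ : QuasiIdentity) : ∃ υ : QuasiIdentity, ∀ (G : Type) [Group G],
    υ.HoldsIn G ↔ (σ.HoldsIn G ∧ τ.HoldsIn G) := by
  obtain ⟨a, ps, c⟩ := σ
  obtain ⟨b, qs, d⟩ := τ
  refine ⟨⟨a + b, ps.map (FreeGroup.map (Fin.castAdd b)) ++ qs.map (FreeGroup.map (Fin.natAdd a)),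
    FreeGroup.map (Fin.castAdd b) c * FreeGroup.map (Fin.natAdd a) d⟩, ?_⟩
  intro G _
  constructor
  · intro h
    refine ⟨?_, ?_⟩
    · intro v hv
      have hL : (fun i => (Fin.append v (fun _ : Fin b => (1 : G))) (Fin.castAdd b i)) = v := by
        funext i
        exact Fin.append_left _ _ i
      have hR : (fun i => (Fin.append v (fun _ : Fin b => (1 : G))) (Fin.natAdd a i)) =
          fun _ => 1 := by
        funext i
        exact Fin.append_right _ _ i
      have h1 := h (Fin.append v (fun _ : Fin b => (1 : G))) (by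
        intro u hu
        rcases List.mem_append.1 hu with hu | hu
        · obtain ⟨w, hw, rfl⟩ := List.mem_map.1 hu
          rw [blk_lift_map, hL]
          exact hv w hw
        · obtain ⟨w, hw, rfl⟩ := List.mem_map.1 hu
          rw [blk_lift_map, hR]
          exact blk_lift_one w)
      change FreeGroup.lift _ (FreeGroup.map (Fin.castAdd b) c * FreeGroup.map (Fin.natAdd a) d) = 1
        at h1
      rw [map_mul, blk_lift_map, blk_lift_map, hL, hR, blk_lift_one, mul_one] at h1
      exact h1
    · intro v hv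
      have hL : (fun i => (Fin.append (fun _ : Fin a => (1 : G)) v) (Fin.castAdd b i)) =
          fun _ => 1 := by
        funext i
        exact Fin.append_left _ _ i
      have hR : (fun i => (Fin.append (fun _ : Fin a => (1 : G)) v) (Fin.natAdd a i)) = v := by
        funext i
        exact Fin.append_right _ _ i
      have h1 := h (Fin.append (fun _ : Fin a => (1 : G)) v) (by
        intro u hu
        rcases List.mem_append.1 hu with hu | hu
        · obtain ⟨w, hw, rfl⟩ := List.mem_map.1 hu
          rw [blk_lift_map, hL]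
          exact blk_lift_one w
        · obtain ⟨w, hw, rfl⟩ := List.mem_map.1 hu
          rw [blk_lift_map, hR]
          exact hv w hw)
      change FreeGroup.lift _ (FreeGroup.map (Fin.castAdd b) c * FreeGroup.map (Fin.natAdd a) d) = 1
        at h1
      rw [map_mul, blk_lift_map, blk_lift_map, hL, hR, blk_lift_one, one_mul] at h1
      exact h1
  · rintro ⟨h1, h2⟩ v hv
    change FreeGroup.lift _ (FreeGroup.map (Fin.castAdd b) c * FreeGroup.map (Fin.natAdd a) d) = 1
    rw [map_mul, blk_lift_map, blk_lift_map]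
    have e1 : FreeGroup.lift (fun i => v (Fin.castAdd b i)) c = 1 := by
      apply h1
      intro u hu
      have := hv (FreeGroup.map (Fin.castAdd b) u)
        (List.mem_append.2 (Or.inl (List.mem_map.2 ⟨u, hu, rfl⟩)))
      rwa [blk_lift_map] at this
    have e2 : FreeGroup.lift (fun i => v (Fin.natAdd a i)) d = 1 := by
      apply h2
      intro u hu
      have := hv (FreeGroup.map (Fin.natAdd a) u)
        (List.mem_append.2 (Or.inr (List.mem_map.2 ⟨u, hu, rfl⟩)))
      rwa [blk_lift_map] at this
    rw [e1, e2, one_mul]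

lemma blk_trivial (G : Type) [Group G] : (⟨0, [], 1⟩ : QuasiIdentity).HoldsIn G := by
  intro v _
  exact map_one _

instance blk_countable_freeGroup (n : ℕ) : Countable (FreeGroup (Fin n)) := by
  have h : Function.Surjective (FreeGroup.mk : List (Fin n × Bool) → FreeGroup (Fin n)) :=
    Quot.mk_surjective
  exact h.countable

instance blk_countable : Countable QuasiIdentity := by
  have h : Function.Injective (fun σ : QuasiIdentity =>
      (⟨σ.vars, σ.premises, σ.conclusion⟩ :
        Σ n : ℕ, List (FreeGroup (Fin n)) × FreeGroup (Fin n))) := by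
    rintro ⟨a, p, c⟩ ⟨b, q, d⟩ hab
    simp only [Sigma.mk.injEq] at hab
    obtain ⟨rfl, hab⟩ := hab
    have := eq_of_heq hab
    simp only [Prod.mk.injEq] at this
    obtain ⟨rfl, rfl⟩ := this
    rfl
  exact h.countable

theorem independent_of_blocks (K C : GroupClass) (P : ℕ → Type) [∀ n, Group (P n)]
    (hP : ∀ n, C (P n)) (φ : ℕ → QuasiIdentity)
    (hK : ∀ n (G : Type) [Group G], K G → (φ n).HoldsIn G)
    (hfail : ∀ n, ¬ (φ n).HoldsIn (P n))
    (hhold : ∀ n m, m ≠ n → (φ n).HoldsIn (P m))
    (hmain : ∀ (G : Type) [Group G], C G →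
      (∀ σ : QuasiIdentity, (∀ (G' : Type) [Group G'], K G' → σ.HoldsIn G') →
        (∀ n, σ.HoldsIn (P n)) → σ.HoldsIn G) → (∀ n, (φ n).HoldsIn G) → K G) :
    ∃ S : Set QuasiIdentity, Defines S K C ∧ IndependentIn S C := by
  let T : Set QuasiIdentity :=
    {σ | (∀ (G' : Type) [Group G'], K G' → σ.HoldsIn G') ∧ ∀ n, σ.HoldsIn (P n)}
  have hTne : T.Nonempty := ⟨⟨0, [], 1⟩, fun G' _ _ => blk_trivial G', fun n => blk_trivial (P n)⟩
  obtain ⟨e, he⟩ := (Set.to_countable T).exists_eq_range hTne
  have heT : ∀ n, e n ∈ T := fun n => by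
    rw [he]; exact ⟨n, rfl⟩
  choose ψ hψ using fun n => exists_conj (φ n) (e n)
  refine ⟨Set.range ψ, ?_, ?_⟩
  · intro G _ hC
    constructor
    · rintro hKG _ ⟨n, rfl⟩
      exact (hψ n G).2 ⟨hK n G hKG, (heT n).1 G hKG⟩
    · intro h
      refine hmain G hC ?_ ?_
      · intro σ h1 h2
        have hσ : σ ∈ T := ⟨h1, h2⟩
        rw [he] at hσ
        obtain ⟨n, rfl⟩ := hσ
        exact ((hψ n G).1 (h (ψ n) ⟨n, rfl⟩)).2
      · intro n
        exact ((hψ n G).1 (h (ψ n) ⟨n, rfl⟩)).1
  · rintro _ ⟨n, rfl⟩ hcon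
    have h1 := hcon (P n) (hP n) (by
      rintro τ ⟨⟨m, rfl⟩, hne⟩
      have hmn : n ≠ m := by
        rintro rfl
        exact hne rfl
      exact (hψ m (P n)).2 ⟨hhold m n hmn, (heT m).2 n⟩)
    exact hfail n ((hψ n (P n)).1 h1).1

lemma blk_single {m : ℕ} (E : Finset (FreeGroup (Fin m))) (y : FreeGroup (Fin m)) (G : Type)
    [Group G] : (⟨m, E.toList, y⟩ : QuasiIdentity).HoldsIn G ↔
      ∀ f : FreeGroup (Fin m) →* G, (∀ e ∈ E, f e = 1) → f y = 1 := by
  constructor
  · intro h f hf
    have hfe : FreeGroup.lift (fun i => f (FreeGroup.of i)) = f := by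
      apply FreeGroup.ext_hom
      intro i
      simp
    have h1 := h (fun i => f (FreeGroup.of i)) (by
      intro u hu
      have hu' : u ∈ E := Finset.mem_toList.1 hu
      change FreeGroup.lift (fun i => f (FreeGroup.of i)) u = 1
      rw [hfe]
      exact hf u hu')
    change FreeGroup.lift (fun i => f (FreeGroup.of i)) y = 1 at h1
    rwa [hfe] at h1
  · intro h v hv
    exact h (FreeGroup.lift v) (fun e he => hv e (Finset.mem_toList.2 he))

/-- finitely many premises and finitely many conclusions -/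
theorem exists_quasi {m : ℕ} (E Y : Finset (FreeGroup (Fin m))) : ∃ σ : QuasiIdentity,
    ∀ (G : Type) [Group G], σ.HoldsIn G ↔
      ∀ f : FreeGroup (Fin m) →* G, (∀ e ∈ E, f e = 1) → ∀ y ∈ Y, f y = 1 := by
  classical
  induction Y using Finset.induction_on with
  | empty =>
    refine ⟨⟨0, [], 1⟩, fun G _ => ⟨fun _ f _ y hy => ?_, fun _ => blk_trivial G⟩⟩
    exact absurd hy (Finset.notMem_empty y)
  | insert y Y _ ih =>
    obtain ⟨σ, hσ⟩ := ih
    obtain ⟨υ, hυ⟩ := exists_conj ⟨m, E.toList, y⟩ σ
    refine ⟨υ, fun G _ => ?_⟩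
    rw [hυ G, blk_single, hσ G]
    constructor
    · rintro ⟨h1, h2⟩ f hf z hz
      rcases Finset.mem_insert.1 hz with rfl | hz
      · exact h1 f hf
      · exact h2 f hf z hz
    · intro h
      exact ⟨fun f hf => h f hf y (Finset.mem_insert_self y Y),
        fun f hf z hz => h f hf z (Finset.mem_insert_of_mem hz)⟩

end Pool.Agent.H27.Ind
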