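import Pool.Agent.H27.Ind.Defs

set_option autoImplicit false

/-!
# A Goursat lemma for surjections onto a finite simple group
-/

namespace Pool.Agent.H27.Ind

open Pool.Agent.H83.Ord

lemma map_ker_eq_top {S : Type} [Group S] (hS : Good S) {Γ : Type} [Group Γ] (α α₀ : Γ →* S)
    (hα : Function.Surjective α) (hα₀ : Function.Surjective α₀) (hne : α.ker ≠ α₀.ker) :
    α.ker.map α₀ = ⊤ := by
  rcases hS.simple (α.ker.map α₀) (Subgroup.Normal.map inferInstance α₀ hα₀) with h | h
  · exfalso
    have h1 : α.ker ≤ α₀.ker := by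
      rw [Subgroup.map_eq_bot_iff] at h; exact h
    rcases hS.simple (α₀.ker.map α) (Subgroup.Normal.map inferInstance α hα) with h2 | h2
    · rw [Subgroup.map_eq_bot_iff] at h2
      exact hne (le_antisymm h1 h2)
    · have h3 : α₀.ker = ⊤ := by
        rw [eq_top_iff]
        intro x _
        have h4 : α x ∈ α₀.ker.map α := by rw [h2]; exact Subgroup.mem_top _
        obtain ⟨y, hy, hxy⟩ := h4
        have h5 : y⁻¹ * x ∈ α.ker := by
          rw [MonoidHom.mem_ker, map_mul, map_inv, hxy, inv_mul_cancel]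
        have h6 := α₀.ker.mul_mem hy (h1 h5)
        rwa [mul_inv_cancel_left] at h6
      obtain ⟨s, hs⟩ := @exists_ne S hS.nontriv 1
      obtain ⟨x, rfl⟩ := hα₀ s
      have : x ∈ α₀.ker := by rw [h3]; exact Subgroup.mem_top _
      exact hs this
  · exact h

lemma map_iInf_ker {S : Type} [Group S] (hS : Good S) {Γ : Type} [Group Γ] (α₀ : Γ →* S)
    (hα₀ : Function.Surjective α₀) (A : Finset (Γ →* S)) (hA : ∀ α ∈ A, Function.Surjective α)
    (hne : ∀ α ∈ A, α.ker ≠ α₀.ker) : (⨅ α ∈ A, α.ker).map α₀ = ⊤ := by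
  classical
  induction A using Finset.induction_on with
  | empty =>
    simp only [Finset.notMem_empty, iInf_false, iInf_top]
    exact Subgroup.map_top_of_surjective α₀ hα₀
  | insert α A hα ih =>
    have h1 := ih (fun β hβ => hA β (Finset.mem_insert_of_mem hβ))
      (fun β hβ => hne β (Finset.mem_insert_of_mem hβ))
    have h2 := map_ker_eq_top hS α α₀ (hA α (Finset.mem_insert_self _ _)) hα₀
      (hne α (Finset.mem_insert_self _ _))
    rw [Finset.iInf_insert]
    set N := ⨅ β ∈ A, β.ker with hN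
    have hNn : N.Normal := by
      rw [hN]
      refine Subgroup.normal_iInf_normal fun β => ?_
      exact Subgroup.normal_iInf_normal fun _ => inferInstance
    have h3 : ⁅α.ker, N⁆ ≤ α.ker ⊓ N := le_inf (Subgroup.commutator_le_left _ _)
      (Subgroup.commutator_le_right _ _)
    rw [eq_top_iff, ← hS.perfect]
    calc ⁅(⊤ : Subgroup S), (⊤ : Subgroup S)⁆ = ⁅α.ker.map α₀, N.map α₀⁆ := by rw [h1, h2]
      _ = (⁅α.ker, N⁆).map α₀ := (Subgroup.map_commutator _ _ _).symm
      _ ≤ (α.ker ⊓ N).map α₀ := Subgroup.map_mono h3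

theorem goursat {m : ℕ} {S : Type} [Group S] (hS : Good S) (q : FreeGroup (Fin m) →* S)
    (hq : Function.Surjective q) {Γ : Type} [Group Γ] (A : Finset (Γ →* S))
    (hA : ∀ α ∈ A, Function.Surjective α) :
    ∃ V : FreeGroup (Fin m) →* Γ, ∀ α ∈ A, (∀ x ∈ q.ker, α (V x) = 1) ∧
      Function.Surjective (α.comp V) := by
  classical
  induction A using Finset.induction_on with
  | empty => exact ⟨1, fun α hα => absurd hα (Finset.notMem_empty _)⟩
  | insert α₀ A hα₀ ih =>
    obtain ⟨V, hV⟩ := ih (fun β hβ => hA β (Finset.mem_insert_of_mem hβ))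
    have hs₀ := hA α₀ (Finset.mem_insert_self _ _)
    by_cases hex : ∃ α ∈ A, α.ker = α₀.ker
    · obtain ⟨α, hα, hker⟩ := hex
      refine ⟨V, fun β hβ => ?_⟩
      rcases Finset.mem_insert.1 hβ with rfl | hβ
      · refine ⟨fun x hx => ?_, fun s => ?_⟩
        · have : V x ∈ α.ker := (hV α hα).1 x hx
          rw [hker] at this; exact this
        · obtain ⟨γ, rfl⟩ := hs₀ s
          obtain ⟨x, hx⟩ := (hV α hα).2 (α γ)
          have h1 : γ⁻¹ * V x ∈ α.ker := by
            rw [MonoidHom.mem_ker, map_mul, map_inv, ← hx, MonoidHom.comp_apply, inv_mul_cancel]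
          rw [hker, MonoidHom.mem_ker, map_mul, map_inv] at h1
          exact ⟨x, by rw [MonoidHom.comp_apply]; exact (inv_mul_eq_one.1 h1).symm⟩
      · exact hV β hβ
    · push Not at hex
      have htop := map_iInf_ker hS α₀ hs₀ A (fun β hβ => hA β (Finset.mem_insert_of_mem hβ)) hex
      have hm : ∀ j : Fin m, ∃ x : Γ, x ∈ (⨅ α ∈ A, α.ker) ∧
          α₀ x = (α₀ (V (FreeGroup.of j)))⁻¹ * q (FreeGroup.of j) := by
        intro j
        have : (α₀ (V (FreeGroup.of j)))⁻¹ * q (FreeGroup.of j) ∈ (⨅ α ∈ A, α.ker).map α₀ := by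
          rw [htop]; exact Subgroup.mem_top _
        obtain ⟨x, hx, h⟩ := this
        exact ⟨x, hx, h⟩
      choose M hM1 hM2 using hm
      refine ⟨FreeGroup.lift fun j => V (FreeGroup.of j) * M j, fun β hβ => ?_⟩
      rcases Finset.mem_insert.1 hβ with rfl | hβ
      · have h1 : β.comp (FreeGroup.lift fun j => V (FreeGroup.of j) * M j) = q := by
          ext j
          simp [hM2]
        refine ⟨fun x hx => ?_, ?_⟩
        · rw [← MonoidHom.comp_apply, h1]; exact hx
        · rw [h1]; exact hq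
      · have h1 : β.comp (FreeGroup.lift fun j => V (FreeGroup.of j) * M j) = β.comp V := by
          ext j
          have : M j ∈ β.ker := by
            have h2 := hM1 j
            simp only [Subgroup.mem_iInf] at h2
            exact h2 β hβ
          simp [MonoidHom.mem_ker.1 this]
        refine ⟨fun x hx => ?_, ?_⟩
        · rw [← MonoidHom.comp_apply, h1]; exact (hV β hβ).1 x hx
        · rw [h1]; exact (hV β hβ).2

end Pool.Agent.H27.Ind
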