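import Pool.Agent.H27.Ind.Defs
import Pool.Agent.H27.Ind.Goursat
import Pool.Agent.H27.Ind.Quot
import Pool.Agent.H27.Ind.Block
import Pool.Agent.H27.Ind.Perfect
import Pool.Agent.H27.Ind.Key

set_option autoImplicit false

/-!
# The claim: a group satisfying the theory and all blocks lies in the class
-/

namespace Pool.Agent.H27.Ind

open Pool.Agent.H83.Ord

namespace Claim

theorem exists_lift {s : ℕ} {F : Type} [Group F] (N : Subgroup F) [N.Normal]
    (f : FreeGroup (Fin s) →* F ⧸ N) :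
    ∃ t : FreeGroup (Fin s) →* F, ∀ x, f x = QuotientGroup.mk' N (t x) := by
  choose a ha using fun i => QuotientGroup.mk'_surjective N (f (FreeGroup.of i))
  refine ⟨FreeGroup.lift a, fun x => ?_⟩
  have h : f = (QuotientGroup.mk' N).comp (FreeGroup.lift a) := by
    apply FreeGroup.ext_hom
    intro i
    rw [MonoidHom.comp_apply, FreeGroup.lift_apply_of, ha]
  exact DFunLike.congr_fun h x

theorem mk_eq_one {F : Type} [Group F] (N : Subgroup F) [N.Normal] (x : F) :
    QuotientGroup.mk' N x = 1 ↔ x ∈ N := by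
  rw [QuotientGroup.mk'_apply, QuotientGroup.eq_one_iff]

theorem holdsIn_quot {s : ℕ} {F : Type} [Group F] (N : Subgroup F) [N.Normal]
    {E Y : Finset (FreeGroup (Fin s))} {σ : QuasiIdentity}
    (hσ : ∀ (G : Type) [Group G], σ.HoldsIn G ↔
      ∀ f : FreeGroup (Fin s) →* G, (∀ e ∈ E, f e = 1) → ∀ y ∈ Y, f y = 1)
    (h : ∀ t : FreeGroup (Fin s) →* F, (∀ e ∈ E, t e ∈ N) → ∀ y ∈ Y, t y ∈ N) :
    σ.HoldsIn (F ⧸ N) := by
  rw [hσ]
  intro f hf y hy
  obtain ⟨t, ht⟩ := exists_lift N f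
  rw [ht, mk_eq_one]
  refine h t (fun e he => ?_) y hy
  rw [← mk_eq_one, ← ht]
  exact hf e he

end Claim

open Claim

/-- section (6) of the note -/
theorem main_claim {S : Type} [Group S] (hS : Good S) {m : ℕ} (q : FreeGroup (Fin m) →* S)
    (hq : Function.Surjective q) (K : GroupClass) (hstar : Star K)
    (κ : ℕ → ℕ) (E Y : ℕ → Finset (FreeGroup (Fin m)))
    (hmono : StrictMono κ) (h1 : ∀ n, 1 ≤ κ n)
    (hE : ∀ n, ∀ e ∈ E n, e ∈ Dser q.ker (κ n))
    (hb : ∀ n (η : FreeGroup (Fin m) →* FreeGroup (Fin m)), (∀ x ∈ q.ker, q (η x) = 1) →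
        Function.Surjective (q.comp η) → ¬ ∀ y ∈ Y n, η y ∈ Dser q.ker (κ n))
    (G : Type) [Group G]
    (hTh : ∀ σ : QuasiIdentity, (∀ (G' : Type) [Group G'], K G' → σ.HoldsIn G') →
      (∀ n, σ.HoldsIn (FreeGroup (Fin m) ⧸ Dser q.ker (κ n))) → σ.HoldsIn G)
    (hφ : ∀ n (x : FreeGroup (Fin m) →* G), (∀ e ∈ E n, x e = 1) → ∀ y ∈ Y n, x y = 1) :
    K G := by
  classical
  by_contra hK
  obtain ⟨s, r, g, u, Es, hEsg, hNoZ, hKill, i0, hi0⟩ := hstar G hK
  have hSfin : Finite S := hS.fin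
  have hfinHom : Finite (FreeGroup (Fin r) →* S) := Finite.of_equiv _ (FreeGroup.lift (α := Fin r) (β := S))
  set U : FreeGroup (Fin r) →* FreeGroup (Fin s) := FreeGroup.lift u with hU
  have hUof : ∀ i, U (FreeGroup.of i) = u i := fun i => FreeGroup.lift_apply_of
  -- (i)
  obtain ⟨k0, hk0⟩ := key hS q hq r
  have hcl : ∀ t : FreeGroup (Fin s) →* FreeGroup (Fin m),
      (t.comp U).range = Subgroup.closure (Set.range fun i => t (u i)) := by
    intro t
    have e1 : t.comp U = FreeGroup.lift fun i => t (u i) := by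
      apply FreeGroup.ext_hom
      intro i
      rw [MonoidHom.comp_apply, hUof, FreeGroup.lift_apply_of]
    rw [e1, FreeGroup.range_lift_eq_closure]
  have hNoZ' : ∀ n (t : FreeGroup (Fin s) →* FreeGroup (Fin m)),
      (∀ e ∈ Es, t e ∈ Dser q.ker (κ n)) →
      NoZ ((Subgroup.closure (Set.range fun i => t (u i))).map
        (QuotientGroup.mk' (Dser q.ker (κ n)))) := by
    intro n t ht
    have h := hNoZ _ ((QuotientGroup.mk' (Dser q.ker (κ n))).comp t) (fun e he => by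
      rw [MonoidHom.comp_apply, mk_eq_one]
      exact ht e he)
    have e1 : (Subgroup.closure (Set.range fun i => t (u i))).map
        (QuotientGroup.mk' (Dser q.ker (κ n))) =
        Subgroup.closure (Set.range fun i =>
          ((QuotientGroup.mk' (Dser q.ker (κ n))).comp t) (u i)) := by
      rw [MonoidHom.map_closure, ← Set.range_comp]
      rfl
    rw [e1]
    exact h
  have hi : ∀ n, k0 ≤ n → ∀ t : FreeGroup (Fin s) →* FreeGroup (Fin m),
      (∀ e ∈ Es, t e ∈ Dser q.ker (κ n)) → ∀ i, t (u i) ∈ Dser q.ker (κ n) := by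
    intro n hn t ht
    exact hk0 (κ n) (hn.trans (hmono.le_apply)) _ (hNoZ' n t ht)
  -- (ii)
  have hii : ∀ n (t : FreeGroup (Fin s) →* FreeGroup (Fin m)),
      (∀ e ∈ Es, t e ∈ Dser q.ker (κ n)) → ¬ (∀ i, t (u i) ∈ Dser q.ker (κ n)) →
      Function.Surjective (q.comp (t.comp U)) := by
    intro n t ht hnot
    obtain ⟨k, hk⟩ : ∃ k, κ n = k + 1 := ⟨κ n - 1, by have := h1 n; omega⟩
    have hZ := hNoZ' n t ht
    rw [hk] at hZ hnot
    have h := map_eq_top hS q hq k (Subgroup.closure (Set.range fun i => t (u i)))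
      ((Subgroup.fg_iff _).2 ⟨_, rfl, Set.finite_range _⟩) hZ (fun hle => hnot fun i =>
        hle (Subgroup.subset_closure ⟨i, rfl⟩))
    rw [← MonoidHom.range_eq_top, ← MonoidHom.map_range, hcl, h]
  -- (iii)
  let A : ℕ → Finset (FreeGroup (Fin s)) → Set (FreeGroup (Fin r) →* S) := fun n E' =>
    {α | ∃ t : FreeGroup (Fin s) →* FreeGroup (Fin m), (∀ e ∈ E', t e ∈ Dser q.ker (κ n)) ∧
      α = q.comp (t.comp U) ∧ Function.Surjective α}
  have hAanti : ∀ n {E' E''}, E' ⊆ E'' → A n E'' ⊆ A n E' := by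
    rintro n E' E'' h α ⟨t, ht, hα⟩
    exact ⟨t, fun e he => ht e (h he), hα⟩
  obtain ⟨E1, ⟨hE1s, hE1g⟩, hmin⟩ : ∃ E1 : Finset (FreeGroup (Fin s)),
      (Es ⊆ E1 ∧ ∀ e ∈ E1, FreeGroup.lift g e = 1) ∧
      ∀ E', Es ⊆ E' → (∀ e ∈ E', FreeGroup.lift g e = 1) →
        ∑ n ∈ Finset.range k0, (A n E1).ncard ≤ ∑ n ∈ Finset.range k0, (A n E').ncard := by
    obtain ⟨E1, hE1, hm⟩ := (measure fun E' : Finset (FreeGroup (Fin s)) =>
      ∑ n ∈ Finset.range k0, (A n E').ncard).wf.has_min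
      {E' | Es ⊆ E' ∧ ∀ e ∈ E', FreeGroup.lift g e = 1} ⟨Es, Finset.Subset.refl _, hEsg⟩
    exact ⟨E1, hE1, fun E' h2 h3 => not_lt.1 (hm E' ⟨h2, h3⟩)⟩
  have hstab : ∀ E', E1 ⊆ E' → (∀ e ∈ E', FreeGroup.lift g e = 1) → ∀ n < k0,
      A n E' = A n E1 := by
    intro E' hsub hE'g n hn
    by_contra hne
    have h2 := hmin E' (hE1s.trans hsub) hE'g
    have h3 : ∑ n ∈ Finset.range k0, (A n E').ncard < ∑ n ∈ Finset.range k0, (A n E1).ncard := by
      apply Finset.sum_lt_sum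
      · intro j _
        exact Set.ncard_le_ncard (hAanti j hsub) (Set.toFinite _)
      · refine ⟨n, Finset.mem_range.2 hn, Set.ncard_lt_ncard ?_ (Set.toFinite _)⟩
        exact ⟨hAanti n hsub, fun h => hne (Set.Subset.antisymm (hAanti n hsub) h)⟩
    exact absurd h2 (not_le.2 h3)
  -- membership
  have hmem : ∀ n (t : FreeGroup (Fin s) →* FreeGroup (Fin m)),
      (∀ e ∈ E1, t e ∈ Dser q.ker (κ n)) → ¬ (∀ i, t (u i) ∈ Dser q.ker (κ n)) →
      n < k0 ∧ q.comp (t.comp U) ∈ A n E1 := by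
    intro n t ht hnot
    have ht' : ∀ e ∈ Es, t e ∈ Dser q.ker (κ n) := fun e he => ht e (hE1s he)
    refine ⟨?_, t, ht, rfl, hii n t ht' hnot⟩
    by_contra hn
    exact hnot (hi n (not_lt.1 hn) t ht')
  have hKU : ∀ (X : Type) [Group X] (f : FreeGroup (Fin s) →* X), K X → (∀ e ∈ E1, f e = 1) →
      ∀ i, f (u i) = 1 := fun X _ f hX hf => hKill X f hX fun e he => hf e (hE1s he)
  -- (iv)
  have hex : ∃ n < k0, (A n E1).Nonempty := by
    by_contra hcon
    push Not at hcon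
    obtain ⟨σ, hσ⟩ := exists_quasi E1 (Finset.univ.image u)
    have hG := hTh σ
      (fun X _ hX => (hσ X).2 fun f hf y hy => by
        obtain ⟨i, -, rfl⟩ := Finset.mem_image.1 hy
        exact hKU X f hX hf i)
      (fun n => holdsIn_quot _ hσ fun t ht y hy => by
        obtain ⟨i, -, rfl⟩ := Finset.mem_image.1 hy
        by_contra hnot
        obtain ⟨h2, h3⟩ := hmem n t ht fun h => hnot (h i)
        rw [hcon n h2] at h3
        exact h3)
    exact hi0 ((hσ G).1 hG (FreeGroup.lift g) hE1g (u i0)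
      (Finset.mem_image.2 ⟨i0, Finset.mem_univ _, rfl⟩))
  obtain ⟨N, hNk, hNne, hNmax⟩ : ∃ N < k0, (A N E1).Nonempty ∧
      ∀ n < k0, (A n E1).Nonempty → n ≤ N := by
    have hT : ((Finset.range k0).filter fun n => (A n E1).Nonempty).Nonempty := by
      obtain ⟨n, hn, h2⟩ := hex
      exact ⟨n, Finset.mem_filter.2 ⟨Finset.mem_range.2 hn, h2⟩⟩
    have h2 := Finset.mem_filter.1 (Finset.max'_mem _ hT)
    exact ⟨_, Finset.mem_range.1 h2.1, h2.2, fun n hn h3 =>
      Finset.le_max' _ _ (Finset.mem_filter.2 ⟨Finset.mem_range.2 hn, h3⟩)⟩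
  -- (v)
  have hfinA : {α : FreeGroup (Fin r) →* S | ∃ n < k0, α ∈ A n E1}.Finite := Set.toFinite _
  obtain ⟨V, hV⟩ := goursat hS q hq (Γ := FreeGroup (Fin r)) hfinA.toFinset (by
    intro α hα
    obtain ⟨n, -, t, -, -, h3⟩ := hfinA.mem_toFinset.1 hα
    exact h3)
  replace hV : ∀ n < k0, ∀ α ∈ A n E1, (∀ x ∈ q.ker, α (V x) = 1) ∧
      Function.Surjective (α.comp V) := fun n hn α hα =>
    hV α (hfinA.mem_toFinset.2 ⟨n, hn, hα⟩)
  -- (vi)
  obtain ⟨σ, hσ⟩ := exists_quasi E1 ((E N).image fun e => U (V e))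
  have hG := hTh σ
    (fun X _ hX => (hσ X).2 fun f hf y hy => by
      obtain ⟨e, -, rfl⟩ := Finset.mem_image.1 hy
      have h2 : f.comp U = 1 := by
        apply FreeGroup.ext_hom
        intro i
        rw [MonoidHom.comp_apply, hUof, hKU X f hX hf i, MonoidHom.one_apply]
      exact DFunLike.congr_fun h2 (V e))
    (fun n => holdsIn_quot _ hσ fun t ht y hy => by
      obtain ⟨e, he, rfl⟩ := Finset.mem_image.1 hy
      by_cases hall : ∀ i, t (u i) ∈ Dser q.ker (κ n)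
      · have h2 : (QuotientGroup.mk' (Dser q.ker (κ n))).comp (t.comp U) = 1 := by
          apply FreeGroup.ext_hom
          intro i
          rw [MonoidHom.comp_apply, MonoidHom.comp_apply, hUof, MonoidHom.one_apply, mk_eq_one]
          exact hall i
        rw [← mk_eq_one]
        exact DFunLike.congr_fun h2 (V e)
      · obtain ⟨h2, h3⟩ := hmem n t ht hall
        have hnN := hNmax n h2 ⟨_, h3⟩
        have h4 := (hV n h2 _ h3).1
        set f : FreeGroup (Fin m) →* FreeGroup (Fin m) := t.comp (U.comp V) with hf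
        have h5 : q.ker.map f ≤ q.ker := by
          rintro _ ⟨x, hx, rfl⟩
          exact h4 x hx
        have h6 : e ∈ Dser q.ker (κ n) := Dser_anti q.ker (hmono.monotone hnN) (hE N e he)
        have h7 : f e ∈ Dser (q.ker.map f) (κ n) := by
          rw [← map_Dser_le]
          exact ⟨e, h6, rfl⟩
        exact Dser_mono h5 _ h7)
  have hx := hφ N ((FreeGroup.lift g).comp (U.comp V)) (fun e he =>
    (hσ G).1 hG (FreeGroup.lift g) hE1g (U (V e)) (Finset.mem_image.2 ⟨e, he, rfl⟩))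
  -- (vii)
  have hE' := hstab (E1 ∪ (Y N).image fun y => U (V y)) Finset.subset_union_left (by
    intro e he
    rcases Finset.mem_union.1 he with h | h
    · exact hE1g e h
    · obtain ⟨y, hy, rfl⟩ := Finset.mem_image.1 h
      exact hx y hy) N hNk
  obtain ⟨α, hα⟩ := hNne
  have hα' := hα
  rw [← hE'] at hα'
  obtain ⟨t, ht, rfl, hsurj⟩ := hα'
  obtain ⟨h2, h3⟩ := hV N hNk _ hα
  refine hb N (t.comp (U.comp V)) (fun x hx => h2 x hx) h3 fun y hy => ?_
  exact ht _ (Finset.mem_union_right _ (Finset.mem_image.2 ⟨y, hy, rfl⟩))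

end Pool.Agent.H27.Ind
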