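import Pool.Agent.H27.Ind.AddFun

set_option autoImplicit false

/-!
# Extending and lifting additive functions
-/

namespace Pool.Agent.H27.Ind

open Module

variable {F : Type*} [Group F]

lemma normalizer_commutator {U : Subgroup F} {h : F} (hU : h ∈ Subgroup.normalizer (U : Set F)) :
    h ∈ Subgroup.normalizer ((⁅U, U⁆ : Subgroup F) : Set F) := by
  rw [Subgroup.mem_normalizer_iff_map_conj_eq] at hU ⊢
  have : (⁅U, U⁆ : Subgroup F).map (MulAut.conj h).toMonoidHom = ⁅U, U⁆ := by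
    rw [Subgroup.map_commutator]
    have h2 : U.map (MulAut.conj h).toMonoidHom = U := hU
    rw [h2]
  exact this

lemma normalizer_self_le (U : Subgroup F) {u : F} (hu : u ∈ U) :
    u ∈ Subgroup.normalizer (U : Set F) := Subgroup.le_normalizer hu

lemma norm_conj {D : Subgroup F} {h u : F} (hD : h ∈ Subgroup.normalizer (D : Set F))
    (hu : u ∈ D) : h * u * h⁻¹ ∈ D := (Subgroup.mem_normalizer_iff.1 hD u).1 hu

lemma norm_conj' {D : Subgroup F} {h u : F} (hD : h ∈ Subgroup.normalizer (D : Set F))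
    (hu : u ∈ D) : h⁻¹ * u * h ∈ D := (Subgroup.mem_normalizer_iff''.1 hD u).1 hu

lemma mul_form (x x' u u' h : F) (i j : ℤ) : (x * h ^ i * u) * (x' * h ^ j * u') =
    (x * (h ^ i * x' * (h ^ i)⁻¹)) * h ^ (i + j) *
      (((h ^ j)⁻¹ * (x'⁻¹ * u * x') * h ^ j) * u') := by
  rw [zpow_add]
  group

lemma inv_form (x u h : F) (i : ℤ) : (x * h ^ i * u)⁻¹ =
    ((h ^ i)⁻¹ * x⁻¹ * h ^ i) * h ^ (-i) * (x * (h ^ i * u⁻¹ * (h ^ i)⁻¹) * x⁻¹) := by
  rw [zpow_neg]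
  group

/-- The subgroup of the elements `x hⁱ u`. -/
def ZS (X D : Subgroup F) (h : F) (hX : h ∈ Subgroup.normalizer (X : Set F))
    (hD : h ∈ Subgroup.normalizer (D : Set F)) (hXD : X ≤ Subgroup.normalizer (D : Set F)) :
    Subgroup F where
  carrier := {z | ∃ x ∈ X, ∃ i : ℤ, ∃ u ∈ D, z = x * h ^ i * u}
  mul_mem' := by
    rintro _ _ ⟨x, hx, i, u, hu, rfl⟩ ⟨x', hx', j, u', hu', rfl⟩
    refine ⟨_, X.mul_mem hx (norm_conj (Subgroup.zpow_mem _ hX i) hx'), i + j, _,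
      D.mul_mem (norm_conj' (Subgroup.zpow_mem _ hD j) (norm_conj' (hXD hx') hu)) hu', ?_⟩
    exact mul_form x x' u u' h i j
  one_mem' := ⟨1, X.one_mem, 0, 1, D.one_mem, by simp⟩
  inv_mem' := by
    rintro _ ⟨x, hx, i, u, hu, rfl⟩
    refine ⟨_, norm_conj' (Subgroup.zpow_mem _ hX i) (X.inv_mem hx), -i, _,
      norm_conj (hXD hx) (norm_conj (Subgroup.zpow_mem _ hD i) (D.inv_mem hu)), ?_⟩
    exact inv_form x u h i

lemma le_ZS (X D : Subgroup F) (h : F) (hX : h ∈ Subgroup.normalizer (X : Set F))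
    (hD : h ∈ Subgroup.normalizer (D : Set F)) (hXD : X ≤ Subgroup.normalizer (D : Set F)) :
    X ⊔ Subgroup.zpowers h ⊔ D ≤ ZS X D h hX hD hXD := by
  refine sup_le (sup_le ?_ ?_) ?_
  · intro x hx
    exact ⟨x, hx, 0, 1, D.one_mem, by simp⟩
  · rw [Subgroup.zpowers_le]
    exact ⟨1, X.one_mem, 1, 1, D.one_mem, by simp⟩
  · intro u hu
    exact ⟨1, X.one_mem, 0, u, hu, by simp⟩

/-- Extending an invariant additive function. -/
lemma extend_add {X D : Subgroup F} {h : F} {l : ℕ} {A : Type*} [AddCommGroup A]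
    (hX : h ∈ Subgroup.normalizer (X : Set F))
    (hD : h ∈ Subgroup.normalizer (D : Set F)) (hXD : X ≤ Subgroup.normalizer (D : Set F))
    (hh : h ^ l ∈ X) (hdiv : ∀ i : ℤ, ∀ u ∈ D, h ^ i * u ∈ X → (l : ℤ) ∣ i)
    (ψ : F → A) (hψ : AddOn X ψ) (hinv : ∀ x ∈ X, ψ (h * x * h⁻¹) = ψ x)
    (hvan : ∀ x ∈ X, x ∈ D → ψ x = 0) (hl0 : ψ (h ^ l) = 0) (c : A) (hc : (l : ℤ) • c = 0) :
    ∃ Ψ : F → A, AddOn (ZS X D h hX hD hXD) Ψ ∧ (∀ x ∈ X, Ψ x = ψ x) ∧ Ψ h = c := by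
  -- the value does not depend on the form
  have wd : ∀ x ∈ X, ∀ i : ℤ, ∀ u ∈ D, ∀ x' ∈ X, ∀ j : ℤ, ∀ u' ∈ D,
      x * h ^ i * u = x' * h ^ j * u' → ψ x + i • c = ψ x' + j • c := by
    intro x hx i u hu x' hx' j u' hu' heq
    have hy : x'⁻¹ * x ∈ X := X.mul_mem (X.inv_mem hx') hx
    set v := h ^ j * (u' * u⁻¹) * (h ^ j)⁻¹ with hv
    have hvD : v ∈ D := norm_conj (Subgroup.zpow_mem _ hD j) (D.mul_mem hu' (D.inv_mem hu))
    have h1 : (x'⁻¹ * x) * h ^ (i - j) = v := by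
      rw [zpow_sub, hv]
      have : x * h ^ i = x' * h ^ j * u' * u⁻¹ := by rw [← heq]; group
      calc x'⁻¹ * x * (h ^ i * (h ^ j)⁻¹) = x'⁻¹ * (x * h ^ i) * (h ^ j)⁻¹ := by group
        _ = _ := by rw [this]; group
    have h2 : h ^ (i - j) * v⁻¹ ∈ X := by
      have : h ^ (i - j) * v⁻¹ = (x'⁻¹ * x)⁻¹ := by rw [← h1]; group
      rw [this]
      exact X.inv_mem hy
    obtain ⟨m, hm⟩ := hdiv (i - j) v⁻¹ (D.inv_mem hvD) h2
    have h3 : h ^ (i - j) = (h ^ l) ^ m := by rw [hm, zpow_mul, zpow_natCast]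
    have h4 : ∀ m : ℤ, ψ ((h ^ l) ^ m) = 0 := by
      intro m
      rcases Int.eq_nat_or_neg m with ⟨n, rfl | rfl⟩
      · rw [zpow_natCast, hψ.pow hh, hl0, smul_zero]
      · rw [zpow_neg, zpow_natCast, hψ.inv (X.pow_mem hh n), hψ.pow hh, hl0, smul_zero, neg_zero]
    have h5 : (h ^ l) ^ m ∈ X := X.zpow_mem hh m
    have h6 : ψ ((x'⁻¹ * x) * (h ^ l) ^ m) = 0 := by
      apply hvan _ (X.mul_mem hy h5)
      rw [← h3, h1]
      exact hvD
    rw [hψ _ hy _ h5, h4 m, add_zero, hψ _ (X.inv_mem hx') _ hx, hψ.inv hx'] at h6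
    have h7 : ψ x = ψ x' := by
      have := neg_add_eq_zero.1 h6
      exact this.symm
    have h8 : (i - j) • c = 0 := by rw [hm, mul_comm, mul_smul, hc, smul_zero]
    rw [sub_smul, sub_eq_zero] at h8
    rw [h7, h8]
  have ex : ∀ z : F, ∃ a : A, ∀ x ∈ X, ∀ i : ℤ, ∀ u ∈ D, z = x * h ^ i * u → a = ψ x + i • c := by
    intro z
    by_cases hz : ∃ x ∈ X, ∃ i : ℤ, ∃ u ∈ D, z = x * h ^ i * u
    · obtain ⟨x, hx, i, u, hu, hz⟩ := hz
      exact ⟨ψ x + i • c, fun x' hx' j u' hu' hz' =>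
        wd x hx i u hu x' hx' j u' hu' (hz.symm.trans hz')⟩
    · push Not at hz
      exact ⟨0, fun x' hx' j u' hu' hz' => absurd hz' (hz x' hx' j u' hu')⟩
  choose Ψ hΨ using ex
  have hpow : ∀ n : ℕ, ∀ x ∈ X, ψ (h ^ n * x * (h ^ n)⁻¹) = ψ x := by
    intro n
    induction n with
    | zero => intro x _; simp
    | succ n ih =>
      intro x hx
      have : h ^ (n + 1) * x * (h ^ (n + 1))⁻¹ = h * (h ^ n * x * (h ^ n)⁻¹) * h⁻¹ := by
        rw [pow_succ']; group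
      rw [this, hinv _ (norm_conj (Subgroup.pow_mem _ hX n) hx), ih x hx]
  have hzpow : ∀ i : ℤ, ∀ x ∈ X, ψ (h ^ i * x * (h ^ i)⁻¹) = ψ x := by
    intro i x hx
    rcases Int.eq_nat_or_neg i with ⟨n, rfl | rfl⟩
    · rw [zpow_natCast]; exact hpow n x hx
    · have h1 : h ^ (-(n : ℤ)) * x * (h ^ (-(n : ℤ)))⁻¹ ∈ X :=
        norm_conj (Subgroup.zpow_mem _ hX _) hx
      rw [← hpow n _ h1]
      congr 1
      rw [zpow_neg, zpow_natCast]
      group
  refine ⟨Ψ, ?_, ?_, ?_⟩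
  · rintro _ ⟨x, hx, i, u, hu, rfl⟩ _ ⟨x', hx', j, u', hu', rfl⟩
    rw [hΨ _ x hx i u hu rfl, hΨ _ x' hx' j u' hu' rfl,
      hΨ _ _ (X.mul_mem hx (norm_conj (Subgroup.zpow_mem _ hX i) hx')) (i + j) _
        (D.mul_mem (norm_conj' (Subgroup.zpow_mem _ hD j) (norm_conj' (hXD hx') hu)) hu')
        (mul_form x x' u u' h i j),
      hψ _ hx _ (norm_conj (Subgroup.zpow_mem _ hX i) hx'), hzpow i x' hx', add_smul]
    abel
  · intro x hx
    rw [hΨ x x hx 0 1 D.one_mem (by simp), zero_smul, add_zero]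
  · rw [hΨ h 1 X.one_mem 1 1 D.one_mem (by simp), hψ.one, one_smul, zero_add]

/-- Additive functions modulo a prime lift on a free group. -/
lemma lift_add [IsFreeGroup F] (Z : Subgroup F) (l : ℕ) [NeZero l] (φ : F → ZMod l)
    (hφ : AddOn Z φ) : ∃ Φ : F → ℤ, AddOn Z Φ ∧ ∀ z ∈ Z, ((Φ z : ℤ) : ZMod l) = φ z := by
  classical
  let f : Z →* Multiplicative (ZMod l) :=
    { toFun := fun z => Multiplicative.ofAdd (φ z)
      map_one' := by rw [Subgroup.coe_one, hφ.one]; rfl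
      map_mul' := fun x y => by
        rw [Subgroup.coe_mul, hφ _ x.2 _ y.2]; rfl }
  let g : Z →* Multiplicative ℤ := IsFreeGroup.lift
    (fun a => Multiplicative.ofAdd (((Multiplicative.toAdd (f (IsFreeGroup.of a))) : ZMod l).cast : ℤ))
  let red : Multiplicative ℤ →* Multiplicative (ZMod l) :=
    AddMonoidHom.toMultiplicative (Int.castAddHom (ZMod l))
  have hred : red.comp g = f := by
    apply IsFreeGroup.ext_hom
    intro a
    have h1 : g (IsFreeGroup.of a) = Multiplicative.ofAdd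
        (((Multiplicative.toAdd (f (IsFreeGroup.of a))) : ZMod l).cast : ℤ) :=
      IsFreeGroup.lift_of _ a
    rw [MonoidHom.comp_apply, h1]
    show Multiplicative.ofAdd
      (((((Multiplicative.toAdd (f (IsFreeGroup.of a))) : ZMod l).cast : ℤ)) : ZMod l) = _
    rw [ZMod.intCast_zmod_cast]
    rfl
  refine ⟨fun z => if hz : z ∈ Z then Multiplicative.toAdd (g ⟨z, hz⟩) else 0, ?_, ?_⟩
  · intro x hx y hy
    simp only [dif_pos hx, dif_pos hy, dif_pos (Z.mul_mem hx hy)]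
    have : (⟨x * y, Z.mul_mem hx hy⟩ : Z) = ⟨x, hx⟩ * ⟨y, hy⟩ := rfl
    rw [this, map_mul]; rfl
  · intro z hz
    simp only [dif_pos hz]
    have := DFunLike.congr_fun hred ⟨z, hz⟩
    exact congrArg Multiplicative.toAdd this

end Pool.Agent.H27.Ind
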