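import Pool.Agent.H27.Ind.RO1
import Pool.Agent.H27.Ind.LI

set_option autoImplicit false

/-!
# Right-orderable groups: virtually solvable groups, and the conditions `Kills` and `Star`
-/

namespace Pool.Agent.H27.Ind

open Pool.Agent.H83.Ord Pool.Agent.H27.Ord

section Mean

variable {G : Type*} [Group G]

/-- Groups with a normal solvable subgroup of finite index have invariant finitely additive
probability measures. -/
theorem exists_invariant_mean_virtually {Ω : Type*} [MulAction G Ω] (N : Subgroup G)
    [N.FiniteIndex] (hs : Group.IsSolvable N) (hne : Nonempty Ω) :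
    ∃ m : Set Ω → ℝ, IsMean m ∧ ∀ g : G, TT g m = m := by
  classical
  obtain ⟨m₀, hm₀, hinv₀⟩ := exists_invariant_mean (G := N) (Ω := Ω) hs hne
  have hinv : ∀ n ∈ N, TT n m₀ = m₀ := fun n hn => hinv₀ ⟨n, hn⟩
  have : Fintype (G ⧸ N) := Subgroup.fintypeQuotientOfFiniteIndex
  have hout : ∀ g : G, TT ((QuotientGroup.mk g : G ⧸ N).out) m₀ = TT g m₀ := by
    intro g
    obtain ⟨h, hh⟩ := QuotientGroup.mk_out_eq_mul N g
    rw [hh, TT_mul, hinv h.1 h.2]
  have hcard : (0 : ℝ) < (Fintype.card (G ⧸ N) : ℝ) := by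
    have : Nonempty (G ⧸ N) := ⟨QuotientGroup.mk 1⟩
    exact_mod_cast Fintype.card_pos
  let c : ℝ := (Fintype.card (G ⧸ N) : ℝ)⁻¹
  have hc0 : 0 ≤ c := inv_nonneg.2 hcard.le
  refine ⟨c • ∑ q : G ⧸ N, TT q.out m₀, ⟨fun A => ?_, ?_, fun A B hAB => ?_⟩, fun g => ?_⟩
  · rw [Pi.smul_apply, Finset.sum_apply, smul_eq_mul]
    exact mul_nonneg hc0 (Finset.sum_nonneg fun q _ => (TT_isMean q.out hm₀).nonneg A)
  · rw [Pi.smul_apply, Finset.sum_apply, smul_eq_mul]
    have h1 : ∀ q : G ⧸ N, TT q.out m₀ Set.univ = 1 := fun q => (TT_isMean q.out hm₀).univ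
    rw [Finset.sum_congr rfl fun q _ => h1 q, Finset.sum_const, nsmul_eq_mul, mul_one,
      Finset.card_univ]
    exact inv_mul_cancel₀ hcard.ne'
  · simp only [Pi.smul_apply, Finset.sum_apply, smul_eq_mul]
    rw [Finset.sum_congr rfl fun (q : G ⧸ N) _ => (TT_isMean q.out hm₀).add A B hAB,
      Finset.sum_add_distrib, mul_add]
  · rw [map_smul, map_sum]
    congr 1
    have h1 : ∀ q : G ⧸ N, TT g (TT q.out m₀) = TT ((g • q : G ⧸ N).out) m₀ := by
      intro q
      rw [← TT_mul]
      have h2 : (g • q : G ⧸ N) = QuotientGroup.mk (g * q.out) := by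
        conv_lhs => rw [← QuotientGroup.out_eq' q]
        rfl
      rw [h2, hout]
    rw [Finset.sum_congr rfl fun q _ => h1 q]
    exact Fintype.sum_equiv (MulAction.toPerm g) _ _ fun q => rfl

/-- An invariant measure on the space of cones gives a Conradian cone. -/
theorem exists_conrad_of_mean {m : Set (Cone G) → ℝ} (hm : IsMean m)
    (hinv : ∀ g : G, TT g m = m) : ∃ P : Set G, IsConrad P := by
  classical
  have hcompl : ∀ A : Set (Cone G), m Aᶜ = 1 - m A := by
    intro A
    have := hm.add A Aᶜ disjoint_compl_right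
    rw [Set.union_compl_self, hm.univ] at this
    linarith
  have hempty : m ∅ = 0 := by
    have := hcompl Set.univ
    rw [Set.compl_univ, hm.univ] at this
    linarith
  let F : Filter (Cone G) :=
    { sets := {A | m A = 1}
      univ_sets := hm.univ
      sets_of_superset := by
        intro A B hA hAB
        have h1 := hm.mono hAB
        have h2 := hm.le_one B
        have h3 : m A = 1 := hA
        show m B = 1
        linarith
      inter_sets := by
        intro A B hA hB
        have h1 : m A = 1 := hA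
        have h2 : m B = 1 := hB
        show m (A ∩ B) = 1
        have h3 : m (A ∩ B) + m (A \ B) = m A := by
          rw [← hm.add _ _ (Set.disjoint_of_subset_left Set.inter_subset_right
            Set.disjoint_sdiff_right), Set.inter_union_sdiff]
        have h4 : m (A \ B) ≤ m Bᶜ := hm.mono (fun x hx => hx.2)
        rw [hcompl, h2] at h4
        have h5 := hm.nonneg (A \ B)
        linarith }
  have hFne : F.NeBot := by
    rw [Filter.neBot_iff]
    intro h
    have h1 : (∅ : Set (Cone G)) ∈ F := by rw [h]; trivial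
    have h2 : m ∅ = 1 := h1
    rw [hempty] at h2
    exact zero_ne_one h2
  let U : Ultrafilter (Cone G) := Ultrafilter.of F
  have hUF : (U : Filter (Cone G)) ≤ F := Ultrafilter.of_le F
  refine ⟨{x | {P : Cone G | x ∈ P.1} ∈ U}, ⟨⟨?_, ?_, ?_⟩, ?_⟩⟩
  · intro a ha b hb
    filter_upwards [ha, hb] with P h1 h2
    exact P.2.mul _ h1 _ h2
  · intro h
    have h1 : {P : Cone G | (1 : G) ∈ P.1} = ∅ := by
      ext P
      simp only [Set.mem_ofPred_eq, Set.mem_empty_iff_false, iff_false]
      exact P.2.one
    have h2 : {P : Cone G | (1 : G) ∈ P.1} ∈ U := h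
    rw [h1] at h2
    exact U.empty_notMem h2
  · intro a ha
    have h1 : {P : Cone G | a ∈ P.1} ∪ {P : Cone G | a⁻¹ ∈ P.1} ∈ U := by
      have h2 : {P : Cone G | a ∈ P.1} ∪ {P : Cone G | a⁻¹ ∈ P.1} = Set.univ := by
        ext P
        simp only [Set.mem_union, Set.mem_ofPred_eq, Set.mem_univ, iff_true]
        exact P.2.tot a ha
      rw [h2]; exact Filter.univ_mem
    exact Ultrafilter.union_mem_iff.1 h1
  · intro f hf g hg
    by_contra hcon
    have h1 : {P : Cone G | g⁻¹ * f * g ^ 2 ∈ P.1} ∉ U := hcon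
    have h2 : {P : Cone G | g⁻¹ * f * g ^ 2 ∈ P.1}ᶜ ∈ U := Ultrafilter.compl_mem_iff_notMem.2 h1
    have h3 : Bad f g ∈ U := by
      filter_upwards [hf, hg, h2] with P hf' hg' h2'
      refine ⟨hf', hg', ?_⟩
      have hne : g⁻¹ * f * g ^ 2 ≠ 1 := by
        intro h
        have h4 : f * g = 1 := by
          have h5 : f * g = g * (g⁻¹ * f * g ^ 2) * g⁻¹ := by rw [pow_two]; group
          rw [h5, h]; group
        have h6 := P.2.mul _ hf' _ hg'
        rw [h4] at h6
        exact P.2.one h6
      exact (P.2.tot _ hne).resolve_left h2'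
    have h4 : (Bad f g)ᶜ ∈ F := by
      show m (Bad f g)ᶜ = 1
      rw [hcompl, bad_null hm hinv, sub_zero]
    have h5 : (Bad f g)ᶜ ∈ U := hUF h4
    exact Ultrafilter.compl_mem_iff_notMem.1 h5 h3

end Mean

/-- Finitely generated non-trivial virtually solvable right-orderable groups map onto the
integers. -/
theorem not_noZ_of_virtually_solvable {G : Type} [Group G] (hfg : Group.FG G)
    (hne : ∃ g : G, g ≠ 1) (N : Subgroup G) [N.Normal] [N.FiniteIndex] (hs : Group.IsSolvable N)
    (hRO : RightOrderable G) : ¬ NoZ G := by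
  obtain ⟨P₀, hP₀⟩ := exists_cone hRO
  obtain ⟨m, hm, hinv⟩ := exists_invariant_mean_virtually (Ω := Cone G) N hs ⟨⟨P₀, hP₀⟩⟩
  obtain ⟨P, hP⟩ := exists_conrad_of_mean hm hinv
  exact not_noZ_of_conrad hfg hne hP

/-! ### Finitely generated perfect subgroups -/

lemma map_derivedSeries_le {A F : Type*} [Group A] [Group F] (φ : A →* F) (R : Subgroup F)
    (h : ∀ a, φ a ∈ R) (k : ℕ) : (derivedSeries A k).map φ ≤ Dser R k := by
  induction k with
  | zero =>
    rintro _ ⟨a, -, rfl⟩
    exact h a
  | succ k ih =>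
    rw [derivedSeries_succ, Subgroup.map_commutator, Dser_succ]
    exact Subgroup.commutator_mono ih ih

lemma noZ_of_perfect {B : Type*} [Group B] (H : Subgroup B) (h : H ≤ ⁅H, H⁆) : NoZ H := by
  intro f hf
  have h1 : _root_.commutator H = ⊤ := by
    apply Subgroup.map_injective H.subtype_injective
    rw [Subgroup.map_subtype_commutator, ← MonoidHom.range_eq_map, Subgroup.range_subtype]
    exact le_antisymm (Subgroup.commutator_le_self H) h
  have h2 : _root_.commutator H ≤ f.ker := Abelianization.commutator_subset_ker f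
  obtain ⟨x, hx⟩ := hf (Multiplicative.ofAdd 1)
  have h3 : x ∈ f.ker := by
    apply h2
    rw [h1]
    trivial
  rw [MonoidHom.mem_ker, hx] at h3
  exact absurd (congrArg Multiplicative.toAdd h3) one_ne_zero

/-- The condition `Kills` for right-orderable groups. -/
theorem kills_RO {F S : Type} [Group F] [Group S] [Finite S] (q : F →* S) :
    Kills (fun G _ => RightOrderable G) q.ker := by
  classical
  intro k V hV hp
  -- the images in the right-orderable groups are trivial
  have key : ∀ (B : Type) [Group B] (f : F →* B), RightOrderable B →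
      (∀ x ∈ (Dser q.ker k : Set F), f x = 1) → ∀ v ∈ V, f v = 1 := by
    intro B _ f hB hf v hv
    by_contra hne
    let g : V →* V.map f := f.subgroupMap V
    have hg : Function.Surjective g := f.subgroupMap_surjective V
    let RV : Subgroup V := q.ker.subgroupOf V
    have hRVn : RV.Normal := inferInstance
    have hRVf : RV.FiniteIndex := by
      have h1 : RV = (q.comp V.subtype).ker := by
        ext x
        rfl
      rw [h1]
      exact Subgroup.finiteIndex_ker _
    have hn : (RV.map g).Normal := hRVn.map g hg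
    have hfin : (RV.map g).FiniteIndex :=
      ⟨fun h0 => hRVf.index_ne_zero (Nat.eq_zero_of_zero_dvd (h0 ▸ RV.index_map_dvd hg))⟩
    have hs : Group.IsSolvable (RV.map g) := by
      refine ⟨⟨k, ?_⟩⟩
      rw [← map_derivedSeries_eq (g.subgroupMap_surjective RV) k, eq_bot_iff]
      rintro _ ⟨x, hx, rfl⟩
      rw [Subgroup.mem_bot]
      have h1 : ((x : V) : F) ∈ Dser q.ker k := by
        apply map_derivedSeries_le (V.subtype.comp RV.subtype) q.ker (fun a => a.2) k
        exact ⟨x, hx, rfl⟩
      apply Subtype.ext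
      apply Subtype.ext
      exact hf _ h1
    have hRO : RightOrderable (V.map f) :=
      RightOrderable.of_injective (V.map f).subtype (V.map f).subtype_injective hB
    have hfg : Group.FG (V.map f) := (Group.fg_iff_subgroup_fg _).2 (fg_map f V hV)
    refine not_noZ_of_virtually_solvable hfg ⟨⟨f v, ⟨v, hv, rfl⟩⟩, fun h => ?_⟩ (RV.map g) hs hRO
      (noZ_of_perfect _ ?_)
    · exact hne (congrArg Subtype.val h)
    · rintro _ ⟨x, hx, rfl⟩
      have h1 := Subgroup.mem_map_of_mem f (hp hx)
      rw [Subgroup.map_sup, Subgroup.map_commutator] at h1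
      have h2 : (Dser q.ker k).map f = ⊥ := by
        rw [eq_bot_iff]
        rintro _ ⟨y, hy, rfl⟩
        rw [Subgroup.mem_bot]
        exact hf y hy
      rwa [h2, sup_bot_eq] at h1
  obtain ⟨W, hW⟩ := hV
  have h1 : ∀ w ∈ W, ∃ E : Finset F, (∀ e ∈ E, e ∈ (Dser q.ker k : Set F)) ∧
      ∀ (B : Type) [Group B] (f : F →* B), RightOrderable B →
        (∀ x ∈ E, f x = 1) → f w = 1 := by
    intro w hw
    refine RightOrderable.compact (Dser q.ker k : Set F) w fun B _ f hB hf => key B f hB hf w ?_
    rw [← hW]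
    exact Subgroup.subset_closure hw
  choose! E hE1 hE2 using h1
  refine ⟨W.biUnion E, fun e he => ?_, fun X _ f hX hf v hv => ?_⟩
  · obtain ⟨w, hw, he'⟩ := Finset.mem_biUnion.1 he
    exact hE1 w hw e he'
  · have h2 : V ≤ f.ker := by
      rw [← hW, Subgroup.closure_le]
      intro w hw
      exact hE2 w hw X f hX fun x hx => hf x (Finset.mem_biUnion.2 ⟨w, hw, hx⟩)
    exact h2 hv

/-! ### The condition `Star` -/

/-- The smallest normal subgroup containing `N` with right-orderable quotient. -/
def MM {F : Type} [Group F] (N : Subgroup F) : Subgroup F where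
  carrier := {w | ∀ (B : Type) [Group B] (f : F →* B), RightOrderable B →
    (∀ x ∈ (N : Set F), f x = 1) → f w = 1}
  mul_mem' := by
    intro a b ha hb B _ f hB hf
    rw [map_mul, ha B f hB hf, hb B f hB hf, one_mul]
  one_mem' := by
    intro B _ f _ _
    exact map_one f
  inv_mem' := by
    intro a ha B _ f hB hf
    rw [map_inv, ha B f hB hf, inv_one]

lemma mem_MM {F : Type} [Group F] (N : Subgroup F) (w : F) : w ∈ MM N ↔
    ∀ (B : Type) [Group B] (f : F →* B), RightOrderable B →
      (∀ x ∈ (N : Set F), f x = 1) → f w = 1 := Iff.rfl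

instance MM_normal {F : Type} [Group F] (N : Subgroup F) : (MM N).Normal := by
  refine ⟨fun w hw g => ?_⟩
  rw [mem_MM] at hw ⊢
  intro B _ f hB hf
  rw [map_mul, map_mul, hw B f hB hf, mul_one, map_inv, mul_inv_cancel]

lemma le_MM {F : Type} [Group F] (N : Subgroup F) : N ≤ MM N := fun x hx B _ _ _ hf => hf x hx

lemma rightOrderable_quotient_ker {F B : Type} [Group F] [Group B] (f : F →* B)
    (hB : RightOrderable B) : RightOrderable (F ⧸ f.ker) :=
  RightOrderable.of_injective (QuotientGroup.kerLift f) (QuotientGroup.kerLift_injective f) hB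

lemma rightOrderable_quotient_MM {F : Type} [Group F] (N : Subgroup F) :
    RightOrderable (F ⧸ MM N) := by
  let ι : Type := {L : Subgroup F // ∃ _ : L.Normal, N ≤ L ∧ RightOrderable (F ⧸ L)}
  have hn : ∀ i : ι, (i.1).Normal := fun i => i.2.choose
  refine RightOrderable.iInf (ι := ι) (fun i => i.1) (fun i => ?_) (MM N) (fun x hx => ?_)
    (fun i => ?_)
  · obtain ⟨L, hL, hNL, hRO⟩ := i
    exact hRO
  · intro B _ f hB hf
    have h1 : N ≤ f.ker := fun y hy => hf y hy
    exact hx ⟨f.ker, inferInstance, h1, rightOrderable_quotient_ker f hB⟩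
  · obtain ⟨L, hL, hNL, hRO⟩ := i
    intro w hw
    have h1 := hw (F ⧸ L) (QuotientGroup.mk' L) hRO fun x hx =>
      (QuotientGroup.eq_one_iff x).2 (hNL hx)
    exact (QuotientGroup.eq_one_iff w).1 h1

/-- A subgroup of `MM N` modulo `N` without homomorphisms onto the integers. -/
lemma exists_subgroup {F H : Type} [Group F] [Group H] (p : F →* H) (hp : Function.Surjective p)
    (hH : ¬ RightOrderable H) : ∃ K : Subgroup H, K ≤ (MM p.ker).map p ∧ K.FG ∧ K ≠ ⊥ ∧ NoZ K := by
  let M' : Subgroup H := (MM p.ker).map p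
  have hM'n : M'.Normal := (MM_normal p.ker).map p hp
  have hquot : RightOrderable (H ⧸ M') := by
    let φ : F →* H ⧸ M' := (QuotientGroup.mk' M').comp p
    have hφ : Function.Surjective φ := (QuotientGroup.mk'_surjective M').comp hp
    have hker : φ.ker = MM p.ker := by
      ext w
      rw [MonoidHom.mem_ker]
      constructor
      · intro h
        have h1 : p w ∈ M' := (QuotientGroup.eq_one_iff (p w)).1 h
        obtain ⟨w', hw', he⟩ := h1
        have h2 : w'⁻¹ * w ∈ p.ker := by
          rw [MonoidHom.mem_ker, map_mul, map_inv, he, inv_mul_cancel]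
        have h3 := mul_mem hw' (le_MM p.ker h2)
        rwa [mul_inv_cancel_left] at h3
      · intro h
        exact (QuotientGroup.eq_one_iff (p w)).2 ⟨w, h, rfl⟩
    have e1 := QuotientGroup.quotientKerEquivOfSurjective φ hφ
    have e2 := QuotientGroup.quotientMulEquivOfEq hker
    exact RightOrderable.of_injective (e2.toMonoidHom.comp e1.symm.toMonoidHom)
      (e2.injective.comp e1.symm.injective) (rightOrderable_quotient_MM p.ker)
  have hM' : ¬ RightOrderable M' := fun h => hH (RightOrderable.extension M' h hquot)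
  have hLI : ¬ LocallyIndicable M' := fun h => hM' h.rightOrderable
  unfold LocallyIndicable at hLI
  push Not at hLI
  obtain ⟨K, hKfg, hKne, hKno⟩ := hLI
  have e := K.equivMapOfInjective M'.subtype M'.subtype_injective
  refine ⟨K.map M'.subtype, ?_, fg_map _ _ hKfg, ?_, ?_⟩
  · rintro _ ⟨x, -, rfl⟩
    exact x.2
  · intro h
    apply hKne
    exact (Subgroup.map_eq_bot_iff_of_injective K M'.subtype_injective).1 h
  · exact noZ_of_surjective e.toMonoidHom e.surjective hKno

/-- The condition `Star` for right-orderable groups. -/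
theorem star_RO : Star (fun G _ => RightOrderable G) := by
  classical
  intro G _ hG
  -- a finitely generated subgroup which is not right-orderable
  obtain ⟨H₀, hH₀fg, hH₀⟩ : ∃ H : Subgroup G, H.FG ∧ ¬ RightOrderable H := by
    by_contra hcon
    push Not at hcon
    exact hG (RightOrderable.local hcon)
  obtain ⟨s, g, hg⟩ : ∃ (s : ℕ) (g : Fin s → G), Subgroup.closure (Set.range g) = H₀ := by
    obtain ⟨W, hW⟩ := hH₀fg
    refine ⟨W.card, fun i => (W.equivFin.symm i : G), ?_⟩
    rw [← hW]
    congr 1
    ext x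
    constructor
    · rintro ⟨i, rfl⟩
      exact (W.equivFin.symm i).2
    · intro hx
      exact ⟨W.equivFin ⟨x, hx⟩, by simp⟩
  let p : FreeGroup (Fin s) →* G := FreeGroup.lift g
  have hrange : p.range = H₀ := by
    rw [← hg]
    exact FreeGroup.range_lift_eq_closure
  have hnRO : ¬ RightOrderable p.range := by rwa [hrange]
  obtain ⟨K, hKM, hKfg, hKne, hKno⟩ :=
    exists_subgroup p.rangeRestrict p.rangeRestrict_surjective hnRO
  -- generators of the subgroup
  obtain ⟨r, k, hk⟩ : ∃ (r : ℕ) (k : Fin r → p.range), Subgroup.closure (Set.range k) = K := by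
    obtain ⟨W, hW⟩ := hKfg
    refine ⟨W.card, fun i => (W.equivFin.symm i : p.range), ?_⟩
    rw [← hW]
    congr 1
    ext x
    constructor
    · rintro ⟨i, rfl⟩
      exact (W.equivFin.symm i).2
    · intro hx
      exact ⟨W.equivFin ⟨x, hx⟩, by simp⟩
  have hu : ∀ i, ∃ u ∈ MM p.rangeRestrict.ker, p.rangeRestrict u = k i := by
    intro i
    apply hKM
    rw [← hk]
    exact Subgroup.subset_closure ⟨i, rfl⟩
  choose u hu1 hu2 using hu
  have hker : p.rangeRestrict.ker = p.ker := MonoidHom.ker_rangeRestrict p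
  have hpu : ∀ i, p (u i) = (k i : G) := fun i => congrArg Subtype.val (hu2 i)
  have hcl : Subgroup.closure (Set.range fun i => p (u i)) = K.map p.range.subtype := by
    rw [← hk, MonoidHom.map_closure]
    congr 1
    ext x
    simp only [Set.mem_range, Set.mem_image, hpu]
    constructor
    · rintro ⟨i, rfl⟩
      exact ⟨k i, ⟨i, rfl⟩, rfl⟩
    · rintro ⟨_, ⟨i, rfl⟩, rfl⟩
      exact ⟨i, rfl⟩
  have hNoZ : NoZ (Subgroup.closure (Set.range fun i => p (u i))) := by
    rw [hcl]
    have e := K.equivMapOfInjective p.range.subtype p.range.subtype_injective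
    exact noZ_of_surjective e.toMonoidHom e.surjective hKno
  obtain ⟨E₁, hE₁, hE₁'⟩ := noZ_relators p u hNoZ
  have hE₂ : ∀ i, ∃ E : Finset (FreeGroup (Fin s)), (∀ e ∈ E, e ∈ (p.ker : Set _)) ∧
      ∀ (B : Type) [Group B] (f : FreeGroup (Fin s) →* B), RightOrderable B →
        (∀ x ∈ E, f x = 1) → f (u i) = 1 := by
    intro i
    refine RightOrderable.compact (p.ker : Set _) (u i) ?_
    have h1 := hu1 i
    rw [hker] at h1
    exact h1
  choose E₂ hE₂ hE₂' using hE₂
  refine ⟨s, r, g, u, E₁ ∪ Finset.univ.biUnion E₂, ?_, ?_, ?_, ?_⟩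
  · intro e he
    rcases Finset.mem_union.1 he with he | he
    · exact hE₁ e he
    · obtain ⟨i, -, he⟩ := Finset.mem_biUnion.1 he
      exact hE₂ i e he
  · intro X _ f hf
    exact hE₁' X f fun e he => hf e (Finset.mem_union_left _ he)
  · intro X _ f hX hf i
    exact hE₂' i X f hX fun e he =>
      hf e (Finset.mem_union_right _ (Finset.mem_biUnion.2 ⟨i, Finset.mem_univ i, he⟩))
  · by_contra hcon
    push Not at hcon
    apply hKne
    rw [← hk, Subgroup.closure_eq_bot_iff]
    rintro _ ⟨i, rfl⟩
    rw [Set.mem_singleton_iff]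
    apply Subtype.ext
    rw [← hpu i]
    exact hcon i

end Pool.Agent.H27.Ind
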