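import Pool.Agent.H27.Ind.Assembly
import Pool.Agent.H27.Ind.A5
import Pool.Agent.H27.Ind.RO2
import Pool.Agent.H27.Ind.LI

set_option autoImplicit false

/-!
# The two classes
-/

namespace Pool.Agent.H27.Ind

open Pool.Agent.H83.Ord

lemma exists_onto (S : Type) [Group S] [Finite S] :
    ∃ (m : ℕ) (q : FreeGroup (Fin m) →* S), Function.Surjective q := by
  have := Fintype.ofFinite S
  refine ⟨Fintype.card S, FreeGroup.lift (Fintype.equivFin S).symm, fun s => ?_⟩
  exact ⟨FreeGroup.of (Fintype.equivFin S s), by simp⟩

theorem rightOrderable_basis : ∃ S : Set QuasiIdentity,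
    Defines S (fun G _ => RightOrderable G) (fun G _ => TorsionFree G) ∧
      IndependentIn S (fun G _ => TorsionFree G) := by
  have := good_A5.fin
  obtain ⟨m, q, hq⟩ := exists_onto (alternatingGroup (Fin 5))
  exact main good_A5 q hq _ star_RO (kills_RO q)

theorem locallyIndicable_basis : ∃ S : Set QuasiIdentity,
    Defines S (fun G _ => LocallyIndicable G) (fun G _ => TorsionFree G) ∧
      IndependentIn S (fun G _ => TorsionFree G) := by
  have := good_A5.fin
  obtain ⟨m, q, hq⟩ := exists_onto (alternatingGroup (Fin 5))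
  exact main good_A5 q hq _ star_LI (kills_LI q.ker)

end Pool.Agent.H27.Ind
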