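import Pool.Agent.H27.Ind.Nil
import Pool.Agent.H27.Ind.Ext

set_option autoImplicit false

/-!
# The dimension estimate
-/

namespace Pool.Agent.H27.Ind

open Module

/-- The restrictions to `X` of the functions which are additive on `T`. -/
def Res (k : Type*) [Field k] {F : Type*} [Group F] (X T : Subgroup F) : Submodule k (X → k) where
  carrier := {f | ∃ g : F → k, AddOn T g ∧ ∀ x : X, f x = g x}
  add_mem' := by
    rintro f f' ⟨g, hg, h⟩ ⟨g', hg', h'⟩
    refine ⟨fun x => g x + g' x, fun x hx y hy => ?_, fun x => ?_⟩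
    · show g (x * y) + g' (x * y) = (g x + g' x) + (g y + g' y)
      rw [hg x hx y hy, hg' x hx y hy]; abel
    · rw [Pi.add_apply, h, h']
  zero_mem' := ⟨fun _ => 0, fun _ _ _ _ => by simp, fun _ => rfl⟩
  smul_mem' := by
    rintro c f ⟨g, hg, h⟩
    refine ⟨fun x => c * g x, fun x hx y hy => ?_, fun x => ?_⟩
    · show c * g (x * y) = c * g x + c * g y
      rw [hg x hx y hy, mul_add]
    · rw [Pi.smul_apply, h, smul_eq_mul]

lemma Res_anti {k : Type*} [Field k] {F : Type*} [Group F] {X T T' : Subgroup F} (h : T' ≤ T) :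
    Res k X T ≤ Res k X T' := by
  rintro f ⟨g, hg, hf⟩
  exact ⟨g, hg.mono h, hf⟩

lemma Res_le_AF {k : Type*} [Field k] {F : Type*} [Group F] {X T : Subgroup F} (h : X ≤ T) :
    Res k X T ≤ AF k ∅ := by
  rintro f ⟨g, hg, hf⟩
  refine ⟨fun x y => ?_, fun x hx => absurd hx (Set.notMem_empty _)⟩
  rw [hf, hf, hf, Subgroup.coe_mul, hg _ (h x.2) _ (h y.2)]

/-- The functions invariant under conjugation. -/
def Inv (k : Type*) [Field k] {F : Type*} [Group F] (X : Subgroup F) (h : F) :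
    Submodule k (X → k) where
  carrier := {f | ∀ x x' : X, (x' : F) = h * x * h⁻¹ → f x' = f x}
  add_mem' := by
    intro f f' hf hf' x x' hx
    rw [Pi.add_apply, Pi.add_apply, hf x x' hx, hf' x x' hx]
  zero_mem' := fun _ _ _ => rfl
  smul_mem' := by
    intro c f hf x x' hx
    rw [Pi.smul_apply, Pi.smul_apply, hf x x' hx]

section

variable {F : Type*} [Group F] {X U : Subgroup F} {h : F}

/-- conjugation by an element normalising `X` -/
def cj (hX : h ∈ Subgroup.normalizer (X : Set F)) (x : X) : X := ⟨h * x * h⁻¹, norm_conj hX x.2⟩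

lemma coe_cj (hX : h ∈ Subgroup.normalizer (X : Set F)) (x : X) :
    ((cj hX x : X) : F) = h * x * h⁻¹ := rfl

lemma cj_mul (hX : h ∈ Subgroup.normalizer (X : Set F)) (x y : X) :
    cj hX (x * y) = cj hX x * cj hX y := by
  apply Subtype.ext
  simp only [coe_cj, Subgroup.coe_mul]
  group

lemma mem_Inv {k : Type*} [Field k] (hX : h ∈ Subgroup.normalizer (X : Set F)) {f : X → k} :
    f ∈ Inv k X h ↔ ∀ x, f (cj hX x) = f x := by
  constructor
  · intro hf x
    exact hf x _ (coe_cj hX x)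
  · intro hf x x' hx
    have : x' = cj hX x := Subtype.ext (by rw [hx, coe_cj])
    rw [this, hf]

/-- The fixed points modulo the commutator subgroup of `U`. -/
def FixSet (X U : Subgroup F) (h : F) : Set X := {x | h * x * h⁻¹ * (x : F)⁻¹ ∈ ⁅U, U⁆}

lemma cj_mem_FixSet (hX : h ∈ Subgroup.normalizer (X : Set F))
    (hU : h ∈ Subgroup.normalizer (U : Set F)) {x : X} (hx : x ∈ FixSet X U h) :
    cj hX x ∈ FixSet X U h := by
  have h1 := norm_conj (normalizer_commutator hU) hx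
  show h * (h * x * h⁻¹) * h⁻¹ * (h * x * h⁻¹)⁻¹ ∈ ⁅U, U⁆
  have : h * (h * x * h⁻¹) * h⁻¹ * (h * x * h⁻¹)⁻¹ = h * (h * x * h⁻¹ * (x : F)⁻¹) * h⁻¹ := by
    group
  rw [this]
  exact h1

/-- The first estimate. -/
lemma step_one (hXU : X ≤ U) (hX : h ∈ Subgroup.normalizer (X : Set F))
    (hU : h ∈ Subgroup.normalizer (U : Set F)) {d : ℕ} (w : Fin d → X)
    (hw : Subgroup.closure (Set.range w) = ⊤) :
    finrank ℚ (Res ℚ X U) ≤ finrank ℚ (AF ℚ (FixSet X U h)) +
      finrank ℚ ((Res ℚ X U ⊓ Inv ℚ X h : Submodule ℚ (X → ℚ))) := by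
  have := finite_of_le_AF w hw (Res ℚ X U) (Res_le_AF hXU)
  have := finite_of_le_AF w hw (AF ℚ (FixSet X U h)) (AF_le _)
  have := finite_of_le_AF w hw (Res ℚ X U ⊓ Inv ℚ X h : Submodule ℚ (X → ℚ))
    (inf_le_left.trans (Res_le_AF hXU))
  let n : Res ℚ X U →ₗ[ℚ] AF ℚ (FixSet X U h) :=
    { toFun := fun f => ⟨fun x => (f : X → ℚ) (cj hX x) - (f : X → ℚ) x, by
        obtain ⟨g, hg, hf⟩ := f.2
        constructor
        · intro x y
          have h1 := (Res_le_AF hXU f.2).1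
          show (f : X → ℚ) (cj hX (x * y)) - (f : X → ℚ) (x * y) =
            ((f : X → ℚ) (cj hX x) - (f : X → ℚ) x) + ((f : X → ℚ) (cj hX y) - (f : X → ℚ) y)
          rw [cj_mul, h1, h1]; ring
        · intro x hx
          show (f : X → ℚ) (cj hX x) - (f : X → ℚ) x = 0
          rw [hf, hf, coe_cj]
          have h1 : h * (x : F) * h⁻¹ = (h * x * h⁻¹ * (x : F)⁻¹) * x := by group
          have h2 : (h * x * h⁻¹ * (x : F)⁻¹) ∈ U := Subgroup.commutator_le_self U hx
          rw [h1, hg _ h2 _ (hXU x.2), hg.commutator hx]; ring⟩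
      map_add' := fun f g => by
        apply Subtype.ext
        funext x
        show ((f : X → ℚ) (cj hX x) + (g : X → ℚ) (cj hX x)) - ((f : X → ℚ) x + (g : X → ℚ) x) =
          ((f : X → ℚ) (cj hX x) - (f : X → ℚ) x) + ((g : X → ℚ) (cj hX x) - (g : X → ℚ) x)
        ring
      map_smul' := fun c f => by
        apply Subtype.ext
        funext x
        show (c * (f : X → ℚ) (cj hX x)) - (c * (f : X → ℚ) x) =
          c * ((f : X → ℚ) (cj hX x) - (f : X → ℚ) x)
        ring }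
  have h1 := LinearMap.finrank_range_add_finrank_ker n
  have h2 : finrank ℚ (LinearMap.range n) ≤ finrank ℚ (AF ℚ (FixSet X U h)) :=
    Submodule.finrank_le _
  have h3 : finrank ℚ (LinearMap.ker n) ≤
      finrank ℚ ((Res ℚ X U ⊓ Inv ℚ X h : Submodule ℚ (X → ℚ))) := by
    have hk : ∀ f : LinearMap.ker n, ((f : Res ℚ X U) : X → ℚ) ∈
        (Res ℚ X U ⊓ Inv ℚ X h : Submodule ℚ (X → ℚ)) := by
      intro f
      refine ⟨(f : Res ℚ X U).2, ?_⟩
      rw [SetLike.mem_coe, mem_Inv hX]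
      intro x
      have := congrArg (fun z : AF ℚ (FixSet X U h) => (z : X → ℚ) x) f.2
      have h4 : ((f : Res ℚ X U) : X → ℚ) (cj hX x) - ((f : Res ℚ X U) : X → ℚ) x = 0 := this
      exact sub_eq_zero.1 h4
    let ι : LinearMap.ker n →ₗ[ℚ] (Res ℚ X U ⊓ Inv ℚ X h : Submodule ℚ (X → ℚ)) :=
      { toFun := fun f => ⟨((f : Res ℚ X U) : X → ℚ), hk f⟩
        map_add' := fun _ _ => rfl
        map_smul' := fun _ _ => rfl }
    apply LinearMap.finrank_le_finrank_of_injective (f := ι)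
    intro x y hxy
    apply Subtype.ext
    apply Subtype.ext
    exact congrArg (fun z : (Res ℚ X U ⊓ Inv ℚ X h : Submodule ℚ (X → ℚ)) => (z : X → ℚ)) hxy
  omega

/-- The operator on the additive functions modulo `l`. -/
def sg (hX : h ∈ Subgroup.normalizer (X : Set F)) (hU : h ∈ Subgroup.normalizer (U : Set F))
    (l : ℕ) : AF (ZMod l) (FixSet X U h) →ₗ[ZMod l] AF (ZMod l) (FixSet X U h) where
  toFun := fun f => ⟨fun x => (f : X → ZMod l) (cj hX x), by
    constructor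
    · intro x y
      show (f : X → ZMod l) (cj hX (x * y)) = (f : X → ZMod l) (cj hX x) +
        (f : X → ZMod l) (cj hX y)
      rw [cj_mul, f.2.1]
    · intro x hx
      exact f.2.2 _ (cj_mem_FixSet hX hU hx)⟩
  map_add' := fun _ _ => rfl
  map_smul' := fun _ _ => rfl

lemma sg_apply (hX : h ∈ Subgroup.normalizer (X : Set F))
    (hU : h ∈ Subgroup.normalizer (U : Set F)) (l : ℕ) (f : AF (ZMod l) (FixSet X U h)) (x : X) :
    ((sg hX hU l f : AF (ZMod l) (FixSet X U h)) : X → ZMod l) x =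
      (f : X → ZMod l) (cj hX x) := rfl

lemma sg_pow_apply (hX : h ∈ Subgroup.normalizer (X : Set F))
    (hU : h ∈ Subgroup.normalizer (U : Set F)) (l : ℕ) (f : AF (ZMod l) (FixSet X U h)) (i : ℕ)
    (x : X) : (((sg hX hU l ^ i) f : AF (ZMod l) (FixSet X U h)) : X → ZMod l) x =
      (f : X → ZMod l) ((cj hX)^[i] x) := by
  induction i generalizing f x with
  | zero => simp
  | succ i ih =>
    rw [pow_succ, Module.End.mul_apply, ih, sg_apply, Function.iterate_succ_apply']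

lemma coe_cj_iterate (hX : h ∈ Subgroup.normalizer (X : Set F)) (i : ℕ) (x : X) :
    (((cj hX)^[i] x : X) : F) = h ^ i * x * (h ^ i)⁻¹ := by
  induction i with
  | zero => simp
  | succ i ih =>
    rw [Function.iterate_succ_apply', coe_cj, ih, pow_succ']
    group

/-- the norm of an element -/
lemma norm_mem (hX : h ∈ Subgroup.normalizer (X : Set F)) (x : X) (i : ℕ) :
    ((x : F) * h) ^ i * (h ^ i)⁻¹ ∈ X := by
  induction i with
  | zero => simp
  | succ i ih =>
    have : ((x : F) * h) ^ (i + 1) * (h ^ (i + 1))⁻¹ =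
        (((x : F) * h) ^ i * (h ^ i)⁻¹) * (h ^ i * x * (h ^ i)⁻¹) := by
      rw [pow_succ, pow_succ]
      group
    rw [this]
    exact X.mul_mem ih (norm_conj (Subgroup.pow_mem _ hX i) x.2)

lemma apply_norm (hX : h ∈ Subgroup.normalizer (X : Set F)) {k : Type*} [CommRing k]
    (f : X → k) (hf : ∀ x y, f (x * y) = f x + f y) (x : X) (i : ℕ) :
    f ⟨_, norm_mem hX x i⟩ = ∑ j ∈ Finset.range i, f ((cj hX)^[j] x) := by
  induction i with
  | zero =>
    rw [Finset.sum_range_zero]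
    have h1 : (⟨_, norm_mem hX x 0⟩ : X) = 1 := by
      apply Subtype.ext
      simp
    rw [h1]
    have h2 := hf 1 1
    rw [one_mul] at h2
    simpa using h2
  | succ i ih =>
    rw [Finset.sum_range_succ, ← ih, ← hf]
    congr 1
    apply Subtype.ext
    rw [Subgroup.coe_mul, coe_cj_iterate]
    show ((x : F) * h) ^ (i + 1) * (h ^ (i + 1))⁻¹ =
        (((x : F) * h) ^ i * (h ^ i)⁻¹) * (h ^ i * x * (h ^ i)⁻¹)
    rw [pow_succ, pow_succ]
    group

lemma norm_mem_FixSet (hXU : X ≤ U) (hX : h ∈ Subgroup.normalizer (X : Set F)) {l : ℕ}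
    (hh : h ^ l ∈ X) (x : X) : (⟨_, norm_mem hX x l⟩ : X) ∈ FixSet X U h := by
  show h * (((x : F) * h) ^ l * (h ^ l)⁻¹) * h⁻¹ * (((x : F) * h) ^ l * (h ^ l)⁻¹)⁻¹ ∈ ⁅U, U⁆
  have h1 : ((x : F) * h) ^ l ∈ U := by
    have := X.mul_mem (norm_mem hX x l) hh
    rw [inv_mul_cancel_right] at this
    exact hXU this
  have h2 : h * (((x : F) * h) ^ l * (h ^ l)⁻¹) * h⁻¹ * (((x : F) * h) ^ l * (h ^ l)⁻¹)⁻¹ =
      (x : F)⁻¹ * ((x : F) * h) ^ l * ((x : F)⁻¹)⁻¹ * (((x : F) * h) ^ l)⁻¹ := by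
    have h4 : h * ((x : F) * h) ^ l * h⁻¹ = (x : F)⁻¹ * ((x : F) * h) ^ l * (x : F) := by
      have h3 : ∀ a y : F, (a⁻¹ * y) * y ^ l * (a⁻¹ * y)⁻¹ = a⁻¹ * y ^ l * a := by
        intro a y
        group
      have h5 := h3 (x : F) ((x : F) * h)
      rwa [inv_mul_cancel_left] at h5
    have h6 : (h ^ l)⁻¹ * h⁻¹ = h⁻¹ * (h ^ l)⁻¹ := by
      rw [← mul_inv_rev, ← mul_inv_rev, ← pow_succ, ← pow_succ']
    calc h * (((x : F) * h) ^ l * (h ^ l)⁻¹) * h⁻¹ * (((x : F) * h) ^ l * (h ^ l)⁻¹)⁻¹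
        = h * ((x : F) * h) ^ l * ((h ^ l)⁻¹ * h⁻¹) * h ^ l * (((x : F) * h) ^ l)⁻¹ := by
          group
      _ = (h * ((x : F) * h) ^ l * h⁻¹) * (((x : F) * h) ^ l)⁻¹ := by rw [h6]; group
      _ = _ := by rw [h4, inv_inv]
  rw [h2]
  exact Subgroup.commutator_mem_commutator (U.inv_mem (hXU x.2)) h1

/-- The second estimate. -/
lemma step_two (hXU : X ≤ U) (hX : h ∈ Subgroup.normalizer (X : Set F))
    (hU : h ∈ Subgroup.normalizer (U : Set F)) {l : ℕ} [hl : Fact l.Prime] (hh : h ^ l ∈ X)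
    {d : ℕ} (w : Fin d → X) (hw : Subgroup.closure (Set.range w) = ⊤) :
    finrank (ZMod l) (AF (ZMod l) (FixSet X U h)) ≤
      (l - 1) * finrank (ZMod l) (LinearMap.ker (sg hX hU l - 1)) := by
  have := finite_of_le_AF w hw (AF (ZMod l) (FixSet X U h)) (AF_le _)
  apply finrank_le_of_pow_eq_zero
  rw [sub_one_pow_eq_geom (k := ZMod l) l]
  apply LinearMap.ext
  intro f
  apply Subtype.ext
  funext x
  rw [LinearMap.sum_apply, Submodule.coe_sum, Finset.sum_apply]
  simp only [sg_pow_apply]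
  rw [← apply_norm hX (f : X → ZMod l) f.2.1 x l]
  exact f.2.2 _ (norm_mem_FixSet hXU hX hh x)

end

end Pool.Agent.H27.Ind
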