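import Pool.Agent.H27.Ind.LemX

set_option autoImplicit false

/-!
# The dimension estimate, last step
-/

namespace Pool.Agent.H27.Ind

open Module

variable {F : Type*} [Group F] {X U : Subgroup F} {h : F}

/-- The third estimate. -/
lemma step_three [IsFreeGroup F] (hXU : X ≤ U) (hX : h ∈ Subgroup.normalizer (X : Set F))
    (hU : h ∈ Subgroup.normalizer (U : Set F)) {l : ℕ} [hl : Fact l.Prime] (hh : h ^ l ∈ X)
    (hdiv : ∀ i : ℤ, h ^ i ∈ U → (l : ℤ) ∣ i)
    {d : ℕ} (w : Fin d → X) (hw : Subgroup.closure (Set.range w) = ⊤) :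
    finrank (ZMod l) (LinearMap.ker (sg hX hU l - 1)) + 1 ≤
      finrank ℚ (Res ℚ X (X ⊔ Subgroup.zpowers h ⊔ ⁅U, U⁆)) := by
  classical
  set Z : Subgroup F := X ⊔ Subgroup.zpowers h ⊔ ⁅U, U⁆ with hZ
  have hXZ : X ≤ Z := le_sup_left.trans le_sup_left
  have hhZ : h ∈ Z :=
    (le_sup_right.trans le_sup_left : Subgroup.zpowers h ≤ Z) (Subgroup.mem_zpowers h)
  have := finite_of_le_AF w hw (AF (ZMod l) (FixSet X U h)) (AF_le _)
  have := finite_of_le_AF w hw (Res ℚ X Z) (Res_le_AF hXZ)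
  have hD := normalizer_commutator hU
  have hXD : X ≤ Subgroup.normalizer ((⁅U, U⁆ : Subgroup F) : Set F) := fun x hx =>
    normalizer_commutator (normalizer_self_le U (hXU hx))
  have hDU : (⁅U, U⁆ : Subgroup F) ≤ U := Subgroup.commutator_le_self U
  have hZS := le_ZS X ⁅U, U⁆ h hX hD hXD
  -- extension of the invariant functions
  have hext : ∀ (f : X → ZMod l), f ∈ AF (ZMod l) (FixSet X U h) → (∀ x, f (cj hX x) = f x) →
      ∀ c : ZMod l, ∃ Φ : F → ℤ, AddOn Z Φ ∧ (∀ x : X, ((Φ x : ℤ) : ZMod l) = f x) ∧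
        ((Φ h : ℤ) : ZMod l) = c := by
    intro f hf hinv c
    let ψ : F → ZMod l := fun z => if hz : z ∈ X then f ⟨z, hz⟩ else 0
    have hψX : ∀ x (hx : x ∈ X), ψ x = f ⟨x, hx⟩ := fun x hx => dif_pos hx
    have hψ : AddOn X ψ := by
      intro x hx y hy
      rw [hψX x hx, hψX y hy, hψX _ (X.mul_mem hx hy), ← hf.1]; rfl
    obtain ⟨Ψ, h1, h2, h3⟩ := extend_add (l := l) hX hD hXD hh
      (by
        intro i u hu hi
        apply hdiv
        have := U.mul_mem (hXU hi) (U.inv_mem (hDU hu))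
        rwa [mul_inv_cancel_right] at this) ψ hψ
      (by
        intro x hx
        rw [hψX x hx, hψX _ (norm_conj hX hx)]
        exact hinv ⟨x, hx⟩)
      (by
        intro x hx hxD
        rw [hψX x hx]
        apply hf.2
        exact (⁅U, U⁆ : Subgroup F).mul_mem (norm_conj hD hxD) (Subgroup.inv_mem _ hxD))
      (by
        rw [hψX _ hh]
        apply hf.2
        show h * h ^ l * h⁻¹ * (h ^ l)⁻¹ ∈ ⁅U, U⁆
        have : h * h ^ l * h⁻¹ * (h ^ l)⁻¹ = 1 := by group
        rw [this]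
        exact Subgroup.one_mem _) c
      (by
        rw [zsmul_eq_mul]
        push_cast
        rw [ZMod.natCast_self, zero_mul])
    have : NeZero l := ⟨hl.out.ne_zero⟩
    obtain ⟨Φ, h4, h5⟩ := lift_add Z l Ψ (h1.mono hZS)
    refine ⟨Φ, h4, fun x => ?_, ?_⟩
    · rw [h5 _ (hXZ x.2), h2 _ x.2, hψX _ x.2]
    · rw [h5 _ hhZ, h3]
  let b := Module.finBasis (ZMod l) (LinearMap.ker (sg hX hU l - 1))
  set n := finrank (ZMod l) (LinearMap.ker (sg hX hU l - 1)) with hn
  have hbinv : ∀ i, ∀ x, (((b i : LinearMap.ker (sg hX hU l - 1)) :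
      AF (ZMod l) (FixSet X U h)) : X → ZMod l) (cj hX x) =
      ((b i : AF (ZMod l) (FixSet X U h)) : X → ZMod l) x := by
    intro i x
    have h1 := congrArg (fun z : AF (ZMod l) (FixSet X U h) => (z : X → ZMod l) x) (b i).2
    have h2 : ((b i : AF (ZMod l) (FixSet X U h)) : X → ZMod l) (cj hX x) -
      ((b i : AF (ZMod l) (FixSet X U h)) : X → ZMod l) x = 0 := h1
    exact sub_eq_zero.1 h2
  have hex : ∀ i : Option (Fin n), ∃ Φ : F → ℤ, AddOn Z Φ ∧
      (∀ x : X, ((Φ x : ℤ) : ZMod l) =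
        (match i with
          | none => 0
          | some i => ((b i : AF (ZMod l) (FixSet X U h)) : X → ZMod l) x)) ∧
      ((Φ h : ℤ) : ZMod l) = (match i with | none => 1 | some _ => 0) := by
    intro i
    cases i with
    | none =>
      obtain ⟨Φ, h1, h2, h3⟩ := hext 0 (Submodule.zero_mem _) (fun _ => rfl) 1
      exact ⟨Φ, h1, h2, h3⟩
    | some i =>
      obtain ⟨Φ, h1, h2, h3⟩ := hext _ (b i : AF (ZMod l) (FixSet X U h)).2 (hbinv i) 0
      exact ⟨Φ, h1, h2, h3⟩
  choose Φ hΦ1 hΦ2 hΦ3 using hex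
  let v : Option (Fin n) → Res ℚ X Z := fun i =>
    ⟨fun x => ((Φ i x : ℤ) : ℚ), fun z => ((Φ i z : ℤ) : ℚ), fun x hx y hy => by
      show ((Φ i (x * y) : ℤ) : ℚ) = (Φ i x : ℚ) + (Φ i y : ℚ)
      rw [hΦ1 i x hx y hy]; push_cast; rfl, fun _ => rfl⟩
  have hv : LinearIndependent ℚ v := by
    rw [← LinearIndependent.iff_fractionRing ℤ ℚ, Fintype.linearIndependent_iff]
    intro a ha
    obtain ⟨a', ha', hgcd⟩ := Finset.extract_gcd (s := Finset.univ) a ⟨none, Finset.mem_univ _⟩
    by_cases hg0 : Finset.univ.gcd a = 0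
    · intro i
      rw [ha' i (Finset.mem_univ i), hg0, zero_mul]
    exfalso
    -- the reduced relation
    have hrel : ∀ x : X, ∑ i, a' i * Φ i x = 0 := by
      intro x
      have h1 := congrArg (fun z : Res ℚ X Z => (z : X → ℚ) x) ha
      have h2 : ∑ i, (a i : ℚ) * (Φ i x : ℚ) = 0 := by
        have h1' : ((∑ i, a i • v i : Res ℚ X Z) : X → ℚ) x = 0 := h1
        rw [← h1']
        simp only [Submodule.coe_sum, Finset.sum_apply]
        apply Finset.sum_congr rfl
        intro i _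
        rw [Submodule.coe_smul_of_tower, Pi.smul_apply, zsmul_eq_mul]
      have h3 : ∑ i, a i * Φ i x = 0 := by exact_mod_cast h2
      have h4 : (Finset.univ.gcd a) * ∑ i, a' i * Φ i x = 0 := by
        rw [Finset.mul_sum, ← h3]
        apply Finset.sum_congr rfl
        intro i _
        rw [← mul_assoc, ← ha' i (Finset.mem_univ i)]
      exact (mul_eq_zero.1 h4).resolve_left hg0
    have hrelh : ∑ i, a' i * Φ i h = 0 := by
      have h1 := hrel ⟨h ^ l, hh⟩
      have h2 : ∀ i, Φ i (h ^ l) = l * Φ i h := by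
        intro i
        rw [(hΦ1 i).pow hhZ, nsmul_eq_mul]
      have h3 : (l : ℤ) * ∑ i, a' i * Φ i h = 0 := by
        rw [Finset.mul_sum, ← h1]
        apply Finset.sum_congr rfl
        intro i _
        show (l : ℤ) * (a' i * Φ i h) = a' i * Φ i (h ^ l)
        rw [h2 i]; ring
      have hl0 : (l : ℤ) ≠ 0 := by exact_mod_cast hl.out.ne_zero
      exact (mul_eq_zero.1 h3).resolve_left hl0
    have hnone : ((a' none : ℤ) : ZMod l) = 0 := by
      have h1 := congrArg (fun z : ℤ => (z : ZMod l)) hrelh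
      simp only [Int.cast_sum, Int.cast_mul, Int.cast_zero] at h1
      rw [Fintype.sum_option] at h1
      rw [hΦ3 none] at h1
      have h2 : ∀ i : Fin n, ((a' (some i) : ℤ) : ZMod l) * ((Φ (some i) h : ℤ) : ZMod l) = 0 := by
        intro i
        rw [hΦ3 (some i)]
        exact mul_zero _
      rw [Finset.sum_eq_zero (fun i _ => h2 i), add_zero, mul_one] at h1
      exact h1
    have hsome : ∀ i : Fin n, ((a' (some i) : ℤ) : ZMod l) = 0 := by
      have hb := b.linearIndependent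
      rw [Fintype.linearIndependent_iff] at hb
      apply hb
      apply Subtype.ext
      apply Subtype.ext
      funext x
      have h1 := congrArg (fun z : ℤ => (z : ZMod l)) (hrel x)
      simp only [Int.cast_sum, Int.cast_mul, Int.cast_zero] at h1
      rw [Fintype.sum_option, hΦ2 none x] at h1
      have h2 : ∀ i : Fin n, ((a' (some i) : ℤ) : ZMod l) * ((Φ (some i) x : ℤ) : ZMod l) =
          ((a' (some i) : ℤ) : ZMod l) * ((b i : AF (ZMod l) (FixSet X U h)) : X → ZMod l) x := by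
        intro i
        rw [hΦ2 (some i) x]
      rw [Finset.sum_congr rfl (fun i _ => h2 i), mul_zero, zero_add] at h1
      simp only [Submodule.coe_sum, Finset.sum_apply, Submodule.coe_smul, Pi.smul_apply,
        smul_eq_mul]
      exact h1
    have hall : ∀ i, (l : ℤ) ∣ a' i := by
      intro i
      rw [← ZMod.intCast_zmod_eq_zero_iff_dvd]
      cases i with
      | none => exact hnone
      | some i => exact hsome i
    have hdvd : (l : ℤ) ∣ Finset.univ.gcd a' := Finset.dvd_gcd (fun i _ => hall i)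
    rw [hgcd] at hdvd
    have := Int.natCast_dvd_natCast.1 (by simpa using hdvd : (l : ℤ) ∣ ((1 : ℕ) : ℤ))
    exact hl.out.one_lt.ne' (Nat.dvd_one.1 this)
  have := hv.fintype_card_le_finrank
  simpa using this

/-- The dimension estimate. -/
theorem lemX [IsFreeGroup F] (hXU : X ≤ U) (hX : h ∈ Subgroup.normalizer (X : Set F))
    (hU : h ∈ Subgroup.normalizer (U : Set F)) {l : ℕ} (hl : l.Prime) (hh : h ^ l ∈ X)
    (hdiv : ∀ i : ℤ, h ^ i ∈ U → (l : ℤ) ∣ i)
    {d : ℕ} (w : Fin d → X) (hw : Subgroup.closure (Set.range w) = ⊤) :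
    finrank ℚ (Res ℚ X U) + (l - 1) ≤
      finrank ℚ ((Res ℚ X U ⊓ Inv ℚ X h : Submodule ℚ (X → ℚ))) +
      (l - 1) * finrank ℚ (Res ℚ X (X ⊔ Subgroup.zpowers h ⊔ ⁅U, U⁆)) := by
  have : Fact l.Prime := ⟨hl⟩
  have h1 := step_one hXU hX hU w hw
  have h2 := finrank_AF_le w hw (FixSet X U h) l
  have h3 := step_two hXU hX hU hh w hw
  have h4 := step_three hXU hX hU hh hdiv w hw
  have h5 := Nat.mul_le_mul_left (l - 1) h4
  rw [mul_add, mul_one] at h5
  omega

end Pool.Agent.H27.Ind
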