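import Mathlib

set_option autoImplicit false

/-!
# Linear algebra for unipotent operators
-/

namespace Pool.Agent.H27.Ind

open Module

lemma finrank_ker_comp_le {k V₁ V₂ V₃ : Type*} [Field k] [AddCommGroup V₁] [Module k V₁]
    [AddCommGroup V₂] [Module k V₂] [AddCommGroup V₃] [Module k V₃] [FiniteDimensional k V₁]
    [FiniteDimensional k V₂] (f : V₂ →ₗ[k] V₃) (g : V₁ →ₗ[k] V₂) :
    finrank k (LinearMap.ker (f ∘ₗ g)) ≤
      finrank k (LinearMap.ker g) + finrank k (LinearMap.ker f) := by
  let φ : LinearMap.ker (f ∘ₗ g) →ₗ[k] LinearMap.ker f :=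
    LinearMap.restrict g (p := LinearMap.ker (f ∘ₗ g)) (q := LinearMap.ker f) (fun x hx => hx)
  have h1 := LinearMap.finrank_range_add_finrank_ker φ
  have h2 : finrank k (LinearMap.range φ) ≤ finrank k (LinearMap.ker f) :=
    Submodule.finrank_le _
  have h3 : finrank k (LinearMap.ker φ) ≤ finrank k (LinearMap.ker g) := by
    have hk : ∀ x : LinearMap.ker φ, ((x : LinearMap.ker (f ∘ₗ g)) : V₁) ∈ LinearMap.ker g := by
      intro x
      have := x.2
      rw [LinearMap.mem_ker] at this ⊢
      have h4 := congrArg (fun z : LinearMap.ker f => (z : V₂)) this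
      exact h4
    let ι : LinearMap.ker φ →ₗ[k] LinearMap.ker g :=
      { toFun := fun x => ⟨((x : LinearMap.ker (f ∘ₗ g)) : V₁), hk x⟩
        map_add' := fun x y => rfl
        map_smul' := fun c x => rfl }
    apply LinearMap.finrank_le_finrank_of_injective (f := ι)
    intro x y hxy
    apply Subtype.ext
    apply Subtype.ext
    exact congrArg (fun z : LinearMap.ker g => (z : V₁)) hxy
  omega

lemma finrank_le_of_pow_eq_zero {k W : Type*} [Field k] [AddCommGroup W] [Module k W]
    [FiniteDimensional k W] (N : W →ₗ[k] W) (m : ℕ) (h : N ^ m = 0) :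
    finrank k W ≤ m * finrank k (LinearMap.ker N) := by
  have key : ∀ i : ℕ, finrank k (LinearMap.ker (N ^ i)) ≤ i * finrank k (LinearMap.ker N) := by
    intro i
    induction i with
    | zero =>
      rw [pow_zero, Module.End.one_eq_id, LinearMap.ker_id]
      simp
    | succ i ih =>
      have := finrank_ker_comp_le (N ^ i) N
      rw [pow_succ]
      have h2 : LinearMap.ker (N ^ i * N) = LinearMap.ker ((N ^ i) ∘ₗ N) := rfl
      rw [h2]
      calc _ ≤ _ := this
        _ ≤ finrank k (LinearMap.ker N) + i * finrank k (LinearMap.ker N) := by omega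
        _ = _ := by ring
  have h1 := key m
  rw [h, LinearMap.ker_zero] at h1
  rwa [finrank_top] at h1

open Polynomial in
lemma sub_one_pow_eq_geom {k : Type*} [CommRing k] (l : ℕ) [hl : Fact l.Prime] [CharP k l]
    {A : Type*} [Ring A] [Algebra k A] (σ : A) :
    (σ - 1) ^ (l - 1) = ∑ i ∈ Finset.range l, σ ^ i := by
  have h1 := Polynomial.cyclotomic_mul_prime_eq_pow_of_not_dvd k (p := l) (n := 1)
    (by intro h; exact hl.out.one_lt.ne' (Nat.dvd_one.1 h))
  rw [one_mul, cyclotomic_one, cyclotomic_prime] at h1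
  have h2 := congrArg (aeval σ) h1
  rw [map_pow, map_sub, aeval_X, map_one, map_sum] at h2
  rw [← h2]
  apply Finset.sum_congr rfl
  intro i _
  rw [map_pow, aeval_X]

end Pool.Agent.H27.Ind
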