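import Pool.Agent.H27.Ind.Defs
import Pool.Agent.H27.Ord.Conrad

set_option autoImplicit false

/-!
# Cones of right-orders
-/

namespace Pool.Agent.H27.Ind

open Pool.Agent.H83.Ord Pool.Agent.H27.Ord

theorem rightOrderable_iff_cone (G : Type) [Group G] :
    RightOrderable G ↔ ∃ P : Set G, IsCone P := by
  constructor
  · exact fun h => exists_cone h
  · rintro ⟨P, hP⟩
    classical
    refine ⟨{ le := fun x y => x = y ∨ y * x⁻¹ ∈ P
              le_refl := fun x => Or.inl rfl
              le_trans := ?_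
              le_antisymm := ?_
              le_total := ?_
              toDecidableLE := fun _ _ => Classical.propDecidable _ }, ?_⟩
    · rintro x y z (rfl | hxy) (rfl | hyz)
      · exact Or.inl rfl
      · exact Or.inr hyz
      · exact Or.inr hxy
      · right
        have h1 := hP.mul _ hyz _ hxy
        have h2 : z * y⁻¹ * (y * x⁻¹) = z * x⁻¹ := by group
        rwa [h2] at h1
    · rintro x y (rfl | hxy) (h | hyx)
      · rfl
      · rfl
      · exact h.symm
      · exfalso
        have h1 := hP.mul _ hyx _ hxy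
        have h2 : x * y⁻¹ * (y * x⁻¹) = 1 := by group
        rw [h2] at h1
        exact hP.one h1
    · intro x y
      by_cases hxy : x = y
      · exact Or.inl (Or.inl hxy)
      · have h1 : y * x⁻¹ ≠ 1 := by
          intro h
          apply hxy
          have h2 : y = x := by
            calc y = y * x⁻¹ * x := by group
              _ = x := by rw [h, one_mul]
          exact h2.symm
        rcases hP.tot _ h1 with h | h
        · exact Or.inl (Or.inr h)
        · right; right
          have h2 : (y * x⁻¹)⁻¹ = x * y⁻¹ := by group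
          rwa [h2] at h
    · intro x y z hxy
      show x * z = y * z ∨ y * z * (x * z)⁻¹ ∈ P
      have hxy' : x = y ∨ y * x⁻¹ ∈ P := hxy
      rcases hxy' with h | h
      · exact Or.inl (by rw [h])
      · right
        have h2 : y * z * (x * z)⁻¹ = y * x⁻¹ := by group
        rwa [h2]

/-- Positive cones relative to a subgroup. -/
structure RelCone {G : Type*} [Group G] (N : Subgroup G) (P : Set G) : Prop where
  mul : ∀ a ∈ P, ∀ b ∈ P, a * b ∈ P
  not_mem : ∀ a ∈ P, a ∉ N
  tot : ∀ a, a ∉ N → a ∈ P ∨ a⁻¹ ∈ P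

lemma RelCone.mul_right {G : Type*} [Group G] {N : Subgroup G} [hN : N.Normal] {P : Set G}
    (h : RelCone N P) {a n : G} (ha : a ∈ P) (hn : n ∈ N) : a * n ∈ P := by
  have h1 : a * n ∉ N := fun h2 => h.not_mem a ha (by
    have h3 := N.mul_mem h2 (N.inv_mem hn)
    rwa [mul_inv_cancel_right] at h3)
  rcases h.tot _ h1 with h2 | h2
  · exact h2
  · exfalso
    have h3 := h.mul _ ha _ h2
    refine h.not_mem _ h3 ?_
    have h4 : a * (a * n)⁻¹ = a * n⁻¹ * a⁻¹ := by group
    rw [h4]
    exact hN.conj_mem _ (N.inv_mem hn) a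

lemma RelCone.mul_left {G : Type*} [Group G] {N : Subgroup G} [hN : N.Normal] {P : Set G}
    (h : RelCone N P) {a n : G} (ha : a ∈ P) (hn : n ∈ N) : n * a ∈ P := by
  have h1 := hN.conj_mem n hn a⁻¹
  rw [inv_inv] at h1
  have h2 := h.mul_right ha h1
  have h3 : a * (a⁻¹ * n * a) = n * a := by group
  rwa [h3] at h2

theorem rightOrderable_quotient_iff {G : Type} [Group G] (N : Subgroup G) [N.Normal] :
    RightOrderable (G ⧸ N) ↔ ∃ P : Set G, RelCone N P := by
  rw [rightOrderable_iff_cone]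
  constructor
  · rintro ⟨Q, hQ⟩
    refine ⟨{x | (QuotientGroup.mk' N) x ∈ Q}, ?_, ?_, ?_⟩
    · intro a ha b hb
      show (QuotientGroup.mk' N) (a * b) ∈ Q
      rw [map_mul]
      exact hQ.mul _ ha _ hb
    · intro a ha haN
      have h1 : (QuotientGroup.mk' N) a = 1 := (QuotientGroup.eq_one_iff a).2 haN
      have h2 : (QuotientGroup.mk' N) a ∈ Q := ha
      rw [h1] at h2
      exact hQ.one h2
    · intro a ha
      have h1 : (QuotientGroup.mk' N) a ≠ 1 := fun h => ha ((QuotientGroup.eq_one_iff a).1 h)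
      rcases hQ.tot _ h1 with h | h
      · exact Or.inl h
      · right
        show (QuotientGroup.mk' N) a⁻¹ ∈ Q
        rwa [map_inv]
  · rintro ⟨P, hP⟩
    refine ⟨(QuotientGroup.mk' N) '' P, ?_, ?_, ?_⟩
    · rintro _ ⟨a, ha, rfl⟩ _ ⟨b, hb, rfl⟩
      exact ⟨a * b, hP.mul _ ha _ hb, map_mul _ _ _⟩
    · rintro ⟨a, ha, h⟩
      exact hP.not_mem a ha ((QuotientGroup.eq_one_iff a).1 h)
    · intro x hx
      obtain ⟨a, rfl⟩ := QuotientGroup.mk'_surjective N x
      have h1 : a ∉ N := fun h => hx ((QuotientGroup.eq_one_iff a).2 h)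
      rcases hP.tot a h1 with h | h
      · exact Or.inl ⟨a, h, rfl⟩
      · exact Or.inr ⟨a⁻¹, h, map_inv _ _⟩

theorem RightOrderable.of_injective {G H : Type} [Group G] [Group H] (f : H →* G)
    (hf : Function.Injective f) (h : RightOrderable G) : RightOrderable H := by
  rw [rightOrderable_iff_cone] at h ⊢
  obtain ⟨P, hP⟩ := h
  refine ⟨{x | f x ∈ P}, ?_, ?_, ?_⟩
  · intro a ha b hb
    show f (a * b) ∈ P
    rw [map_mul]
    exact hP.mul _ ha _ hb
  · intro h1
    have h2 : f 1 ∈ P := h1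
    rw [map_one] at h2
    exact hP.one h2
  · intro a ha
    have h1 : f a ≠ 1 := fun h => ha (hf (by rw [h, map_one]))
    rcases hP.tot _ h1 with h2 | h2
    · exact Or.inl h2
    · right
      show f a⁻¹ ∈ P
      rwa [map_inv]

theorem RightOrderable.extension {G : Type} [Group G] (M : Subgroup G) [M.Normal]
    (h1 : RightOrderable M) (h2 : RightOrderable (G ⧸ M)) : RightOrderable G := by
  rw [rightOrderable_iff_cone] at h1 ⊢
  rw [rightOrderable_quotient_iff] at h2
  obtain ⟨P0, hP0⟩ := h1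
  obtain ⟨P1, hP1⟩ := h2
  refine ⟨{x | x ∈ P1 ∨ ∃ h : x ∈ M, (⟨x, h⟩ : M) ∈ P0}, ?_, ?_, ?_⟩
  · rintro a (ha | ⟨ha, ha'⟩) b (hb | ⟨hb, hb'⟩)
    · exact Or.inl (hP1.mul _ ha _ hb)
    · exact Or.inl (hP1.mul_right ha hb)
    · exact Or.inl (hP1.mul_left hb ha)
    · exact Or.inr ⟨M.mul_mem ha hb, hP0.mul _ ha' _ hb'⟩
  · rintro (h | ⟨h, h'⟩)
    · exact hP1.not_mem _ h M.one_mem
    · exact hP0.one h'
  · intro a ha
    by_cases haM : a ∈ M
    · have h3 : (⟨a, haM⟩ : M) ≠ 1 := fun h => ha (congrArg Subtype.val h)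
      rcases hP0.tot _ h3 with h | h
      · exact Or.inl (Or.inr ⟨haM, h⟩)
      · exact Or.inr (Or.inr ⟨M.inv_mem haM, h⟩)
    · rcases hP1.tot a haM with h | h
      · exact Or.inl (Or.inl h)
      · exact Or.inr (Or.inl h)

/-- right-orderability is a local property -/
theorem RightOrderable.local {G : Type} [Group G]
    (h : ∀ H : Subgroup G, H.FG → RightOrderable H) : RightOrderable G := by
  rw [rightOrderable_iff_cone]
  have h1 : ∀ E : Finset G, ∃ P : Set (Subgroup.closure (E : Set G)), IsCone P := fun E =>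
    (rightOrderable_iff_cone _).1 (h _ ⟨E, rfl⟩)
  choose P hP using h1
  let C : Finset G → Set G := fun E =>
    {x | ∃ hx : x ∈ Subgroup.closure (E : Set G), (⟨x, hx⟩ : Subgroup.closure (E : Set G)) ∈ P E}
  let U : Ultrafilter (Finset G) := Ultrafilter.of Filter.atTop
  have hU : (U : Filter (Finset G)) ≤ Filter.atTop := Ultrafilter.of_le _
  refine ⟨{x | ∀ᶠ E in (U : Filter (Finset G)), x ∈ C E}, ?_, ?_, ?_⟩
  · intro a ha b hb
    have ha' : ∀ᶠ E in (U : Filter (Finset G)), a ∈ C E := ha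
    have hb' : ∀ᶠ E in (U : Filter (Finset G)), b ∈ C E := hb
    show ∀ᶠ E in (U : Filter (Finset G)), a * b ∈ C E
    filter_upwards [ha', hb'] with E h1 h2
    obtain ⟨h3, h4⟩ := h1
    obtain ⟨h5, h6⟩ := h2
    exact ⟨Subgroup.mul_mem _ h3 h5, (hP E).mul _ h4 _ h6⟩
  · intro h1
    have h2 : ∀ᶠ E in (U : Filter (Finset G)), (1 : G) ∈ C E := h1
    obtain ⟨E, h3, h4⟩ := h2.exists
    exact (hP E).one h4
  · intro a ha
    have h2 : ∀ᶠ E in (U : Filter (Finset G)), a ∈ E := by
      apply hU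
      filter_upwards [Filter.eventually_ge_atTop ({a} : Finset G)] with E hE
      exact hE (Finset.mem_singleton_self a)
    have h3 : ∀ᶠ E in (U : Filter (Finset G)), a ∈ C E ∨ a⁻¹ ∈ C E := by
      filter_upwards [h2] with E hE
      have h4 : a ∈ Subgroup.closure (E : Set G) := Subgroup.subset_closure hE
      have h5 : (⟨a, h4⟩ : Subgroup.closure (E : Set G)) ≠ 1 :=
        fun h => ha (congrArg Subtype.val h)
      rcases (hP E).tot _ h5 with h6 | h6
      · exact Or.inl ⟨h4, h6⟩
      · exact Or.inr ⟨Subgroup.inv_mem _ h4, h6⟩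
    exact Ultrafilter.eventually_or.1 h3

/-- quotients by intersections -/
theorem RightOrderable.iInf {G : Type} [Group G] {ι : Type} (M : ι → Subgroup G)
    [∀ i, (M i).Normal] (h : ∀ i, RightOrderable (G ⧸ M i)) (N : Subgroup G) [N.Normal]
    (hN : ∀ x, (∀ i, x ∈ M i) → x ∈ N) (hN' : ∀ i, N ≤ M i) : RightOrderable (G ⧸ N) := by
  rw [rightOrderable_quotient_iff]
  have h1 : ∀ i, ∃ P : Set G, RelCone (M i) P := fun i =>
    (rightOrderable_quotient_iff (M i)).1 (h i)
  choose P hP using h1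
  refine ⟨{x | ∃ i, x ∈ P i ∧ ∀ j, WellOrderingRel j i → x ∈ M j}, ?_, ?_, ?_⟩
  · rintro a ⟨i, hai, hai'⟩ b ⟨j, hbj, hbj'⟩
    rcases trichotomous_of (WellOrderingRel (α := ι)) i j with hij | hij | hij
    · refine ⟨i, (hP i).mul_right hai (hbj' i hij), fun k hk => ?_⟩
      exact (M k).mul_mem (hai' k hk) (hbj' k (trans_of WellOrderingRel hk hij))
    · subst hij
      exact ⟨i, (hP i).mul _ hai _ hbj, fun k hk => (M k).mul_mem (hai' k hk) (hbj' k hk)⟩
    · refine ⟨j, (hP j).mul_left hbj (hai' j hij), fun k hk => ?_⟩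
      exact (M k).mul_mem (hai' k (trans_of WellOrderingRel hk hij)) (hbj' k hk)
  · rintro a ⟨i, hai, _⟩ haN
    exact (hP i).not_mem a hai (hN' i haN)
  · intro a ha
    have h2 : ∃ i, a ∉ M i := by
      by_contra h3
      push Not at h3
      exact ha (hN a h3)
    have hwf : WellFounded (WellOrderingRel (α := ι)) := IsWellFounded.wf
    obtain ⟨i, hi, hmin⟩ := hwf.has_min {i | a ∉ M i} h2
    have h3 : ∀ j, WellOrderingRel j i → a ∈ M j := fun j hj => by
      by_contra h4
      exact hmin j h4 hj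
    rcases (hP i).tot a hi with h4 | h4
    · exact Or.inl ⟨i, h4, h3⟩
    · exact Or.inr ⟨i, h4, fun j hj => (M j).inv_mem (h3 j hj)⟩

/-- compactness -/
theorem RightOrderable.compact {F : Type} [Group F] (N : Set F) (w : F)
    (h : ∀ (B : Type) [Group B] (f : F →* B), RightOrderable B → (∀ x ∈ N, f x = 1) → f w = 1) :
    ∃ E : Finset F, (∀ e ∈ E, e ∈ N) ∧ ∀ (B : Type) [Group B] (f : F →* B), RightOrderable B →
      (∀ x ∈ E, f x = 1) → f w = 1 := by
  classical
  by_contra hcon
  push Not at hcon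
  have h1 : ∀ E : Finset N, ∃ (K : Subgroup F) (P : Set F), K.Normal ∧ RelCone K P ∧
      (∀ e : N, e ∈ E → (e : F) ∈ K) ∧ w ∉ K := by
    intro E
    obtain ⟨B, hB, f, hRO, hf, hw⟩ := hcon (E.image Subtype.val) (by
      intro e he
      obtain ⟨e', _, rfl⟩ := Finset.mem_image.1 he
      exact e'.2)
    obtain ⟨Q, hQ⟩ := (rightOrderable_iff_cone B).1 hRO
    refine ⟨f.ker, {x | f x ∈ Q}, inferInstance, ⟨?_, ?_, ?_⟩, ?_, ?_⟩
    · intro a ha b hb
      show f (a * b) ∈ Q
      rw [map_mul]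
      exact hQ.mul _ ha _ hb
    · intro a ha hak
      have h2 : f a ∈ Q := ha
      rw [MonoidHom.mem_ker] at hak
      rw [hak] at h2
      exact hQ.one h2
    · intro a ha
      rw [MonoidHom.mem_ker] at ha
      rcases hQ.tot _ ha with h2 | h2
      · exact Or.inl h2
      · right
        show f a⁻¹ ∈ Q
        rwa [map_inv]
    · intro e he
      rw [MonoidHom.mem_ker]
      exact hf _ (Finset.mem_image.2 ⟨e, he, rfl⟩)
    · rw [MonoidHom.mem_ker]
      exact hw
  choose K P hK hP hE hw using h1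
  let U : Ultrafilter (Finset N) := Ultrafilter.of Filter.atTop
  have hU : (U : Filter (Finset N)) ≤ Filter.atTop := Ultrafilter.of_le _
  let M : Subgroup F :=
    { carrier := {x | ∀ᶠ E in (U : Filter (Finset N)), x ∈ K E}
      mul_mem' := by
        intro a b ha hb
        have ha' : ∀ᶠ E in (U : Filter (Finset N)), a ∈ K E := ha
        have hb' : ∀ᶠ E in (U : Filter (Finset N)), b ∈ K E := hb
        show ∀ᶠ E in (U : Filter (Finset N)), a * b ∈ K E
        filter_upwards [ha', hb'] with E h1 h2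
        exact (K E).mul_mem h1 h2
      one_mem' := Filter.Eventually.of_forall fun E => (K E).one_mem
      inv_mem' := by
        intro a ha
        have ha' : ∀ᶠ E in (U : Filter (Finset N)), a ∈ K E := ha
        show ∀ᶠ E in (U : Filter (Finset N)), a⁻¹ ∈ K E
        filter_upwards [ha'] with E h1
        exact (K E).inv_mem h1 }
  have hM : ∀ x, x ∈ M ↔ ∀ᶠ E in (U : Filter (Finset N)), x ∈ K E := fun x => Iff.rfl
  haveI hMn : M.Normal := by
    refine ⟨fun n hn g => ?_⟩
    rw [hM] at hn ⊢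
    filter_upwards [hn] with E h1
    exact (hK E).conj_mem n h1 g
  have hRC : RelCone M {x | ∀ᶠ E in (U : Filter (Finset N)), x ∈ P E} := by
    refine ⟨?_, ?_, ?_⟩
    · intro a ha b hb
      have ha' : ∀ᶠ E in (U : Filter (Finset N)), a ∈ P E := ha
      have hb' : ∀ᶠ E in (U : Filter (Finset N)), b ∈ P E := hb
      show ∀ᶠ E in (U : Filter (Finset N)), a * b ∈ P E
      filter_upwards [ha', hb'] with E h1 h2
      exact (hP E).mul _ h1 _ h2
    · intro a ha haM
      have ha' : ∀ᶠ E in (U : Filter (Finset N)), a ∈ P E := ha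
      rw [hM] at haM
      obtain ⟨E, h1, h2⟩ := (ha'.and haM).exists
      exact (hP E).not_mem a h1 h2
    · intro a ha
      rw [hM] at ha
      have h2 : ∀ᶠ E in (U : Filter (Finset N)), a ∉ K E := Ultrafilter.eventually_not.2 ha
      have h3 : ∀ᶠ E in (U : Filter (Finset N)), a ∈ P E ∨ a⁻¹ ∈ P E := by
        filter_upwards [h2] with E h4
        exact (hP E).tot a h4
      exact Ultrafilter.eventually_or.1 h3
  have hRO : RightOrderable (F ⧸ M) := (rightOrderable_quotient_iff M).2 ⟨_, hRC⟩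
  have h2 := h (F ⧸ M) (QuotientGroup.mk' M) hRO (by
    intro x hx
    refine (QuotientGroup.eq_one_iff x).2 ?_
    rw [hM]
    apply hU
    filter_upwards [Filter.eventually_ge_atTop ({⟨x, hx⟩} : Finset N)] with E h3
    exact hE E ⟨x, hx⟩ (h3 (Finset.mem_singleton_self _)))
  have h3 : w ∈ M := (QuotientGroup.eq_one_iff w).1 h2
  rw [hM] at h3
  obtain ⟨E, h4⟩ := h3.exists
  exact hw E h4

end Pool.Agent.H27.Ind
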